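import Mathlib

/-!
Basic tools: complex points of finite type algebras, the group functor of a product of general
linear groups, its generic point, and functorial linear representations.
-/

open MvPolynomial Matrix

namespace Pool.Agent.P.MP_f4e0a3_ag

section Transfer

variable {A : Type} [CommRing A] [Algebra ℂ A] [Algebra.FiniteType ℂ A]

lemma exists_point_of_isMaximal (m : Ideal A) [hm : m.IsMaximal] :
    ∃ ψ : A →ₐ[ℂ] ℂ, ∀ y, ψ y = 0 ↔ y ∈ m := by
  let _ : Field (A ⧸ m) := Ideal.Quotient.field m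
  have : Module.Finite ℂ (A ⧸ m) := finite_of_finite_type_of_isJacobsonRing ℂ (A ⧸ m)
  have hb : Function.Bijective (algebraMap ℂ (A ⧸ m)) :=
    IsAlgClosed.algebraMap_bijective_of_isIntegral
  let e : ℂ ≃ₐ[ℂ] (A ⧸ m) := AlgEquiv.ofBijective (Algebra.ofId ℂ (A ⧸ m)) hb
  refine ⟨(e.symm : (A ⧸ m) →ₐ[ℂ] ℂ).comp (Ideal.Quotient.mkₐ ℂ m), fun y => ?_⟩
  simp [Ideal.Quotient.eq_zero_iff_mem]

lemma exists_point_of_isPrime (p : Ideal A) [hp : p.IsPrime] (x : A) (hx : x ∉ p) :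
    ∃ ψ : A →ₐ[ℂ] ℂ, (∀ y ∈ p, ψ y = 0) ∧ ψ x ≠ 0 := by
  have : IsJacobsonRing A := isJacobsonRing_of_finiteType (A := ℂ)
  have h : p.jacobson = p := IsJacobsonRing.out inferInstance hp.isRadical
  rw [← h, Ideal.jacobson, Ideal.mem_sInf] at hx
  push Not at hx
  obtain ⟨m, ⟨hpm, hm⟩, hxm⟩ := hx
  obtain ⟨ψ, hψ⟩ := exists_point_of_isMaximal m
  exact ⟨ψ, fun y hy => (hψ y).2 (hpm hy), fun h => hxm ((hψ x).1 h)⟩

lemma exists_point_of_ne_top (J : Ideal A) (hJ : J ≠ ⊤) :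
    ∃ ψ : A →ₐ[ℂ] ℂ, ∀ y ∈ J, ψ y = 0 := by
  obtain ⟨m, hm, hJm⟩ := Ideal.exists_le_maximal J hJ
  obtain ⟨ψ, hψ⟩ := exists_point_of_isMaximal m
  exact ⟨ψ, fun y hy => (hψ y).2 (hJm hy)⟩

lemma exists_point_of_hom {Ω : Type} [CommRing Ω] [IsDomain Ω] (φ : A →+* Ω) (x : A)
    (hx : φ x ≠ 0) : ∃ ψ : A →ₐ[ℂ] ℂ, (∀ y, φ y = 0 → ψ y = 0) ∧ ψ x ≠ 0 := by
  have : (RingHom.ker φ).IsPrime := RingHom.ker_isPrime φ
  obtain ⟨ψ, h1, h2⟩ := exists_point_of_isPrime (RingHom.ker φ) x hx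
  exact ⟨ψ, fun y hy => h1 y hy, h2⟩

lemma eq_zero_of_forall_point [IsDomain A] (x : A) (h : ∀ ψ : A →ₐ[ℂ] ℂ, ψ x = 0) : x = 0 := by
  by_contra hx
  obtain ⟨ψ, -, h2⟩ := exists_point_of_hom (RingHom.id A) x hx
  exact h2 (h ψ)

lemma mem_radical_of_forall_point (J : Ideal A) (x : A)
    (h : ∀ ψ : A →ₐ[ℂ] ℂ, (∀ y ∈ J, ψ y = 0) → ψ x = 0) : x ∈ J.radical := by
  rw [Ideal.radical_eq_sInf, Ideal.mem_sInf]
  rintro p ⟨hJp, hp⟩
  by_contra hx
  obtain ⟨ψ, h1, h2⟩ := exists_point_of_isPrime p x hx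
  exact h2 (h ψ fun y hy => h1 y (hJp hy))

end Transfer

/-- points of a product of general linear groups -/
abbrev Gr (τ σ : Type) [Fintype σ] [DecidableEq σ] (R : Type) [CommRing R] : Type :=
  τ → GL σ R

section Group

variable {τ σ : Type} [Fintype σ] [DecidableEq σ]

/-- functoriality -/
def mapG {R S : Type} [CommRing R] [CommRing S] (φ : R →+* S) : Gr τ σ R →* Gr τ σ S where
  toFun γ t := Matrix.GeneralLinearGroup.map φ (γ t)
  map_one' := by funext t; simp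
  map_mul' a b := by funext t; simp

@[simp] lemma mapG_val {R S : Type} [CommRing R] [CommRing S] (φ : R →+* S) (γ : Gr τ σ R)
    (t : τ) : ((mapG φ γ t : GL σ S) : Matrix σ σ S) = (γ t : Matrix σ σ R).map φ := rfl

lemma mapG_mapG {R S T : Type} [CommRing R] [CommRing S] [CommRing T] (φ : R →+* S)
    (ψ : S →+* T) (γ : Gr τ σ R) : mapG ψ (mapG φ γ) = mapG (ψ.comp φ) γ := rfl

@[simp] lemma mapG_id {R : Type} [CommRing R] (γ : Gr τ σ R) : mapG (RingHom.id R) γ = γ := rfl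

variable [Fintype τ]

variable (τ σ) in
/-- product of the generic determinants -/
noncomputable def detProd (k : Type) [CommRing k] : MvPolynomial (τ × σ × σ) k :=
  ∏ t : τ, (Matrix.of fun i j : σ => (X (t, i, j) : MvPolynomial (τ × σ × σ) k)).det

variable (τ σ) in
/-- coordinate ring of the group over `k` -/
abbrev CG (k : Type) [CommRing k] : Type := Localization.Away (detProd τ σ k)

lemma aeval_detProd {k R : Type} [CommRing k] [CommRing R] [Algebra k R]
    (m : τ → Matrix σ σ R) :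
    aeval (fun p : τ × σ × σ => m p.1 p.2.1 p.2.2) (detProd τ σ k) = ∏ t, (m t).det := by
  rw [detProd, map_prod]
  refine Finset.prod_congr rfl fun t _ => ?_
  rw [AlgHom.map_det]
  congr 1
  ext i j
  simp

lemma detProd_ne_zero (k : Type) [CommRing k] [Nontrivial k] : detProd τ σ k ≠ 0 := by
  intro h
  have := aeval_detProd (k := k) (R := k) (τ := τ) (σ := σ) (fun _ => 1)
  rw [h] at this
  simp at this

instance (k : Type) [CommRing k] [IsDomain k] : IsDomain (CG τ σ k) :=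
  IsLocalization.isDomain_localization
    (powers_le_nonZeroDivisors_of_noZeroDivisors (detProd_ne_zero k))

instance (k : Type) [CommRing k] : Algebra.FiniteType k (CG τ σ k) :=
  Algebra.FiniteType.trans (S := MvPolynomial (τ × σ × σ) k) inferInstance inferInstance

variable (τ σ) in
/-- the generic point -/
noncomputable def genG (k : Type) [CommRing k] : Gr τ σ (CG τ σ k) := fun t =>
  Matrix.GeneralLinearGroup.mk'' (Matrix.of fun i j : σ =>
    algebraMap (MvPolynomial (τ × σ × σ) k) (CG τ σ k) (X (t, i, j))) (by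
      have h : IsUnit (algebraMap (MvPolynomial (τ × σ × σ) k) (CG τ σ k)
          (∏ t : τ, (Matrix.of fun i j : σ => (X (t, i, j) : MvPolynomial (τ × σ × σ) k)).det)) :=
        IsLocalization.Away.algebraMap_isUnit (detProd τ σ k)
      rw [map_prod] at h
      have h2 := isUnit_of_dvd_unit (Finset.dvd_prod_of_mem _ (Finset.mem_univ t)) h
      rw [RingHom.map_det] at h2
      exact h2)

lemma genG_apply (k : Type) [CommRing k] (t : τ) (i j : σ) :
    (genG τ σ k t : Matrix σ σ (CG τ σ k)) i j =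
      algebraMap (MvPolynomial (τ × σ × σ) k) (CG τ σ k) (X (t, i, j)) := rfl

/-- evaluation of a regular function at a point of the group -/
noncomputable def evG (k : Type) {R : Type} [CommRing k] [CommRing R] [Algebra k R]
    (γ : Gr τ σ R) : CG τ σ k →ₐ[k] R :=
  IsLocalization.Away.liftAlgHom (detProd τ σ k)
    (f := aeval (fun p : τ × σ × σ => (γ p.1 : Matrix σ σ R) p.2.1 p.2.2)) (by
      rw [aeval_detProd (fun t => (γ t : Matrix σ σ R))]
      exact IsUnit.prod_iff.2 fun t _ => (Matrix.GeneralLinearGroup.det (γ t)).isUnit)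

lemma evG_algebraMap (k : Type) {R : Type} [CommRing k] [CommRing R] [Algebra k R]
    (γ : Gr τ σ R) (p : MvPolynomial (τ × σ × σ) k) :
    evG k γ (algebraMap _ _ p) =
      aeval (fun p : τ × σ × σ => (γ p.1 : Matrix σ σ R) p.2.1 p.2.2) p := by
  rw [evG, IsLocalization.Away.liftAlgHom_apply, IsLocalization.Away.lift_eq]
  rfl

lemma mapG_evG (k : Type) {R : Type} [CommRing k] [CommRing R] [Algebra k R]
    (γ : Gr τ σ R) : mapG (evG k γ : CG τ σ k →+* R) (genG τ σ k) = γ := by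
  funext t
  ext i j
  show evG k γ ((genG τ σ k t : Matrix σ σ (CG τ σ k)) i j) = _
  rw [genG_apply, evG_algebraMap, aeval_X]

lemma evG_mapG (k : Type) {R : Type} [CommRing k] [CommRing R] [Algebra k R]
    (ψ : CG τ σ k →ₐ[k] R) : evG k (mapG (ψ : CG τ σ k →+* R) (genG τ σ k)) = ψ := by
  apply Localization.algHom_ext
  apply MvPolynomial.algHom_ext
  intro p
  show evG k _ (algebraMap _ _ (X p)) = ψ (algebraMap _ _ (X p))
  rw [evG_algebraMap, aeval_X]
  rfl

lemma CG_eq_zero (c : CG τ σ ℂ) (h : ∀ γ : Gr τ σ ℂ, evG ℂ γ c = 0) : c = 0 := by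
  apply eq_zero_of_forall_point
  intro ψ
  rw [← evG_mapG ℂ ψ]
  exact h _

end Group

/-- a functorial linear representation -/
structure Rep (τ σ ι : Type) [Fintype σ] [DecidableEq σ] [Fintype ι] [DecidableEq ι] where
  /-- the matrix of a group element -/
  ρ : ∀ (R : Type) [CommRing R] [Algebra ℂ R], Gr τ σ R →* Matrix ι ι R
  nat : ∀ {R S : Type} [CommRing R] [Algebra ℂ R] [CommRing S] [Algebra ℂ S] (φ : R →ₐ[ℂ] S)
    (γ : Gr τ σ R), (ρ R γ).map φ = ρ S (mapG (φ : R →+* S) γ)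

namespace Rep

variable {τ σ ι : Type} [Fintype σ] [DecidableEq σ] [Fintype ι] [DecidableEq ι] (r : Rep τ σ ι)
variable {R S : Type} [CommRing R] [Algebra ℂ R] [CommRing S] [Algebra ℂ S]

/-- right action on points -/
def pt (w : ι → R) (γ : Gr τ σ R) : ι → R := w ᵥ* r.ρ R γ

@[simp] lemma pt_one (w : ι → R) : r.pt w 1 = w := by simp [pt]

lemma pt_mul (w : ι → R) (γ δ : Gr τ σ R) : r.pt w (γ * δ) = r.pt (r.pt w γ) δ := by
  simp [pt]

@[simp] lemma pt_inv_pt (w : ι → R) (γ : Gr τ σ R) : r.pt (r.pt w γ) γ⁻¹ = w := by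
  rw [← pt_mul]; simp

@[simp] lemma pt_pt_inv (w : ι → R) (γ : Gr τ σ R) : r.pt (r.pt w γ⁻¹) γ = w := by
  rw [← pt_mul]; simp

lemma pt_add (w v : ι → R) (γ : Gr τ σ R) : r.pt (w + v) γ = r.pt w γ + r.pt v γ := by
  simp [pt, add_vecMul]

lemma pt_smul (c : R) (w : ι → R) (γ : Gr τ σ R) : r.pt (c • w) γ = c • r.pt w γ := by
  simp [pt, smul_vecMul]

lemma map_pt (φ : R →ₐ[ℂ] S) (w : ι → R) (γ : Gr τ σ R) :
    (fun i => φ (r.pt w γ i)) = r.pt (fun i => φ (w i)) (mapG (φ : R →+* S) γ) := by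
  funext i
  rw [pt, pt, ← r.nat φ γ]
  simp [vecMul, dotProduct]

/-- the polynomial `P (X · γ)` over the ring of `γ` -/
noncomputable def gact (γ : Gr τ σ R) : MvPolynomial ι ℂ →ₐ[ℂ] MvPolynomial ι R :=
  aeval (r.pt (X : ι → MvPolynomial ι R) (mapG (C : R →+* MvPolynomial ι R) γ))

lemma aeval_gact {T : Type} [CommRing T] [Algebra ℂ T] [Algebra R T] [IsScalarTower ℂ R T]
    (γ : Gr τ σ R) (w : ι → T) (P : MvPolynomial ι ℂ) :
    aeval w (r.gact γ P) = aeval (r.pt w (mapG (algebraMap R T) γ)) P := by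
  have h := r.map_pt ((aeval w : MvPolynomial ι R →ₐ[R] T).restrictScalars ℂ)
    (X : ι → MvPolynomial ι R) (mapG (C : R →+* MvPolynomial ι R) γ)
  have h2 : mapG (((aeval w : MvPolynomial ι R →ₐ[R] T).restrictScalars ℂ :
      MvPolynomial ι R →ₐ[ℂ] T) : MvPolynomial ι R →+* T)
      (mapG (C : R →+* MvPolynomial ι R) γ) = mapG (algebraMap R T) γ := by
    rw [mapG_mapG]
    congr 2
    ext x
    simp
  rw [h2] at h
  have h3 : ((aeval w : MvPolynomial ι R →ₐ[R] T).restrictScalars ℂ).comp (r.gact γ) =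
      aeval (r.pt w (mapG (algebraMap R T) γ)) := by
    rw [gact, comp_aeval, h]
    simp
  exact DFunLike.congr_fun h3 P

lemma map_gact (φ : R →ₐ[ℂ] S) (γ : Gr τ σ R) (P : MvPolynomial ι ℂ) :
    MvPolynomial.map (φ : R →+* S) (r.gact γ P) = r.gact (mapG (φ : R →+* S) γ) P := by
  have h := r.map_pt (mapAlgHom (σ := ι) φ)
    (X : ι → MvPolynomial ι R) (mapG (C : R →+* MvPolynomial ι R) γ)
  have h2 : mapG ((mapAlgHom (σ := ι) φ : MvPolynomial ι R →ₐ[ℂ] MvPolynomial ι S) :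
      MvPolynomial ι R →+* MvPolynomial ι S) (mapG (C : R →+* MvPolynomial ι R) γ) =
      mapG (C : S →+* MvPolynomial ι S) (mapG (φ : R →+* S) γ) := by
    rw [mapG_mapG, mapG_mapG]
    congr 2
    ext x : 1
    simp
  rw [h2] at h
  have h3 : (mapAlgHom (σ := ι) φ).comp (r.gact γ) = r.gact (mapG (φ : R →+* S) γ) := by
    rw [gact, comp_aeval, h, gact]
    simp
  exact DFunLike.congr_fun h3 P

lemma aeval_act (γ : Gr τ σ ℂ) (w : ι → ℂ) (P : MvPolynomial ι ℂ) :
    aeval w (r.gact γ P) = aeval (r.pt w γ) P := r.aeval_gact γ w P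

lemma act_mul (γ δ : Gr τ σ ℂ) (P : MvPolynomial ι ℂ) :
    r.gact (γ * δ) P = r.gact γ (r.gact δ P) := by
  apply MvPolynomial.funext
  intro w
  have h1 := r.aeval_act (γ * δ) w P
  have h2 := r.aeval_act γ w (r.gact δ P)
  have h3 := r.aeval_act δ (r.pt w γ) P
  rw [pt_mul] at h1
  exact h1.trans (h2.trans h3).symm

@[simp] lemma act_one (P : MvPolynomial ι ℂ) : r.gact (1 : Gr τ σ ℂ) P = P := by
  apply MvPolynomial.funext
  intro w
  have h1 := r.aeval_act 1 w P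
  rw [pt_one] at h1
  exact h1

@[simp] lemma act_act_inv (γ : Gr τ σ ℂ) (P : MvPolynomial ι ℂ) :
    r.gact γ (r.gact γ⁻¹ P) = P := by rw [← act_mul]; simp

@[simp] lemma act_inv_act (γ : Gr τ σ ℂ) (P : MvPolynomial ι ℂ) :
    r.gact γ⁻¹ (r.gact γ P) = P := by rw [← act_mul]; simp

variable [Fintype τ]

lemma gact_eq_map (γ : Gr τ σ R) (P : MvPolynomial ι ℂ) :
    r.gact γ P = MvPolynomial.map (evG ℂ γ : CG τ σ ℂ →+* R) (r.gact (genG τ σ ℂ) P) := by
  rw [map_gact, mapG_evG]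

lemma coeff_gact (γ : Gr τ σ R) (P : MvPolynomial ι ℂ) (β : ι →₀ ℕ) :
    coeff β (r.gact γ P) = evG ℂ γ (coeff β (r.gact (genG τ σ ℂ) P)) := by
  rw [gact_eq_map, coeff_map]; rfl

/-- invariance on complex points gives invariance on all points -/
lemma aeval_pt_of_invariant (P : MvPolynomial ι ℂ) (hP : ∀ γ : Gr τ σ ℂ, r.gact γ P = P)
    (w : ι → R) (γ : Gr τ σ R) : aeval (r.pt w γ) P = aeval w P := by
  have h1 : r.gact (genG τ σ ℂ) P = MvPolynomial.map (algebraMap ℂ (CG τ σ ℂ)) P := by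
    ext β
    rw [← sub_eq_zero]
    apply CG_eq_zero
    intro γ
    rw [map_sub, ← coeff_gact, hP, coeff_map]
    simp
  have h2 := r.aeval_gact γ w P
  rw [gact_eq_map, h1, MvPolynomial.map_map] at h2
  have h3 : (evG ℂ γ : CG τ σ ℂ →+* R).comp (algebraMap ℂ (CG τ σ ℂ)) = algebraMap ℂ R :=
    (evG ℂ γ).comp_algebraMap
  rw [h3, aeval_map_algebraMap] at h2
  exact h2.symm

/-- vanishing on the complex points of an orbit gives vanishing on all points -/
lemma aeval_pt_eq_zero (P : MvPolynomial ι ℂ) (h : ι → ℂ)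
    (hP : ∀ γ : Gr τ σ ℂ, aeval (r.pt h γ) P = 0) (γ : Gr τ σ R) :
    aeval (r.pt (fun i => algebraMap ℂ R (h i)) γ) P = 0 := by
  have key : ∀ {T : Type} [CommRing T] [Algebra ℂ T] (δ : Gr τ σ T),
      aeval (r.pt (fun i => algebraMap ℂ T (h i)) δ) P =
      evG ℂ δ (aeval (r.pt (fun i => algebraMap ℂ (CG τ σ ℂ) (h i)) (genG τ σ ℂ)) P) := by
    intro T _ _ δ
    rw [← AlgHom.comp_apply, comp_aeval, r.map_pt, mapG_evG]
    simp
  rw [key, CG_eq_zero (aeval _ P), map_zero]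
  intro δ
  rw [← key]
  exact hP δ

end Rep

end Pool.Agent.P.MP_f4e0a3_ag
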