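import Mathlib
import Pool.Agent.P.MP_f4e0a3_ag.Basic

/-!
Linear substitutions, tuples of forms, coordinates and the representation on tuples.
-/

open MvPolynomial Matrix

set_option linter.unusedSectionVars false

namespace Pool.Agent.P.MP_f4e0a3_ag

section OfLin

variable {τ σ ι : Type} [Fintype σ] [DecidableEq σ] [Fintype ι] [DecidableEq ι]

lemma lin_eq_vecMul {R : Type} [CommRing R] (L : (ι → R) →ₗ[R] (ι → R)) (w : ι → R) :
    w ᵥ* (Matrix.of fun p q => L (Pi.single p 1) q) = L w := by
  conv_rhs => rw [pi_eq_sum_univ' w]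
  funext q
  simp [vecMul, dotProduct]

/-- a representation from a functorial family of linear maps -/
def Rep.ofLin
    (L : ∀ (R : Type) [CommRing R] [Algebra ℂ R], Gr τ σ R → (ι → R) →ₗ[R] (ι → R))
    (h1 : ∀ (R : Type) [CommRing R] [Algebra ℂ R] (w : ι → R), L R 1 w = w)
    (hm : ∀ (R : Type) [CommRing R] [Algebra ℂ R] (γ δ : Gr τ σ R) (w : ι → R),
      L R (γ * δ) w = L R δ (L R γ w))
    (hn : ∀ {R S : Type} [CommRing R] [Algebra ℂ R] [CommRing S] [Algebra ℂ S] (φ : R →ₐ[ℂ] S)
      (γ : Gr τ σ R) (w : ι → R),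
      (fun i => φ (L R γ w i)) = L S (mapG (φ : R →+* S) γ) (fun i => φ (w i))) :
    Rep τ σ ι where
  ρ R _ _ :=
    { toFun := fun γ => Matrix.of fun p q => L R γ (Pi.single p 1) q
      map_one' := by
        ext p q
        simp [h1, Matrix.one_apply, Pi.single_apply, eq_comm]
      map_mul' := by
        intro γ δ
        ext p q
        have := congrFun (lin_eq_vecMul (L R δ) (L R γ (Pi.single p 1))) q
        rw [Matrix.of_apply, hm, ← this]
        simp [Matrix.mul_apply, vecMul, dotProduct] }
  nat φ γ := by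
    ext p q
    have := congrFun (hn φ γ (Pi.single p 1)) q
    simp only [MonoidHom.coe_mk, OneHom.coe_mk, Matrix.map_apply, Matrix.of_apply, this]
    have h2 : (fun i => φ (Pi.single (M := fun _ => _) p 1 i)) = Pi.single p 1 := by
      funext i
      by_cases h : i = p <;> simp [Pi.single_apply, h]
    rw [h2]

lemma Rep.pt_ofLin (L h1 hm hn) {R : Type} [CommRing R] [Algebra ℂ R] (w : ι → R)
    (γ : Gr τ σ R) : (Rep.ofLin (τ := τ) (σ := σ) L h1 hm hn).pt w γ = L R γ w :=
  lin_eq_vecMul _ _

end OfLin

variable {σ : Type} [Fintype σ] [DecidableEq σ]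
variable {R S : Type} [CommRing R] [CommRing S]

/-- linear substitution `p ↦ p (g x)` -/
noncomputable def sub (g : Matrix σ σ R) : MvPolynomial σ R →ₐ[R] MvPolynomial σ R :=
  aeval fun i => ∑ j, C (g i j) * X j

lemma sub_X (g : Matrix σ σ R) (i : σ) : sub g (X i) = ∑ j, C (g i j) * X j := aeval_X _ _

lemma sub_C (g : Matrix σ σ R) (c : R) : sub g (C c) = C c := (sub g).commutes c

@[simp] lemma sub_one (p : MvPolynomial σ R) : sub (1 : Matrix σ σ R) p = p := by
  have : sub (1 : Matrix σ σ R) = AlgHom.id R _ := by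
    apply MvPolynomial.algHom_ext
    intro i
    simp [sub_X, Matrix.one_apply, apply_ite]
  rw [this]; rfl

lemma sub_sub (g g' : Matrix σ σ R) (p : MvPolynomial σ R) :
    sub g' (sub g p) = sub (g * g') p := by
  have : (sub g').comp (sub g) = sub (g * g') := by
    apply MvPolynomial.algHom_ext
    intro i
    simp only [AlgHom.comp_apply, sub_X, map_sum, map_mul, sub_C, Matrix.mul_apply,
      Finset.mul_sum, Finset.sum_mul]
    rw [Finset.sum_comm]
    simp only [mul_assoc]
  exact DFunLike.congr_fun this p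

lemma eval_sub (g : Matrix σ σ R) (x : σ → R) (p : MvPolynomial σ R) :
    eval x (sub g p) = eval (g *ᵥ x) p := by
  have : (aeval x : MvPolynomial σ R →ₐ[R] R).comp (sub g) = aeval (g *ᵥ x) := by
    apply MvPolynomial.algHom_ext
    intro i
    simp [sub_X, mulVec, dotProduct]
  exact DFunLike.congr_fun this p

lemma sub_isHomogeneous (g : Matrix σ σ R) {p : MvPolynomial σ R} {m : ℕ}
    (hp : p.IsHomogeneous m) : (sub g p).IsHomogeneous m := by
  have := hp.aeval (fun i => ∑ j, C (g i j) * (X j : MvPolynomial σ R)) (n := 1)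
    (fun i => IsHomogeneous.sum _ _ _ fun j _ => isHomogeneous_C_mul_X _ _)
  rwa [one_mul] at this

lemma map_sub_eq (φ : R →+* S) (g : Matrix σ σ R) (p : MvPolynomial σ R) :
    MvPolynomial.map φ (sub g p) = sub (g.map φ) (MvPolynomial.map φ p) := by
  have : (MvPolynomial.map φ).comp (sub g : MvPolynomial σ R →+* MvPolynomial σ R) =
      (sub (g.map φ) : MvPolynomial σ S →+* MvPolynomial σ S).comp (MvPolynomial.map φ) := by
    apply MvPolynomial.ringHom_ext
    · intro c; simp
    · intro i; simp [sub_X]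
  exact DFunLike.congr_fun this p

lemma pderiv_sub (g : Matrix σ σ R) (p : MvPolynomial σ R) (j : σ) :
    pderiv j (sub g p) = ∑ i, C (g i j) * sub g (pderiv i p) := by
  induction p using MvPolynomial.induction_on with
  | C a => simp
  | add p q hp hq => simp [hp, hq, mul_add, Finset.sum_add_distrib]
  | mul_X p k hp =>
    have h1 : pderiv j (sub g (X k)) = C (g k j) := by
      rw [sub_X, map_sum, Finset.sum_eq_single j]
      · simp
      · intro i _ hi
        simp [pderiv_X_of_ne hi]
      · simp
    simp only [map_mul, Derivation.leibniz, smul_eq_mul, hp, h1, map_add, pderiv_X, mul_add,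
      Finset.sum_add_distrib, Finset.mul_sum]
    congr 1
    · rw [Finset.sum_eq_single k]
      · simp [mul_comm]
      · intro i _ hi
        simp [Pi.single_eq_of_ne' hi]
      · simp
    · exact Finset.sum_congr rfl fun i _ => by ring

lemma sub_diagonal_monomial (u : σ → R) (β : σ →₀ ℕ) (c : R) :
    sub (diagonal u) (monomial β c) = monomial β ((∏ j, u j ^ β j) * c) := by
  have h : ∀ i, sub (diagonal u) (X i) = C (u i) * X i := by
    intro i
    rw [sub_X, Finset.sum_eq_single i]
    · simp
    · intro j _ hj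
      simp [diagonal_apply_ne _ hj.symm]
    · simp
  rw [monomial_eq, monomial_eq, map_mul, sub_C, Finsupp.prod_fintype _ _ (by simp), map_prod]
  simp only [map_pow, h, mul_pow, Finset.prod_mul_distrib, map_mul, map_prod]
  ring

lemma coeff_sub_diagonal (u : σ → R) (β : σ →₀ ℕ) (p : MvPolynomial σ R) :
    coeff β (sub (diagonal u) p) = (∏ j, u j ^ β j) * coeff β p := by
  induction p using MvPolynomial.induction_on' with
  | monomial α c =>
    rw [sub_diagonal_monomial, coeff_monomial, coeff_monomial]
    split_ifs with h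
    · rw [h]
    · simp
  | add p q hp hq => simp [hp, hq, mul_add]

/-- action on tuples -/
noncomputable def act2 (a g : Matrix σ σ R) (h : σ → MvPolynomial σ R) :
    σ → MvPolynomial σ R := fun j => ∑ i, C (a i j) * sub g (h i)

/-- gradient -/
noncomputable def grad (f : MvPolynomial σ R) : σ → MvPolynomial σ R := fun i => pderiv i f

lemma act2_act2 (a g a' g' : Matrix σ σ R) (h : σ → MvPolynomial σ R) :
    act2 a' g' (act2 a g h) = act2 (a * a') (g * g') h := by
  funext j
  simp only [act2, map_sum, map_mul, sub_C, sub_sub, Matrix.mul_apply, Finset.mul_sum,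
    Finset.sum_mul]
  rw [Finset.sum_comm]
  exact Finset.sum_congr rfl fun i _ => Finset.sum_congr rfl fun k _ => by ring

@[simp] lemma act2_one (h : σ → MvPolynomial σ R) : act2 1 1 h = h := by
  funext j
  simp [act2, Matrix.one_apply, apply_ite]

lemma act2_one_left (g : Matrix σ σ R) (h : σ → MvPolynomial σ R) (j : σ) :
    act2 1 g h j = sub g (h j) := by
  simp [act2, Matrix.one_apply, apply_ite]

lemma act2_diagonal (t : σ → R) (g : Matrix σ σ R) (h : σ → MvPolynomial σ R) (j : σ) :
    act2 (diagonal t) g h j = C (t j) * sub g (h j) := by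
  rw [act2, Finset.sum_eq_single j]
  · simp
  · intro i _ hi
    simp [diagonal_apply_ne _ hi]
  · simp

lemma grad_sub (g : Matrix σ σ R) (f : MvPolynomial σ R) :
    grad (sub g f) = act2 g g (grad f) := funext fun j => pderiv_sub g f j

lemma act2_isHomogeneous (a g : Matrix σ σ R) {h : σ → MvPolynomial σ R} {m : ℕ}
    (hh : ∀ i, (h i).IsHomogeneous m) (j : σ) : (act2 a g h j).IsHomogeneous m :=
  IsHomogeneous.sum _ _ _ fun i _ => (sub_isHomogeneous g (hh i)).C_mul _

lemma map_act2 (φ : R →+* S) (a g : Matrix σ σ R) (h : σ → MvPolynomial σ R) (j : σ) :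
    MvPolynomial.map φ (act2 a g h j) =
      act2 (a.map φ) (g.map φ) (fun i => MvPolynomial.map φ (h i)) j := by
  simp [act2, map_sub_eq]

lemma eval_act2 (a g : Matrix σ σ R) (h : σ → MvPolynomial σ R) (x : σ → R) (j : σ) :
    eval x (act2 a g h j) = ∑ i, a i j * eval (g *ᵥ x) (h i) := by
  simp [act2, eval_sub]

/-- monomials of degree `e` -/
def Mon (σ : Type) (e : ℕ) : Type := {β : σ →₀ ℕ // β.degree = e}

instance (e : ℕ) : Finite (Mon σ e) := (Finsupp.finite_of_degree_eq e).to_subtype

noncomputable instance (e : ℕ) : Fintype (Mon σ e) := Fintype.ofFinite _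

instance (e : ℕ) : DecidableEq (Mon σ e) :=
  inferInstanceAs (DecidableEq {β : σ →₀ ℕ // β.degree = e})

variable {e : ℕ}

/-- the form with given coefficients -/
noncomputable def frm (c : Mon σ e → R) : MvPolynomial σ R := ∑ β : Mon σ e, monomial β.1 (c β)

lemma coeff_frm (c : Mon σ e → R) (β : Mon σ e) : coeff β.1 (frm c) = c β := by
  rw [frm, coeff_sum, Finset.sum_eq_single β]
  · simp
  · intro α _ hα
    rw [coeff_monomial, if_neg]
    exact fun h => hα (Subtype.ext h)
  · simp

lemma frm_isHomogeneous (c : Mon σ e → R) : (frm c).IsHomogeneous e :=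
  IsHomogeneous.sum _ _ _ fun β _ => isHomogeneous_monomial _ β.2

lemma IsHomogeneous.ext_mon {p q : MvPolynomial σ R} (hp : p.IsHomogeneous e)
    (hq : q.IsHomogeneous e) (h : ∀ β : Mon σ e, coeff β.1 p = coeff β.1 q) : p = q := by
  ext β
  by_cases hβ : β.degree = e
  · exact h ⟨β, hβ⟩
  · rw [hp.coeff_eq_zero hβ, hq.coeff_eq_zero hβ]

lemma frm_coeff {p : MvPolynomial σ R} (hp : p.IsHomogeneous e) :
    frm (fun β : Mon σ e => coeff β.1 p) = p :=
  IsHomogeneous.ext_mon (frm_isHomogeneous _) hp fun β => coeff_frm _ β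

lemma map_frm (φ : R →+* S) (c : Mon σ e → R) :
    MvPolynomial.map φ (frm c) = frm fun β => φ (c β) := by
  simp [frm]

lemma eval_frm (c : Mon σ e → R) (x : σ → R) :
    eval x (frm c) = ∑ β : Mon σ e, c β * ∏ j, x j ^ β.1 j := by
  simp [frm, eval_monomial, Finsupp.prod_fintype]

/-- tuple with given coordinates -/
noncomputable def tup (w : σ × Mon σ e → R) : σ → MvPolynomial σ R :=
  fun i => frm fun β => w (i, β)

variable (e) in
/-- coordinates of a tuple -/
noncomputable def crd (h : σ → MvPolynomial σ R) : σ × Mon σ e → R :=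
  fun p => coeff p.2.1 (h p.1)

@[simp] lemma crd_tup (w : σ × Mon σ e → R) : crd e (tup w) = w :=
  funext fun p => coeff_frm (fun β => w (p.1, β)) p.2

lemma tup_isHomogeneous (w : σ × Mon σ e → R) (i : σ) : (tup w i).IsHomogeneous e :=
  frm_isHomogeneous _

lemma tup_crd {h : σ → MvPolynomial σ R} (hh : ∀ i, (h i).IsHomogeneous e) :
    tup (crd e h) = h := funext fun i => frm_coeff (hh i)

lemma map_tup (φ : R →+* S) (w : σ × Mon σ e → R) (i : σ) :
    MvPolynomial.map φ (tup w i) = tup (fun p => φ (w p)) i := map_frm _ _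

lemma map_crd (φ : R →+* S) (h : σ → MvPolynomial σ R) :
    (fun p => φ (crd e h p)) = crd e (fun i => MvPolynomial.map φ (h i)) := by
  funext p; simp [crd, coeff_map]

lemma tup_add (w v : σ × Mon σ e → R) : tup (w + v) = tup w + tup v := by
  funext i; simp [tup, frm, Finset.sum_add_distrib]

lemma tup_smul (c : R) (w : σ × Mon σ e → R) : tup (c • w) = c • tup w := by
  funext i; simp [tup, frm, Finset.smul_sum, smul_monomial]

/-- the action in coordinates -/
noncomputable def lin0 (a g : Matrix σ σ R) : (σ × Mon σ e → R) →ₗ[R] (σ × Mon σ e → R) where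
  toFun w := crd e (act2 a g (tup w))
  map_add' w v := by
    funext p
    simp [crd, act2, tup_add, mul_add, Finset.sum_add_distrib]
  map_smul' c w := by
    funext p
    simp [crd, act2, tup_smul, ← Finset.smul_sum]

lemma lin0_apply (a g : Matrix σ σ R) (w : σ × Mon σ e → R) :
    lin0 a g w = crd e (act2 a g (tup w)) := rfl

lemma tup_lin0 (a g : Matrix σ σ R) (w : σ × Mon σ e → R) :
    tup (lin0 a g w) = act2 a g (tup w) :=
  tup_crd (act2_isHomogeneous a g (tup_isHomogeneous w))

lemma lin0_lin0 (a g a' g' : Matrix σ σ R) (w : σ × Mon σ e → R) :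
    lin0 a' g' (lin0 a g w) = lin0 (a * a') (g * g') w := by
  rw [lin0_apply, tup_lin0, act2_act2, lin0_apply]

@[simp] lemma lin0_one (w : σ × Mon σ e → R) : lin0 1 1 w = w := by
  rw [lin0_apply, act2_one, crd_tup]

lemma map_lin0 (φ : R →+* S) (a g : Matrix σ σ R) (w : σ × Mon σ e → R) :
    (fun p => φ (lin0 a g w p)) = lin0 (a.map φ) (g.map φ) (fun p => φ (w p)) := by
  rw [lin0_apply, map_crd, lin0_apply]
  congr 1
  funext j
  rw [map_act2]
  congr 1
  funext i
  exact map_tup φ w i

lemma lin0_diagonal (t u : σ → R) (w : σ × Mon σ e → R) (p : σ × Mon σ e) :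
    lin0 (diagonal t) (diagonal u) w p = t p.1 * (∏ j, u j ^ p.2.1 j) * w p := by
  rw [lin0_apply, crd, act2_diagonal, coeff_C_mul, coeff_sub_diagonal, mul_assoc]
  congr 2
  exact coeff_frm (fun β => w (p.1, β)) p.2

variable (σ e) in
/-- the representation of the product of two general linear groups on tuples of forms -/
noncomputable def rep0 : Rep Bool σ (σ × Mon σ e) :=
  Rep.ofLin (fun _ _ _ γ => lin0 (γ false).val (γ true).val)
    (fun _ _ _ w => lin0_one w) (fun _ _ _ _ _ w => (lin0_lin0 _ _ _ _ w).symm)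
    (fun {R S} _ _ _ _ φ γ w => map_lin0 (φ : R →+* S) (γ false).val (γ true).val w)

lemma pt_rep0 [Algebra ℂ R] (w : σ × Mon σ e → R) (γ : Gr Bool σ R) :
    (rep0 σ e).pt w γ = lin0 (γ false).val (γ true).val w := by
  rw [rep0, Rep.pt_ofLin]

/-- the element of the product group with given components -/
def pairG (a g : GL σ R) : Gr Bool σ R := fun b => cond b g a

@[simp] lemma pairG_false (a g : GL σ R) : pairG a g false = a := rfl
@[simp] lemma pairG_true (a g : GL σ R) : pairG a g true = g := rfl

lemma pairG_mul (a g a' g' : GL σ R) : pairG a g * pairG a' g' = pairG (a * a') (g * g') := by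
  funext b; cases b <;> rfl

lemma pairG_eta (γ : Gr Bool σ R) : pairG (γ false) (γ true) = γ := by
  funext b; cases b <;> rfl

end Pool.Agent.P.MP_f4e0a3_ag
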