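import Mathlib
import Pool.Agent.P.MP_f4e0a3_ag.Forms

/-!
The centre of a smooth form is a diagonalisable commutative algebra.
-/

open MvPolynomial Matrix

set_option linter.unusedSectionVars false

namespace Pool.Agent.P.MP_f4e0a3_ag

variable {σ : Type} [Fintype σ] [DecidableEq σ] {e : ℕ}

lemma exists_GL_of_span (S : Set (σ → ℂ)) (hS : ⊤ ≤ Submodule.span ℂ S) :
    ∃ g : GL σ ℂ, ∀ j, g.val *ᵥ Pi.single j 1 ∈ S := by
  let b := Module.Basis.ofSpan hS
  let b' : Module.Basis σ ℂ (σ → ℂ) := b.reindex (b.indexEquiv (Pi.basisFun ℂ σ))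
  have hb' : ∀ j, b' j ∈ S := by
    intro j
    apply Module.Basis.ofSpan_subset hS
    rw [Module.Basis.reindex_apply]
    exact ⟨_, rfl⟩
  have := (Pi.basisFun ℂ σ).invertibleToMatrix b'
  refine ⟨unitOfInvertible ((Pi.basisFun ℂ σ).toMatrix b'), fun j => ?_⟩
  have h : (Pi.basisFun ℂ σ).toMatrix b' *ᵥ Pi.single j 1 = b' j := by
    funext i
    simp [Module.Basis.toMatrix_apply]
  rw [val_unitOfInvertible, h]
  exact hb' j

lemma pderiv_comm {R : Type} [CommRing R] (i j : σ) (p : MvPolynomial σ R) :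
    pderiv i (pderiv j p) = pderiv j (pderiv i p) := by
  ext α
  simp only [coeff_pderiv]
  rw [add_right_comm]
  by_cases h : i = j
  · rw [h]
  · simp [Finsupp.single_eq_of_ne h, Finsupp.single_eq_of_ne' h]
    ring

/-- directional derivative -/
noncomputable def dd (y : σ → ℂ) : MvPolynomial σ ℂ →ₗ[ℂ] MvPolynomial σ ℂ :=
  ∑ i, y i • (pderiv i : Derivation ℂ (MvPolynomial σ ℂ) (MvPolynomial σ ℂ)).toLinearMap

lemma dd_apply (y : σ → ℂ) (p : MvPolynomial σ ℂ) : dd y p = ∑ i, y i • pderiv i p := by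
  simp [dd]

lemma dd_single (i : σ) (p : MvPolynomial σ ℂ) : dd (Pi.single i 1) p = pderiv i p := by
  rw [dd_apply, Finset.sum_eq_single i]
  · simp
  · intro j _ hj
    simp [hj]
  · simp

lemma dd_sub (y z : σ → ℂ) (p : MvPolynomial σ ℂ) : dd (y - z) p = dd y p - dd z p := by
  simp [dd_apply, sub_smul]

lemma dd_smul (c : ℂ) (y : σ → ℂ) (p : MvPolynomial σ ℂ) : dd (c • y) p = c • dd y p := by
  simp [dd_apply, Finset.smul_sum, mul_smul]

@[simp] lemma dd_zero (p : MvPolynomial σ ℂ) : dd 0 p = 0 := by simp [dd_apply]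

lemma pderiv_dd (i : σ) (y : σ → ℂ) (p : MvPolynomial σ ℂ) :
    pderiv i (dd y p) = dd y (pderiv i p) := by
  simp [dd_apply, pderiv_comm i]

lemma dd_comm (y z : σ → ℂ) (p : MvPolynomial σ ℂ) : dd y (dd z p) = dd z (dd y p) := by
  rw [dd_apply y, dd_apply y, map_sum]
  simp [pderiv_dd]

lemma dd_isHomogeneous (y : σ → ℂ) {p : MvPolynomial σ ℂ} {m : ℕ} (hp : p.IsHomogeneous (m + 1)) :
    (dd y p).IsHomogeneous m := by
  rw [dd_apply]
  refine IsHomogeneous.sum _ _ _ fun i _ => ?_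
  rw [smul_eq_C_mul]
  simpa using (hp.pderiv (i := i)).C_mul (y i)

lemma eval_dd (y : σ → ℂ) {p : MvPolynomial σ ℂ} {m : ℕ} (hp : p.IsHomogeneous m) :
    eval y (dd y p) = m * eval y p := by
  have := congrArg (eval y) hp.sum_X_mul_pderiv
  simpa [dd_apply] using this

lemma eq_zero_of_dd {p : MvPolynomial σ ℂ} {m : ℕ} (hp : p.IsHomogeneous (m + 1))
    (h : ∀ y, dd y p = 0) : p = 0 := by
  have h1 := hp.sum_X_mul_pderiv
  simp only [← dd_single, h, mul_zero, Finset.sum_const_zero] at h1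
  rw [← Nat.cast_smul_eq_nsmul ℂ] at h1
  exact (smul_eq_zero.1 h1.symm).resolve_left (Nat.cast_ne_zero.2 (Nat.succ_ne_zero m))

lemma dd_sub_eq (y : σ → ℂ) (g : Matrix σ σ ℂ) (p : MvPolynomial σ ℂ) :
    dd y (sub g p) = sub g (dd (g *ᵥ y) p) := by
  simp only [dd_apply, pderiv_sub, map_sum, map_smul, mulVec, dotProduct, Finset.sum_smul,
    Finset.smul_sum]
  rw [Finset.sum_comm]
  refine Finset.sum_congr rfl fun i _ => Finset.sum_congr rfl fun j _ => ?_
  rw [← smul_eq_C_mul, smul_smul, mul_comm]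

/-- the centre of a form -/
def Cen (f : MvPolynomial σ ℂ) : Set (Matrix σ σ ℂ) :=
  {N | ∀ y z, dd (N *ᵥ y) (dd z f) = dd y (dd (N *ᵥ z) f)}

lemma mem_cen_of_grad {f f' : MvPolynomial σ ℂ} {a : Matrix σ σ ℂ}
    (h : act2 a 1 (grad f) = grad f') : a ∈ Cen f := by
  have h1 : ∀ y, dd (a *ᵥ y) f = dd y f' := by
    intro y
    have h2 : ∀ j, pderiv j f' = ∑ i, C (a i j) * pderiv i f := fun j => by
      have := congrFun h j
      simp only [act2, sub_one, grad] at this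
      exact this.symm
    simp only [dd_apply, h2, mulVec, dotProduct, Finset.sum_smul, Finset.smul_sum]
    rw [Finset.sum_comm]
    refine Finset.sum_congr rfl fun i _ => Finset.sum_congr rfl fun j _ => ?_
    rw [← smul_eq_C_mul, smul_smul, mul_comm]
  intro y z
  rw [dd_comm, h1, h1, dd_comm]

lemma cen_conj {f : MvPolynomial σ ℂ} (g : GL σ ℂ) {N : Matrix σ σ ℂ}
    (hN : N ∈ Cen (sub g.val f)) : g.val * N * (g⁻¹).val ∈ Cen f := by
  intro y z
  have h := hN ((g⁻¹).val *ᵥ y) ((g⁻¹).val *ᵥ z)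
  simp only [dd_sub_eq, mulVec_mulVec, Units.mul_inv, one_mulVec, ← Matrix.mul_assoc] at h
  have h2 := congrArg (sub (g⁻¹).val) h
  simpa only [sub_sub, Units.mul_inv, sub_one] using h2

lemma cen_sub_smul {f : MvPolynomial σ ℂ} {N : Matrix σ σ ℂ} (hN : N ∈ Cen f) (c : ℂ) :
    N - c • 1 ∈ Cen f := by
  intro y z
  simp only [sub_mulVec, smul_mulVec, one_mulVec, dd_sub, dd_smul, map_sub, map_smul, hN y z]

section Smooth

variable [Fact (2 ≤ e)] {f : MvPolynomial σ ℂ} (hf : f.IsHomogeneous (e + 1))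
  (hs : ∀ x : σ → ℂ, (∀ i, eval x (pderiv i f) = 0) → x = 0)

include hf hs

lemma eq_zero_of_dd_dd {y : σ → ℂ} (h : dd y (dd y f) = 0) : y = 0 := by
  obtain ⟨m, rfl⟩ : ∃ m, e = m + 2 := ⟨e - 2, by have : 2 ≤ e := Fact.out; omega⟩
  apply hs
  intro i
  have h1 : (pderiv i f).IsHomogeneous (m + 2) := by simpa using hf.pderiv (i := i)
  have h2 := congrArg (fun p => eval y (pderiv i p)) h
  simp only [pderiv_dd, map_zero] at h2
  rw [eval_dd y (dd_isHomogeneous y h1), eval_dd y h1] at h2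
  simp only [mul_eq_zero, Nat.cast_eq_zero] at h2
  rcases h2 with h2 | h2 | h2
  · omega
  · omega
  · exact h2

lemma cen_comm {N N' : Matrix σ σ ℂ} (hN : N ∈ Cen f) (hN' : N' ∈ Cen f) : N * N' = N' * N := by
  obtain ⟨m, rfl⟩ : ∃ m, e = m + 2 := ⟨e - 2, by have : 2 ≤ e := Fact.out; omega⟩
  have key : ∀ x, (N * N') *ᵥ x - (N' * N) *ᵥ x = 0 := by
    intro x
    apply eq_zero_of_dd_dd hf hs
    suffices h : dd ((N * N') *ᵥ x - (N' * N) *ᵥ x) f = 0 by rw [h, map_zero]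
    refine eq_zero_of_dd (dd_isHomogeneous _ hf) fun z => ?_
    refine eq_zero_of_dd (dd_isHomogeneous _ (dd_isHomogeneous _ hf)) fun y => ?_
    rw [dd_sub, map_sub, map_sub, sub_eq_zero, ← mulVec_mulVec, ← mulVec_mulVec, ← hN,
      dd_comm y, ← hN', dd_comm _ (N' *ᵥ y), hN, dd_comm _ z, hN', dd_comm z]
  ext i j
  have := congrFun (key (Pi.single j 1)) i
  simpa [sub_eq_zero] using this

lemma cen_eigen {N : Matrix σ σ ℂ} (hN : N ∈ Cen f) (k : ℕ) (v : σ → ℂ) (h : (N ^ k) *ᵥ v = 0) :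
    N *ᵥ v = 0 := by
  induction k with
  | zero => simp at h; simp [h]
  | succ k ih =>
    cases k with
    | zero => simpa using h
    | succ k =>
      apply ih
      apply eq_zero_of_dd_dd hf hs
      have h1 := hN ((N ^ k) *ᵥ v) ((N ^ (k + 1)) *ᵥ v)
      rw [mulVec_mulVec, mulVec_mulVec, ← pow_succ', ← pow_succ', h, dd_zero, map_zero] at h1
      exact h1

lemma exists_diag : ∃ g : GL σ ℂ, ∀ N ∈ Cen (sub g.val f), N.IsDiag := by
  let F : Cen f → Module.End ℂ (σ → ℂ) := fun N => Matrix.toLin' N.1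
  have h1 := Module.End.iSup_iInf_maxGenEigenspace_eq_top_of_iSup_maxGenEigenspace_eq_top_of_commute
    F (fun N N' _ => by
      show F N * F N' = F N' * F N
      simp only [F, Module.End.mul_eq_comp, ← Matrix.toLin'_mul, cen_comm hf hs N.2 N'.2])
    (fun N => Module.End.iSup_maxGenEigenspace_eq_top _)
  obtain ⟨g, hg⟩ := exists_GL_of_span {v | ∀ N ∈ Cen f, ∃ c : ℂ, N *ᵥ v = c • v} (by
    rw [← h1]
    refine iSup_le fun χ v hv => Submodule.subset_span fun N hN => ⟨χ ⟨N, hN⟩, ?_⟩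
    obtain ⟨k, hk⟩ := (Module.End.mem_maxGenEigenspace _ _ _).1 ((Submodule.mem_iInf _).1 hv ⟨N, hN⟩)
    have h2 := cen_eigen hf hs (cen_sub_smul hN (χ ⟨N, hN⟩)) k v (by
      rw [← Matrix.toLin'_apply, Matrix.toLin'_pow, map_sub, map_smul, Matrix.toLin'_one]
      exact hk)
    rwa [sub_mulVec, smul_mulVec, one_mulVec, sub_eq_zero] at h2)
  refine ⟨g, fun N hN i j hij => ?_⟩
  obtain ⟨c, hc⟩ := hg j _ (cen_conj g hN)
  have h2 := congrArg (fun y => (g⁻¹).val *ᵥ y) hc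
  simp only [mulVec_mulVec, mulVec_smul, Matrix.mul_assoc, Units.inv_mul, Matrix.mul_one,
    Units.inv_mul_cancel_left, one_mulVec] at h2
  have h3 := congrFun h2 i
  simpa [hij] using h3

end Smooth

/-- block decomposition adapted to the centre -/
structure Blocks {κ : Type} (f : MvPolynomial σ ℂ) (b : σ → κ) : Prop where
  cen : ∀ N ∈ Cen f, ∃ c : κ → ℂ, N = diagonal fun i => c (b i)
  sep : ∀ i j, b i ≠ b j → pderiv i (pderiv j f) = 0

lemma exists_blocks_of_diag {f : MvPolynomial σ ℂ} (h : ∀ N ∈ Cen f, N.IsDiag) :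
    ∃ b : σ → σ, Blocks f b := by
  let s : Setoid σ := ⟨fun i j => ∀ N ∈ Cen f, N i i = N j j, fun _ _ _ => rfl,
    fun h N hN => (h N hN).symm, fun h h' N hN => (h N hN).trans (h' N hN)⟩
  refine ⟨fun i => (Quotient.mk s i).out, fun N hN => ⟨fun i => N i i, ?_⟩, fun i j hij => ?_⟩
  · rw [← (h N hN).diagonal_diag]
    congr 1
    funext i
    have h1 : s (Quotient.mk s i).out i := Quotient.mk_out i
    simpa using (h1 N hN).symm
  · have h1 : ¬ s i j := fun h' => hij (by rw [Quotient.sound h'])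
    obtain ⟨N, hN, h2⟩ : ∃ N ∈ Cen f, N i i ≠ N j j := by
      by_contra h3
      push Not at h3
      exact h1 h3
    have h3 := hN (Pi.single i 1) (Pi.single j 1)
    have h4 : ∀ k, N *ᵥ Pi.single k 1 = N k k • Pi.single k 1 := by
      intro k
      funext l
      by_cases hl : l = k
      · simp [hl]
      · simp [hl, h N hN hl]
    rw [h4, h4, dd_smul, dd_smul, map_smul, dd_single, dd_single, ← sub_eq_zero, ← sub_smul] at h3
    exact (smul_eq_zero.1 h3).resolve_left (sub_ne_zero.2 h2)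

theorem exists_blocks [Fact (2 ≤ e)] {f : MvPolynomial σ ℂ} (hf : f.IsHomogeneous (e + 1))
    (hs : ∀ x : σ → ℂ, (∀ i, eval x (pderiv i f) = 0) → x = 0) :
    ∃ (g : GL σ ℂ) (b : σ → σ), Blocks (sub g.val f) b := by
  obtain ⟨g, hg⟩ := exists_diag hf hs
  obtain ⟨b, hb⟩ := exists_blocks_of_diag hg
  exact ⟨g, b, hb⟩

lemma Blocks.eq_of_coeff {κ : Type} {f : MvPolynomial σ ℂ} {b : σ → κ} (hb : Blocks f b)
    {α : σ →₀ ℕ} (h : coeff α f ≠ 0) {i j : σ} (hi : α i ≠ 0) (hj : α j ≠ 0) : b i = b j := by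
  by_contra hij
  have hij' : i ≠ j := fun h' => hij (by rw [h'])
  have h1 : α - Finsupp.single j 1 - Finsupp.single i 1 + Finsupp.single i 1 +
      Finsupp.single j 1 = α := by
    ext k
    simp only [Finsupp.add_apply, Finsupp.tsub_apply, Finsupp.single_apply]
    split_ifs with h1 h2 h2
    · exact absurd (h2.trans h1.symm) hij'
    · subst h1; omega
    · subst h2; omega
    · omega
  have h2 := congrArg (coeff (α - Finsupp.single j 1 - Finsupp.single i 1)) (hb.sep i j hij)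
  rw [coeff_pderiv, coeff_pderiv, h1, coeff_zero] at h2
  simp only [mul_eq_zero] at h2
  rcases h2 with (h2 | h2) | h2
  · exact h h2
  · exact Nat.cast_add_one_ne_zero _ h2
  · exact Nat.cast_add_one_ne_zero _ h2

end Pool.Agent.P.MP_f4e0a3_ag
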