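import Mathlib
import Pool.Agent.P.MP_f4e0a3_ag.Basic

/-!
Field theoretic lemmas: amalgams, birationality, lifting of derivations, valuations.
-/

open scoped TensorProduct IntermediateField DualNumber

namespace Pool.Agent.P.MP_f4e0a3_ag

lemma amalgam {K L₁ L₂ : Type} [Field K] [Field L₁] [Field L₂] (i₁ : K →+* L₁) (i₂ : K →+* L₂) :
    ∃ (Ω : Type) (_ : Field Ω) (j₁ : L₁ →+* Ω) (j₂ : L₂ →+* Ω), ∀ x, j₁ (i₁ x) = j₂ (i₂ x) := by
  let _ : Algebra K L₁ := i₁.toAlgebra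
  let _ : Algebra K L₂ := i₂.toAlgebra
  have : Nontrivial (L₁ ⊗[K] L₂) := inferInstance
  obtain ⟨m, hm⟩ := Ideal.exists_maximal (L₁ ⊗[K] L₂)
  refine ⟨(L₁ ⊗[K] L₂) ⧸ m, Ideal.Quotient.field m,
    (Ideal.Quotient.mk m).comp Algebra.TensorProduct.includeLeftRingHom,
    (Ideal.Quotient.mk m).comp
      (Algebra.TensorProduct.includeRight : L₂ →ₐ[K] L₁ ⊗[K] L₂).toRingHom, fun x => ?_⟩
  have h1 : (i₁ x ⊗ₜ[K] (1 : L₂)) = ((1 : L₁) ⊗ₜ[K] i₂ x) := by
    have h2 : i₁ x = x • (1 : L₁) := by rw [Algebra.smul_def, mul_one]; rfl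
    have h3 : i₂ x = x • (1 : L₂) := by rw [Algebra.smul_def, mul_one]; rfl
    rw [h2, h3, TensorProduct.smul_tmul]
  exact congrArg (Ideal.Quotient.mk m) h1

lemma exists_point_pair {A B Ω : Type} [CommRing A] [Algebra ℂ A] [Algebra.FiniteType ℂ A]
    [CommRing B] [Algebra ℂ B] [Algebra.FiniteType ℂ B] [CommRing Ω] [IsDomain Ω]
    (φ₁ : A →+* Ω) (φ₂ : B →+* Ω)
    (hc : ∀ z : ℂ, φ₁ (algebraMap ℂ A z) = φ₂ (algebraMap ℂ B z)) (a : A) (b : B)
    (h : φ₁ a ≠ φ₂ b) :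
    ∃ (ψ₁ : A →ₐ[ℂ] ℂ) (ψ₂ : B →ₐ[ℂ] ℂ), ψ₁ a ≠ ψ₂ b ∧ ∀ x y, φ₁ x = φ₂ y → ψ₁ x = ψ₂ y := by
  let _ : Algebra ℂ Ω := (φ₁.comp (algebraMap ℂ A)).toAlgebra
  let f₁ : A →ₐ[ℂ] Ω := { φ₁ with commutes' := fun _ => rfl }
  let f₂ : B →ₐ[ℂ] Ω := { φ₂ with commutes' := fun z => (hc z).symm }
  let φ : A ⊗[ℂ] B →ₐ[ℂ] Ω := Algebra.TensorProduct.lift f₁ f₂ (fun _ _ => Commute.all _ _)
  have : Algebra.FiniteType ℂ (A ⊗[ℂ] B) :=
    Algebra.FiniteType.trans (S := A) inferInstance inferInstance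
  have hφ : ∀ x y, φ (x ⊗ₜ 1 - 1 ⊗ₜ y) = φ₁ x - φ₂ y := by
    intro x y
    simp [φ, f₁, f₂]
  obtain ⟨ψ, h1, h2⟩ := exists_point_of_hom (φ : A ⊗[ℂ] B →+* Ω) (a ⊗ₜ 1 - 1 ⊗ₜ b)
    (by rw [RingHom.coe_coe, hφ]; exact sub_ne_zero.2 h)
  refine ⟨ψ.comp Algebra.TensorProduct.includeLeft, ψ.comp Algebra.TensorProduct.includeRight,
    ?_, ?_⟩
  · rw [map_sub] at h2
    exact sub_ne_zero.1 h2
  · intro x y hxy
    have := h1 (x ⊗ₜ 1 - 1 ⊗ₜ y) (by rw [RingHom.coe_coe, hφ]; exact sub_eq_zero.2 hxy)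
    rw [map_sub] at this
    exact sub_eq_zero.1 this

section Frac

variable {R : Type} [CommRing R] (p : Ideal R) [p.IsPrime]

/-- the map to the residue field -/
noncomputable def toFrac : R →+* FractionRing (R ⧸ p) :=
  (algebraMap (R ⧸ p) (FractionRing (R ⧸ p))).comp (Ideal.Quotient.mk p)

lemma exists_fracLift {T : Type} [CommRing T] (φ : R →+* T) (h0 : ∀ x ∈ p, φ x = 0)
    (h1 : ∀ x, x ∉ p → IsUnit (φ x)) :
    ∃ i : FractionRing (R ⧸ p) →+* T, ∀ x, i (toFrac p x) = φ x := by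
  refine ⟨IsLocalization.lift (M := nonZeroDivisors (R ⧸ p)) (g := Ideal.Quotient.lift p φ h0)
    ?_, fun x => ?_⟩
  · rintro ⟨y, hy⟩
    obtain ⟨x, rfl⟩ := Ideal.Quotient.mk_surjective y
    apply h1
    intro hx
    exact nonZeroDivisors.ne_zero hy (Ideal.Quotient.eq_zero_iff_mem.2 hx)
  · simp [toFrac]

lemma exists_toFrac_div (z : FractionRing (R ⧸ p)) :
    ∃ a b : R, b ∉ p ∧ z * toFrac p b = toFrac p a := by
  obtain ⟨x, y, hy, rfl⟩ := IsFractionRing.div_surjective (A := R ⧸ p) z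
  obtain ⟨a, rfl⟩ := Ideal.Quotient.mk_surjective x
  obtain ⟨b, rfl⟩ := Ideal.Quotient.mk_surjective y
  refine ⟨a, b, fun hb => nonZeroDivisors.ne_zero hy (Ideal.Quotient.eq_zero_iff_mem.2 hb), ?_⟩
  apply div_mul_cancel₀
  exact (map_ne_zero_iff _ (IsFractionRing.injective _ _)).2 (nonZeroDivisors.ne_zero hy)

end Frac

variable {R A B : Type} [CommRing R] [Algebra ℂ R]
  [CommRing A] [Algebra ℂ A] [Algebra.FiniteType ℂ A] [IsDomain A]
  [CommRing B] [Algebra ℂ B] [Algebra.FiniteType ℂ B] [IsDomain B]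

omit [Algebra.FiniteType ℂ A] in
lemma exists_fracLift' (φ : R →ₐ[ℂ] A) (p : Ideal R) [p.IsPrime] (h : ∀ x, φ x = 0 ↔ x ∈ p) :
    ∃ i : FractionRing (R ⧸ p) →+* FractionRing A,
      ∀ x, i (toFrac p x) = algebraMap A (FractionRing A) (φ x) := by
  apply exists_fracLift p ((algebraMap A (FractionRing A)).comp φ)
  · intro x hx
    simp [(h x).2 hx]
  · intro x hx
    apply IsUnit.mk0
    exact (map_ne_zero_iff _ (IsFractionRing.injective A _)).2 fun h' => hx ((h x).1 h')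

lemma exists_points_of_ker_eq (φ₁ : R →ₐ[ℂ] A) (φ₂ : R →ₐ[ℂ] B)
    (h : ∀ x, φ₁ x = 0 ↔ φ₂ x = 0) :
    ∃ (ψ₁ : A →ₐ[ℂ] ℂ) (ψ₂ : B →ₐ[ℂ] ℂ), ∀ x, ψ₁ (φ₁ x) = ψ₂ (φ₂ x) := by
  have : (RingHom.ker φ₁).IsPrime := RingHom.ker_isPrime φ₁
  obtain ⟨i₁, h₁⟩ := exists_fracLift' φ₁ (RingHom.ker φ₁) (fun _ => Iff.rfl)
  obtain ⟨i₂, h₂⟩ := exists_fracLift' φ₂ (RingHom.ker φ₁) (fun x => (h x).symm)
  obtain ⟨Ω, _, j₁, j₂, hj⟩ := amalgam i₁ i₂
  have key : ∀ x, j₁ (algebraMap A _ (φ₁ x)) = j₂ (algebraMap B _ (φ₂ x)) := by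
    intro x; rw [← h₁, ← h₂, hj]
  obtain ⟨ψ₁, ψ₂, -, h4⟩ := exists_point_pair (j₁.comp (algebraMap A _)) (j₂.comp (algebraMap B _))
    (fun z => by
      have := key (algebraMap ℂ R z)
      rwa [AlgHom.commutes, AlgHom.commutes] at this) 1 0 (by simp)
  exact ⟨ψ₁, ψ₂, fun x => h4 _ _ (key x)⟩

lemma exists_two_emb {K L : Type} [Field K] [Field L] [CharZero K] (i : K →+* L) (c : L)
    (hc : ∀ x, i x ≠ c) : ∃ (Ω : Type) (_ : Field Ω) (j₁ j₂ : L →+* Ω),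
      (∀ x, j₁ (i x) = j₂ (i x)) ∧ j₁ c ≠ j₂ c := by
  let _ : Algebra K L := i.toAlgebra
  have h1 : ¬ IsPurelyInseparable K K⟮c⟯ := by
    intro h
    have : Algebra.IsSeparable K K⟮c⟯ := Algebra.IsAlgebraic.isSeparable_of_perfectField
    have h2 := IntermediateField.eq_bot_of_isPurelyInseparable_of_isSeparable K⟮c⟯
    have h3 := IntermediateField.mem_adjoin_simple_self K c
    rw [h2, IntermediateField.mem_bot] at h3
    obtain ⟨x, hx⟩ := h3
    exact hc x hx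
  rw [isPurelyInseparable_iff_subsingleton_emb, not_subsingleton_iff_nontrivial] at h1
  obtain ⟨τ₁, τ₂, hne⟩ := h1
  have h2 : τ₁ (IntermediateField.AdjoinSimple.gen K c) ≠
      τ₂ (IntermediateField.AdjoinSimple.gen K c) := by
    intro h
    apply hne
    apply IntermediateField.adjoin_algHom_ext
    rintro x rfl
    exact h
  obtain ⟨Ω₁, _, j₁, k₁, h₁⟩ := amalgam (algebraMap K⟮c⟯ L) τ₁.toRingHom
  obtain ⟨Ω₂, _, j₂, k₂, h₂⟩ := amalgam (algebraMap K⟮c⟯ L) (k₁.comp τ₂.toRingHom)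
  refine ⟨Ω₂, inferInstance, k₂.comp j₁, j₂, fun x => ?_, ?_⟩
  · have e1 := h₁ (algebraMap K K⟮c⟯ x)
    have e2 := h₂ (algebraMap K K⟮c⟯ x)
    have e3 : algebraMap K⟮c⟯ L (algebraMap K K⟮c⟯ x) = i x := rfl
    rw [e3] at e1 e2
    rw [RingHom.comp_apply, e1, e2]
    simp
  · have e1 := h₁ (IntermediateField.AdjoinSimple.gen K c)
    have e2 := h₂ (IntermediateField.AdjoinSimple.gen K c)
    rw [IntermediateField.AdjoinSimple.algebraMap_gen] at e1 e2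
    rw [RingHom.comp_apply, e1, e2]
    intro h
    exact h2 (k₁.injective (k₂.injective h))

lemma birational (φ : R →ₐ[ℂ] A) (c : A)
    (h : ∀ ψ₁ ψ₂ : A →ₐ[ℂ] ℂ, (∀ x, ψ₁ (φ x) = ψ₂ (φ x)) → ψ₁ c = ψ₂ c) :
    ∃ a b : R, φ b ≠ 0 ∧ φ b * c = φ a := by
  have : (RingHom.ker φ).IsPrime := RingHom.ker_isPrime φ
  obtain ⟨i, hi⟩ := exists_fracLift' φ (RingHom.ker φ) (fun _ => Iff.rfl)
  have : CharZero (FractionRing (R ⧸ RingHom.ker φ)) :=
    charZero_of_injective_algebraMap (algebraMap ℂ _).injective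
  by_cases hc : ∃ x, i x = algebraMap A _ c
  · obtain ⟨x, hx⟩ := hc
    obtain ⟨a, b, hb, hab⟩ := exists_toFrac_div _ x
    refine ⟨a, b, hb, ?_⟩
    apply IsFractionRing.injective A (FractionRing A)
    rw [map_mul, ← hi, ← hi, ← hx, ← hab, map_mul, mul_comm]
  · push Not at hc
    obtain ⟨Ω, _, j₁, j₂, h1, h2⟩ := exists_two_emb i _ hc
    have key : ∀ x, j₁ (algebraMap A _ (φ x)) = j₂ (algebraMap A _ (φ x)) := by
      intro x; rw [← hi, h1]
    obtain ⟨ψ₁, ψ₂, h3, h4⟩ := exists_point_pair (j₁.comp (algebraMap A _))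
      (j₂.comp (algebraMap A _)) (fun z => by
        have := key (algebraMap ℂ R z)
        rwa [AlgHom.commutes] at this) c c h2
    exact absurd (h ψ₁ ψ₂ fun x => h4 _ _ (key x)) h3

/-- a copy of the dual numbers without its algebra structures -/
def Tw (L : Type) [CommRing L] : Type := L[ε]

noncomputable instance (L : Type) [CommRing L] : CommRing (Tw L) :=
  inferInstanceAs (CommRing L[ε])

lemma exists_dual_lift_field {K L : Type} [Field K] [Field L] [CharZero K] [Algebra K L]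
    [Algebra.EssFiniteType K L] (θ : K →+* L[ε]) (hθ : ∀ x, (θ x).fst = algebraMap K L x) :
    ∃ θ' : L →+* L[ε], (∀ x, (θ' x).fst = x) ∧ ∀ x, θ' (algebraMap K L x) = θ x := by
  let θ₀ : K →+* Tw L := θ
  let _ : Algebra K (Tw L) := θ₀.toAlgebra
  let g₀ : Tw L →+* L := (TrivSqZeroExt.fstHom L L L).toRingHom
  let g : Tw L →ₐ[K] L := { g₀ with commutes' := hθ }
  have hg : Function.Surjective g := fun x => ⟨(TrivSqZeroExt.inl x : L[ε]), rfl⟩
  have hg' : IsNilpotent (RingHom.ker (g : Tw L →+* L)) := by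
    refine ⟨2, ?_⟩
    rw [pow_two, Ideal.zero_eq_bot, eq_bot_iff, Ideal.mul_le]
    intro a ha b hb
    have ha' : TrivSqZeroExt.fst (R := L) (M := L) a = 0 := ha
    have hb' : TrivSqZeroExt.fst (R := L) (M := L) b = 0 := hb
    have : ∀ a b : L[ε], a.fst = 0 → b.fst = 0 → a * b = 0 := by
      intro a b h1 h2
      ext <;> simp [h1, h2]
    exact this a b ha' hb'
  let f := Algebra.FormallySmooth.liftOfSurjective (AlgHom.id K L) g hg hg'
  exact ⟨f.toRingHom, fun x => Algebra.FormallySmooth.liftOfSurjective_apply _ g hg hg' x,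
    fun x => f.commutes x⟩

lemma exists_dual_lift (φ : R →ₐ[ℂ] A) (θ : R →ₐ[ℂ] (FractionRing A)[ε])
    (h1 : ∀ x, (θ x).fst = algebraMap A _ (φ x)) (h2 : ∀ x, φ x = 0 → θ x = 0) :
    ∃ θ' : A →ₐ[ℂ] (FractionRing A)[ε], (∀ x, (θ' x).fst = algebraMap A _ x) ∧
      ∀ x, θ' (φ x) = θ x := by
  have : (RingHom.ker φ).IsPrime := RingHom.ker_isPrime φ
  obtain ⟨i, hi⟩ := exists_fracLift' φ (RingHom.ker φ) (fun _ => Iff.rfl)
  obtain ⟨θK, hθK⟩ := exists_fracLift (RingHom.ker φ) (θ : R →+* (FractionRing A)[ε]) h2 (by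
    intro x hx
    rw [TrivSqZeroExt.isUnit_iff_isUnit_fst]
    apply IsUnit.mk0
    rw [RingHom.coe_coe, h1]
    exact (map_ne_zero_iff _ (IsFractionRing.injective A _)).2 hx)
  have : CharZero (FractionRing (R ⧸ RingHom.ker φ)) :=
    charZero_of_injective_algebraMap (algebraMap ℂ _).injective
  let _ : Algebra (FractionRing (R ⧸ RingHom.ker φ)) (FractionRing A) := i.toAlgebra
  have hc : ∀ z : ℂ, algebraMap ℂ (FractionRing (R ⧸ RingHom.ker φ)) z =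
      toFrac _ (algebraMap ℂ R z) := fun z => rfl
  have : IsScalarTower ℂ (FractionRing (R ⧸ RingHom.ker φ)) (FractionRing A) :=
    IsScalarTower.of_algebraMap_eq fun z => by
      rw [hc]
      show _ = i _
      rw [hi, AlgHom.commutes]; rfl
  have : Algebra.EssFiniteType A (FractionRing A) :=
    Algebra.EssFiniteType.of_isLocalization _ (nonZeroDivisors A)
  have : Algebra.EssFiniteType ℂ (FractionRing A) := Algebra.EssFiniteType.comp ℂ A _
  have : Algebra.EssFiniteType (FractionRing (R ⧸ RingHom.ker φ)) (FractionRing A) :=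
    Algebra.EssFiniteType.of_comp ℂ _ _
  obtain ⟨θ', h3, h4⟩ := exists_dual_lift_field θK (by
    intro x
    obtain ⟨a, b, hb, hab⟩ := exists_toFrac_div _ x
    have hb' : algebraMap A (FractionRing A) (φ b) ≠ 0 :=
      (map_ne_zero_iff _ (IsFractionRing.injective A _)).2 hb
    apply mul_right_cancel₀ hb'
    have e1 := congrArg (fun y => (θK y).fst) hab
    have e2 := congrArg i hab
    simp only [map_mul, TrivSqZeroExt.fst_mul, hθK, hi, RingHom.coe_coe, h1] at e1 e2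
    exact e1.trans e2.symm)
  have h5 : ∀ x, θ' (algebraMap A _ (φ x)) = θ x := by
    intro x
    rw [← hi]
    exact (h4 _).trans (hθK x)
  refine ⟨{ θ'.comp (algebraMap A _) with commutes' := fun z => ?_ }, fun x => h3 _, h5⟩
  have := h5 (algebraMap ℂ R z)
  rw [AlgHom.commutes, AlgHom.commutes] at this
  exact this

lemma exists_valuation {T Ω : Type} [CommRing T] [Field Ω] (φ : T →+* Ω) (I : Ideal T)
    (hI : ∀ x ∈ I, φ x ≠ 1) :
    ∃ O : ValuationSubring Ω, (∀ x, φ x ∈ O) ∧ ∀ x ∈ I, O.valuation (φ x) < 1 := by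
  have h1 : I.map φ.rangeRestrict ≠ ⊤ := by
    intro h
    have h2 : (1 : φ.range) ∈ I.map φ.rangeRestrict := h ▸ Submodule.mem_top
    obtain ⟨x, hx, hx1⟩ := (Ideal.mem_map_iff_of_surjective _ φ.rangeRestrict_surjective).1 h2
    exact hI x hx (congrArg Subtype.val hx1)
  obtain ⟨O, h2, h3⟩ := Ideal.image_subset_nonunits_valuationSubring _ h1
  refine ⟨O, fun x => h2 ⟨x, rfl⟩, fun x hx => ?_⟩
  exact O.mem_nonunits_iff.1 (h3 ⟨_, Ideal.mem_map_of_mem _ hx, rfl⟩)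

end Pool.Agent.P.MP_f4e0a3_ag
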