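import Mathlib
import Pool.Agent.P.MP_f4e0a3_ag.Basic

/-!
The Reynolds operator of a product of general linear groups, by averaging over the product of
unitary groups.
-/

open MvPolynomial Matrix MeasureTheory

set_option linter.unusedSectionVars false

namespace Pool.Agent.P.MP_f4e0a3_ag

variable {τ σ : Type} [Fintype σ] [DecidableEq σ]

instance : CompactSpace (unitaryGroup σ ℂ) := by
  have h : IsCompact (unitaryGroup σ ℂ : Set (Matrix σ σ ℂ)) := by
    have h1 : IsCompact (Set.pi Set.univ fun _ : σ => Set.pi Set.univ fun _ : σ =>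
        Metric.closedBall (0 : ℂ) 1) :=
      isCompact_univ_pi fun _ => isCompact_univ_pi fun _ => isCompact_closedBall _ _
    refine IsCompact.of_isClosed_subset (s := (Set.pi Set.univ fun _ : σ =>
      Set.pi Set.univ fun _ : σ => Metric.closedBall (0 : ℂ) 1 : Set (Matrix σ σ ℂ))) h1
      (isClosed_unitary (R := Matrix σ σ ℂ)) ?_
    intro U hU i _ j _
    simpa using entry_norm_bound_of_unitary hU i j
  exact isCompact_iff_compactSpace.1 h

lemma svd (g : Matrix σ σ ℂ) (hg : g.det ≠ 0) :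
    ∃ (k₁ k₂ : unitaryGroup σ ℂ) (z : σ → ℂ), g = k₁ * diagonal z * k₂ := by
  have hA : (gᴴ * g).IsHermitian := isHermitian_conjTranspose_mul_self g
  set U := hA.eigenvectorUnitary with hU
  set l := hA.eigenvalues with hl
  have hl0 : ∀ i, 0 ≤ l i := fun i => eigenvalues_conjTranspose_mul_self_nonneg g i
  have hl1 : ∀ i, l i ≠ 0 := by
    intro i hi
    have h1 := hA.det_eq_prod_eigenvalues
    rw [det_mul, det_conjTranspose, Finset.prod_eq_zero (Finset.mem_univ i) (by
      rw [← hl, hi]; simp)] at h1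
    simp [hg] at h1
  have hs : ∀ i, ((Real.sqrt (l i) : ℝ) : ℂ) ≠ 0 := by
    intro i
    have : 0 < Real.sqrt (l i) := Real.sqrt_pos.2 (lt_of_le_of_ne (hl0 i) (hl1 i).symm)
    exact_mod_cast this.ne'
  have hsp : star (U : Matrix σ σ ℂ) * (gᴴ * g) * U = diagonal (fun i => (l i : ℂ)) := by
    have := hA.conjStarAlgAut_star_eigenvectorUnitary
    rw [Unitary.conjStarAlgAut_apply] at this
    simp only [Unitary.coe_star, star_star] at this
    exact this
  let D' : Matrix σ σ ℂ := diagonal fun i => ((Real.sqrt (l i) : ℝ) : ℂ)⁻¹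
  have hD' : star D' = D' := by
    simp [D', star_eq_conjTranspose, diagonal_conjTranspose]
  have hk : g * U * D' ∈ unitaryGroup σ ℂ := by
    rw [mem_unitaryGroup_iff']
    have : star (g * U * D') * (g * U * D') =
        D' * (star (U : Matrix σ σ ℂ) * (gᴴ * g) * U) * D' := by
      rw [star_mul, star_mul, hD', star_eq_conjTranspose g]
      simp only [Matrix.mul_assoc]
    rw [this, hsp, diagonal_mul_diagonal, diagonal_mul_diagonal, ← diagonal_one]
    congr 1
    funext i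
    have h2 : (l i : ℂ) = ((Real.sqrt (l i) : ℝ) : ℂ) * ((Real.sqrt (l i) : ℝ) : ℂ) := by
      rw [← Complex.ofReal_mul, Real.mul_self_sqrt (hl0 i)]
    rw [h2]
    field_simp [hs i]
  refine ⟨⟨_, hk⟩, star U, fun i => ((Real.sqrt (l i) : ℝ) : ℂ), ?_⟩
  have h3 : D' * diagonal (fun i => ((Real.sqrt (l i) : ℝ) : ℂ)) = 1 := by
    rw [diagonal_mul_diagonal, ← diagonal_one]
    congr 1
    funext i
    exact inv_mul_cancel₀ (hs i)
  have h4 : (U : Matrix σ σ ℂ) * star (U : Matrix σ σ ℂ) = 1 := Unitary.coe_mul_star_self U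
  calc g = g * ((U : Matrix σ σ ℂ) * 1 * star (U : Matrix σ σ ℂ)) := by simp [h4]
    _ = _ := by
      rw [← h3]
      simp only [Matrix.mul_assoc, Unitary.coe_star]

variable (τ σ) in
/-- the maximal compact subgroup -/
abbrev KG : Type := τ → unitaryGroup σ ℂ

/-- inclusion of the compact subgroup -/
def coeK : KG τ σ →* Gr τ σ ℂ where
  toFun k t := Unitary.toUnits (k t)
  map_one' := by funext t; simp
  map_mul' a b := by funext t; simp

lemma coeK_val (k : KG τ σ) (t : τ) :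
    ((coeK k t : GL σ ℂ) : Matrix σ σ ℂ) = (k t : Matrix σ σ ℂ) := rfl

lemma infinite_circle : Set.Infinite {z : ℂ | ‖z‖ = 1} := by
  have h : Set.InjOn (fun x : ℝ => Complex.exp (x * Complex.I)) (Set.Ioo 0 1) := by
    intro x hx y hy hxy
    have h1 := congrArg Complex.re hxy
    simp only [Complex.exp_ofReal_mul_I_re] at h1
    have hpi := Real.pi_gt_three
    exact Real.injOn_cos ⟨hx.1.le, by linarith [hx.2]⟩ ⟨hy.1.le, by linarith [hy.2]⟩ h1
  refine ((Set.Ioo_infinite (zero_lt_one' ℝ)).image h).mono ?_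
  rintro _ ⟨x, -, rfl⟩
  exact Complex.norm_exp_ofReal_mul_I x

variable [Fintype τ]

lemma poly_eq_zero_of_unitary (p : MvPolynomial (τ × σ × σ) ℂ)
    (h : ∀ k : KG τ σ, aeval (fun q : τ × σ × σ => (k q.1 : Matrix σ σ ℂ) q.2.1 q.2.2) p = 0)
    (γ : Gr τ σ ℂ) :
    aeval (fun q : τ × σ × σ => (γ q.1 : Matrix σ σ ℂ) q.2.1 q.2.2) p = 0 := by
  choose k₁ k₂ z hz using fun t => svd (γ t : Matrix σ σ ℂ) (γ t).det_ne_zero
  let M : τ → Matrix σ σ (MvPolynomial (τ × σ) ℂ) := fun t =>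
    (k₁ t : Matrix σ σ ℂ).map C * diagonal (fun i => X (t, i)) * (k₂ t : Matrix σ σ ℂ).map C
  let q : MvPolynomial (τ × σ) ℂ := aeval (fun q : τ × σ × σ => M q.1 q.2.1 q.2.2) p
  have hq : ∀ y : τ × σ → ℂ, aeval y q = aeval (fun q : τ × σ × σ =>
      ((k₁ q.1 : Matrix σ σ ℂ) * diagonal (fun i => y (q.1, i)) * (k₂ q.1 : Matrix σ σ ℂ))
        q.2.1 q.2.2) p := by
    intro y
    rw [← AlgHom.comp_apply, comp_aeval]
    congr 2
    funext q
    simp [M, Matrix.mul_apply, diagonal_apply, apply_ite]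
  have hq0 : q = 0 := by
    apply MvPolynomial.funext_set (fun _ => {z : ℂ | ‖z‖ = 1}) (fun _ => infinite_circle)
    intro y hy
    have hd : ∀ t, diagonal (fun i => y (t, i)) ∈ unitaryGroup σ ℂ := by
      intro t
      rw [mem_unitaryGroup_iff, star_eq_conjTranspose, diagonal_conjTranspose,
        diagonal_mul_diagonal, ← diagonal_one]
      congr 1
      funext i
      have h1 : ‖y (t, i)‖ = 1 := hy (t, i) (Set.mem_univ _)
      simp [Complex.mul_conj, Complex.normSq_eq_norm_sq, h1]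
    have h2 := h (fun t => k₁ t * ⟨_, hd t⟩ * k₂ t)
    have h3 := hq y
    rw [map_zero]
    exact h3.trans h2
  have h4 := hq (fun q => z q.1 q.2)
  rw [hq0, map_zero] at h4
  rw [h4]
  congr 2
  funext q
  rw [hz q.1]

lemma CG_eq_zero_of_unitary (c : CG τ σ ℂ) (h : ∀ k : KG τ σ, evG ℂ (coeK k) c = 0) : c = 0 := by
  obtain ⟨m, p, hp⟩ := IsLocalization.Away.surj (detProd τ σ ℂ) c
  have h1 : algebraMap _ (CG τ σ ℂ) p = 0 := by
    apply CG_eq_zero
    intro γ
    rw [evG_algebraMap]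
    apply poly_eq_zero_of_unitary
    intro k
    have := congrArg (evG ℂ (coeK k)) hp
    rw [map_mul, h, zero_mul, evG_algebraMap] at this
    exact this.symm
  rw [h1] at hp
  exact ((IsLocalization.Away.algebraMap_isUnit (S := CG τ σ ℂ)
    (detProd τ σ ℂ)).pow m).mul_left_eq_zero.1 hp

lemma continuous_evG (c : CG τ σ ℂ) : Continuous fun k : KG τ σ => evG ℂ (coeK k) c := by
  obtain ⟨m, p, hp⟩ := IsLocalization.Away.surj (detProd τ σ ℂ) c
  have hc : ∀ p : MvPolynomial (τ × σ × σ) ℂ, Continuous fun k : KG τ σ =>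
      evG ℂ (coeK k) (algebraMap _ _ p) := by
    intro p
    simp only [evG_algebraMap]
    have h1 : Continuous fun k : KG τ σ => fun q : τ × σ × σ =>
        (k q.1 : Matrix σ σ ℂ) q.2.1 q.2.2 := by
      refine continuous_pi fun q => ?_
      exact (continuous_subtype_val.comp (continuous_apply q.1)).matrix_elem q.2.1 q.2.2
    exact (MvPolynomial.continuous_eval p).comp h1
  have hne : ∀ k : KG τ σ, evG ℂ (coeK k) (algebraMap _ _ (detProd τ σ ℂ)) ^ m ≠ 0 := fun k =>
    (((IsLocalization.Away.algebraMap_isUnit (S := CG τ σ ℂ)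
      (detProd τ σ ℂ)).map (evG ℂ (coeK k))).pow m).ne_zero
  have : (fun k : KG τ σ => evG ℂ (coeK k) c) = fun k => evG ℂ (coeK k) (algebraMap _ _ p) /
      evG ℂ (coeK k) (algebraMap _ _ (detProd τ σ ℂ)) ^ m := by
    funext k
    rw [eq_div_iff (hne k), ← hp, map_mul, map_pow]
  rw [this]
  exact (hc p).div ((hc _).pow m) hne

noncomputable instance : MeasurableSpace (KG τ σ) := borel _
instance : BorelSpace (KG τ σ) := ⟨rfl⟩

variable (τ σ) in
/-- Haar probability measure -/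
noncomputable def haarK : Measure (KG τ σ) := Measure.haarMeasure ⊤

instance : (haarK τ σ).IsMulLeftInvariant := by unfold haarK; infer_instance

instance : IsProbabilityMeasure (haarK τ σ) :=
  ⟨by have := Measure.haarMeasure_self (G := KG τ σ) (K₀ := ⊤); simpa [haarK] using this⟩

lemma integrable_evG (c : CG τ σ ℂ) :
    Integrable (fun k : KG τ σ => evG ℂ (coeK k) c) (haarK τ σ) :=
  (continuous_evG c).integrable_of_hasCompactSupport (HasCompactSupport.of_compactSpace _)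

/-- average of a regular function -/
noncomputable def avg : CG τ σ ℂ →ₗ[ℂ] ℂ where
  toFun c := ∫ k, evG ℂ (coeK k) c ∂(haarK τ σ)
  map_add' a b := by
    simp only [map_add]
    exact integral_add (integrable_evG a) (integrable_evG b)
  map_smul' z a := by
    simp only [map_smul, RingHom.id_apply]
    exact integral_smul z _

namespace Rep

variable {ι : Type} [Fintype ι] [DecidableEq ι] (r : Rep τ σ ι)

/-- the Reynolds operator -/
noncomputable def reyn (P : MvPolynomial ι ℂ) : MvPolynomial ι ℂ :=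
  ∑ β ∈ (r.gact (genG τ σ ℂ) P).support, monomial β (avg (coeff β (r.gact (genG τ σ ℂ) P)))

/-- the regular function `γ ↦ μ (γ P)` -/
noncomputable def mcoef (μ : MvPolynomial ι ℂ →ₗ[ℂ] ℂ) (P : MvPolynomial ι ℂ) : CG τ σ ℂ :=
  ∑ β ∈ (r.gact (genG τ σ ℂ) P).support,
    μ (monomial β 1) • coeff β (r.gact (genG τ σ ℂ) P)

lemma evG_mcoef (μ : MvPolynomial ι ℂ →ₗ[ℂ] ℂ) (P : MvPolynomial ι ℂ) (γ : Gr τ σ ℂ) :
    evG ℂ γ (r.mcoef μ P) = μ (r.gact γ P) := by
  conv_rhs => rw [gact_eq_map, (r.gact (genG τ σ ℂ) P).as_sum]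
  simp only [mcoef, map_sum, map_smul, map_monomial]
  refine Finset.sum_congr rfl fun β _ => ?_
  rw [← mul_one ((evG ℂ γ : CG τ σ ℂ →+* ℂ) _), ← smul_eq_mul, ← smul_monomial, map_smul]
  simp [mul_comm]

lemma apply_reyn (μ : MvPolynomial ι ℂ →ₗ[ℂ] ℂ) (P : MvPolynomial ι ℂ) :
    μ (r.reyn P) = avg (r.mcoef μ P) := by
  simp only [reyn, mcoef, map_sum, map_smul]
  refine Finset.sum_congr rfl fun β _ => ?_
  rw [← mul_one (avg _), ← smul_eq_mul, ← smul_monomial, map_smul]
  simp [mul_comm]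

lemma apply_reyn' (μ : MvPolynomial ι ℂ →ₗ[ℂ] ℂ) (P : MvPolynomial ι ℂ) :
    μ (r.reyn P) = ∫ k, μ (r.gact (coeK k) P) ∂(haarK τ σ) := by
  rw [apply_reyn]
  simp only [avg, LinearMap.coe_mk, AddHom.coe_mk, evG_mcoef]

lemma gact_reyn (γ : Gr τ σ ℂ) (P : MvPolynomial ι ℂ) : r.gact γ (r.reyn P) = r.reyn P := by
  ext β
  have h1 : ∀ k : KG τ σ, coeff β (r.gact (coeK k) (r.reyn P)) = coeff β (r.reyn P) := by
    intro k
    have h2 := r.apply_reyn' ((lcoeff ℂ β).comp (r.gact (coeK k)).toLinearMap) P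
    have h3 := r.apply_reyn' (lcoeff ℂ β) P
    have h4 := integral_mul_left_eq_self (μ := haarK τ σ)
      (fun k' : KG τ σ => lcoeff ℂ β (r.gact (coeK k') P)) k
    simp only [map_mul, act_mul] at h4
    exact h2.trans (h4.trans h3.symm)
  have h5 : r.mcoef (lcoeff ℂ β) (r.reyn P) - algebraMap ℂ _ (coeff β (r.reyn P)) = 0 := by
    apply CG_eq_zero_of_unitary
    intro k
    rw [map_sub, evG_mcoef, AlgHom.commutes]
    exact sub_eq_zero.2 (h1 k)
  have h6 := congrArg (evG ℂ γ) h5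
  rw [map_sub, evG_mcoef, AlgHom.commutes, map_zero, sub_eq_zero] at h6
  exact h6

/-- the averaging property -/
lemma sum_reyn {E κ : Type} [AddCommGroup E] [Module ℂ E] (s : Finset κ)
    (l : κ → MvPolynomial ι ℂ →ₗ[ℂ] E) (P : κ → MvPolynomial ι ℂ) (c : E)
    (h : ∀ γ : Gr τ σ ℂ, ∑ i ∈ s, l i (r.gact γ (P i)) = c) :
    ∑ i ∈ s, l i (r.reyn (P i)) = c := by
  rw [← sub_eq_zero, ← Module.forall_dual_apply_eq_zero_iff ℂ]
  intro φ
  have h1 : ∑ i ∈ s, r.mcoef (φ.comp (l i)) (P i) = algebraMap ℂ _ (φ c) := by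
    rw [← sub_eq_zero]
    apply CG_eq_zero
    intro γ
    rw [map_sub, map_sum, AlgHom.commutes, ← h γ, map_sum]
    simp [evG_mcoef]
  have h2 := congrArg avg h1
  rw [map_sum] at h2
  have h3 : avg (algebraMap ℂ (CG τ σ ℂ) (φ c)) = φ c := by
    simp [avg]
  rw [map_sub, map_sum, sub_eq_zero, ← h3, ← h2]
  exact Finset.sum_congr rfl fun i _ => r.apply_reyn (φ.comp (l i)) (P i)

lemma map_reyn {E : Type} [AddCommGroup E] [Module ℂ E]
    (l : MvPolynomial ι ℂ →ₗ[ℂ] E) (P : MvPolynomial ι ℂ) (c : E)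
    (h : ∀ γ : Gr τ σ ℂ, l (r.gact γ P) = c) : l (r.reyn P) = c := by
  have := r.sum_reyn (Finset.univ : Finset Unit) (fun _ => l) (fun _ => P) c (by simpa using h)
  simpa using this

lemma reyn_sub_mem (M : Submodule ℂ (MvPolynomial ι ℂ)) (P Q : MvPolynomial ι ℂ)
    (h : ∀ γ : Gr τ σ ℂ, r.gact γ P - Q ∈ M) : r.reyn P - Q ∈ M := by
  rw [← Submodule.Quotient.eq]
  exact r.map_reyn M.mkQ P _ fun γ => (Submodule.Quotient.eq M).2 (h γ)

lemma reyn_mem (M : Submodule ℂ (MvPolynomial ι ℂ)) (P : MvPolynomial ι ℂ)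
    (h : ∀ γ : Gr τ σ ℂ, r.gact γ P ∈ M) : r.reyn P ∈ M := by
  simpa using r.reyn_sub_mem M P 0 (by simpa using h)

/-- the invariant ring -/
def inv : Subalgebra ℂ (MvPolynomial ι ℂ) where
  carrier := {P | ∀ γ : Gr τ σ ℂ, r.gact γ P = P}
  mul_mem' := by intro a b ha hb γ; rw [map_mul, ha γ, hb γ]
  add_mem' := by intro a b ha hb γ; rw [map_add, ha γ, hb γ]
  algebraMap_mem' := by intro c γ; exact AlgHom.commutes _ c

lemma mem_inv {P : MvPolynomial ι ℂ} : P ∈ r.inv ↔ ∀ γ : Gr τ σ ℂ, r.gact γ P = P := Iff.rfl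

lemma reyn_mem_inv (P : MvPolynomial ι ℂ) : r.reyn P ∈ r.inv := fun γ => r.gact_reyn γ P

/-- if an invariant element `F` is congruent, modulo a stable subspace, to a combination of
invariants, then the coefficients may be replaced by their averages -/
lemma sub_sum_reyn_mem {κ : Type} (s : Finset κ) (M : Submodule ℂ (MvPolynomial ι ℂ))
    (hM : ∀ γ : Gr τ σ ℂ, ∀ P ∈ M, r.gact γ P ∈ M) (F : MvPolynomial ι ℂ) (hF : F ∈ r.inv)
    (a p : κ → MvPolynomial ι ℂ) (hp : ∀ i ∈ s, p i ∈ r.inv)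
    (h : F - ∑ i ∈ s, a i * p i ∈ M) : F - ∑ i ∈ s, r.reyn (a i) * p i ∈ M := by
  have h1 := r.sum_reyn s (fun i => M.mkQ.comp (LinearMap.mulRight ℂ (p i))) a (M.mkQ F) (by
    intro γ
    have h2 := hM γ _ h
    rw [map_sub, hF γ, map_sum] at h2
    simp only [LinearMap.comp_apply, LinearMap.mulRight_apply]
    rw [← map_sum]
    symm
    apply (Submodule.Quotient.eq M).2
    convert h2 using 2
    refine Finset.sum_congr rfl fun i hi => ?_
    rw [map_mul, hp i hi γ])
  simp only [LinearMap.comp_apply, LinearMap.mulRight_apply] at h1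
  rw [← map_sum] at h1
  exact (Submodule.Quotient.eq M).1 h1.symm

end Rep

end Pool.Agent.P.MP_f4e0a3_ag
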