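import Mathlib
import Pool.Agent.P.MP_f4e0a3_ag.Reynolds
import Pool.Agent.P.MP_f4e0a3_ag.Fields

/-!
Closed orbits: separation by invariants, regular functions on an orbit, the conormal space of an
orbit and the lifting of stabiliser invariants to invariants.
-/

open MvPolynomial Matrix
open scoped DualNumber

set_option linter.unusedSectionVars false

namespace Pool.Agent.P.MP_f4e0a3_ag

section Dual

variable {R S : Type} [CommRing R] [Algebra ℂ R] [CommRing S] [Algebra ℂ S]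

/-- functoriality of dual numbers -/
def dmap (φ : R →ₐ[ℂ] S) : R[ε] →ₐ[ℂ] S[ε] where
  toFun x := TrivSqZeroExt.inl (φ x.fst) + TrivSqZeroExt.inr (φ x.snd)
  map_one' := by ext <;> simp
  map_mul' x y := by ext <;> simp
  map_zero' := by ext <;> simp
  map_add' x y := by ext <;> simp
  commutes' z := by ext <;> simp [TrivSqZeroExt.algebraMap_eq_inl']

@[simp] lemma fst_dmap (φ : R →ₐ[ℂ] S) (x : R[ε]) : (dmap φ x).fst = φ x.fst := by simp [dmap]

@[simp] lemma snd_dmap (φ : R →ₐ[ℂ] S) (x : R[ε]) : (dmap φ x).snd = φ x.snd := by simp [dmap]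

lemma fst_aeval {ι k : Type} [CommRing k] [Algebra k R] (x : ι → R[ε]) (P : MvPolynomial ι k) :
    (aeval x P).fst = aeval (fun i => (x i).fst) P := by
  have := comp_aeval x (TrivSqZeroExt.fstHom k R R)
  exact DFunLike.congr_fun this P

lemma snd_aeval {ι k : Type} [Fintype ι] [DecidableEq ι] [CommRing k] [Algebra k R]
    (x : ι → R[ε]) (P : MvPolynomial ι k) :
    (aeval x P).snd = ∑ i, (x i).snd * aeval (fun i => (x i).fst) (pderiv i P) := by
  induction P using MvPolynomial.induction_on with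
  | C a => simp [TrivSqZeroExt.algebraMap_eq_inl']
  | add p q hp hq => simp [hp, hq, mul_add, Finset.sum_add_distrib]
  | mul_X p j hp =>
    simp only [map_mul, aeval_X, DualNumber.snd_mul, hp, fst_aeval, Derivation.leibniz,
      smul_eq_mul, map_add, pderiv_X, mul_add, Finset.sum_add_distrib, Finset.sum_mul]
    congr 1
    · rw [Finset.sum_eq_single j]
      · simp [mul_comm]
      · intro i _ hi
        simp [Pi.single_eq_of_ne' hi]
      · simp
    · refine Finset.sum_congr rfl fun i _ => ?_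
      ring

end Dual

/-- the maximal ideal of a point -/
noncomputable def mI {ι : Type} (h : ι → ℂ) : Ideal (MvPolynomial ι ℂ) :=
  RingHom.ker (aeval h : MvPolynomial ι ℂ →ₐ[ℂ] ℂ)

lemma mem_mI {ι : Type} {h : ι → ℂ} {P : MvPolynomial ι ℂ} : P ∈ mI h ↔ aeval h P = 0 := Iff.rfl

lemma taylor_one {ι : Type} [Fintype ι] [DecidableEq ι] (h : ι → ℂ) (P : MvPolynomial ι ℂ) :
    P - C (aeval h P) - ∑ i, C (aeval h (pderiv i P)) * (X i - C (h i)) ∈ mI h ^ 2 := by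
  have hX : ∀ i, (X i - C (h i) : MvPolynomial ι ℂ) ∈ mI h := fun i => by simp [mem_mI]
  induction P using MvPolynomial.induction_on with
  | C a => simp
  | add p q hp hq =>
    convert Ideal.add_mem _ hp hq using 1
    simp only [map_add, add_mul, Finset.sum_add_distrib]
    ring
  | mul_X p j hp =>
    have h1 : (p - C (aeval h p)) * (X j - C (h j)) ∈ mI h ^ 2 := by
      rw [pow_two]
      exact Ideal.mul_mem_mul (by simp [mem_mI]) (hX j)
    convert Ideal.add_mem _ (Ideal.mul_mem_left _ (C (h j)) hp) h1 using 1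
    have h2 : ∑ i, C (aeval h (pderiv i (p * X j))) * (X i - C (h i)) =
        C (aeval h p) * (X j - C (h j)) +
        C (h j) * ∑ i, C (aeval h (pderiv i p)) * (X i - C (h i) : MvPolynomial ι ℂ) := by
      simp only [Derivation.leibniz, smul_eq_mul, map_add, map_mul, aeval_X, pderiv_X, add_mul,
        Finset.sum_add_distrib, Finset.mul_sum]
      congr 1
      · rw [Finset.sum_eq_single j]
        · simp
        · intro i _ hi
          simp [Pi.single_eq_of_ne' hi]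
        · simp
      · refine Finset.sum_congr rfl fun i _ => ?_
        ring
    rw [h2]
    simp only [map_mul, aeval_X]
    ring

namespace Rep

variable {τ σ ι : Type} [Fintype σ] [DecidableEq σ] [Fintype ι] [DecidableEq ι] [Fintype τ]
  (r : Rep τ σ ι)

/-- the orbit map on coordinate rings -/
noncomputable def orbHom (h : ι → ℂ) : MvPolynomial ι ℂ →ₐ[ℂ] CG τ σ ℂ :=
  aeval (r.pt (fun i => algebraMap ℂ (CG τ σ ℂ) (h i)) (genG τ σ ℂ))

lemma evG_orbHom' {T : Type} [CommRing T] [Algebra ℂ T] (h : ι → ℂ) (γ : Gr τ σ T)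
    (P : MvPolynomial ι ℂ) :
    evG ℂ γ (r.orbHom h P) = aeval (r.pt (fun i => algebraMap ℂ T (h i)) γ) P := by
  rw [orbHom, ← AlgHom.comp_apply, comp_aeval, r.map_pt, mapG_evG]
  simp

lemma evG_orbHom (h : ι → ℂ) (γ : Gr τ σ ℂ) (P : MvPolynomial ι ℂ) :
    evG ℂ γ (r.orbHom h P) = aeval (r.pt h γ) P := r.evG_orbHom' h γ P

/-- the ideal of an orbit -/
noncomputable def orbI (h : ι → ℂ) : Ideal (MvPolynomial ι ℂ) := RingHom.ker (r.orbHom h)

lemma mem_orbI {h : ι → ℂ} {P : MvPolynomial ι ℂ} :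
    P ∈ r.orbI h ↔ ∀ γ : Gr τ σ ℂ, aeval (r.pt h γ) P = 0 := by
  constructor
  · intro hP γ
    rw [← evG_orbHom, show r.orbHom h P = 0 from hP, map_zero]
  · intro hP
    apply CG_eq_zero
    intro γ
    rw [evG_orbHom, hP]

lemma orbI_le_mI (h : ι → ℂ) : r.orbI h ≤ mI h := fun P hP => by
  have := r.mem_orbI.1 hP 1
  rwa [pt_one] at this

lemma gact_mem_orbI {h : ι → ℂ} {P : MvPolynomial ι ℂ} (hP : P ∈ r.orbI h) (γ : Gr τ σ ℂ) :
    r.gact γ P ∈ r.orbI h := by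
  rw [mem_orbI] at hP ⊢
  intro δ
  rw [aeval_act, ← pt_mul, hP]

lemma gact_mem_pow {I J : Ideal (MvPolynomial ι ℂ)} (γ : Gr τ σ ℂ)
    (h : ∀ P ∈ I, r.gact γ P ∈ J) (N : ℕ) {P : MvPolynomial ι ℂ} (hP : P ∈ I ^ N) :
    r.gact γ P ∈ J ^ N := by
  have h1 : I.map (r.gact γ) ≤ J := Ideal.map_le_iff_le_comap.2 h
  have h2 := Ideal.mem_map_of_mem (r.gact γ) hP
  rw [Ideal.map_pow] at h2
  exact Ideal.pow_right_mono h1 N h2

lemma gact_mem_mI {h : ι → ℂ} (γ : Gr τ σ ℂ) {P : MvPolynomial ι ℂ} (hP : P ∈ mI (r.pt h γ)) :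
    r.gact γ P ∈ mI h := by
  rw [mem_mI, aeval_act]; exact hP

lemma same_orbit_of_orbI_eq {h h' : ι → ℂ} (H : r.orbI h = r.orbI h') :
    ∃ γ : Gr τ σ ℂ, h' = r.pt h γ := by
  obtain ⟨ψ₁, ψ₂, hψ⟩ := exists_points_of_ker_eq (r.orbHom h) (r.orbHom h') (fun x => by
    have : x ∈ r.orbI h ↔ x ∈ r.orbI h' := by rw [H]
    exact this)
  rw [← evG_mapG ℂ ψ₁, ← evG_mapG ℂ ψ₂] at hψ
  set γ₁ := mapG (ψ₁ : CG τ σ ℂ →+* ℂ) (genG τ σ ℂ)
  set γ₂ := mapG (ψ₂ : CG τ σ ℂ →+* ℂ) (genG τ σ ℂ)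
  have h1 : r.pt h γ₁ = r.pt h' γ₂ := by
    funext i
    have := hψ (X i)
    rwa [evG_orbHom, evG_orbHom, aeval_X, aeval_X] at this
  exact ⟨γ₁ * γ₂⁻¹, by rw [pt_mul, h1, pt_inv_pt]⟩

/-- closed orbits -/
def ClosedOrb (h : ι → ℂ) : Prop :=
  ∀ w : ι → ℂ, (∀ P ∈ r.orbI h, aeval w P = 0) → ∃ γ : Gr τ σ ℂ, w = r.pt h γ

lemma exists_pt_of_ne_top (J : Ideal (MvPolynomial ι ℂ)) (hJ : J ≠ ⊤) :
    ∃ w : ι → ℂ, ∀ P ∈ J, aeval w P = 0 := by
  obtain ⟨ψ, hψ⟩ := exists_point_of_ne_top J hJ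
  exact ⟨fun i => ψ (X i), fun P hP => by rw [← hψ P hP, aeval_unique ψ]; simp [Function.comp_def]⟩

lemma separate {h h' : ι → ℂ} (hh : r.ClosedOrb h) (hh' : r.ClosedOrb h')
    (H : ∀ P ∈ r.inv, aeval h P = aeval h' P) : ∃ γ : Gr τ σ ℂ, h' = r.pt h γ := by
  by_cases hT : r.orbI h ⊔ r.orbI h' = ⊤
  · exfalso
    obtain ⟨a, ha, b, hb, hab⟩ := Submodule.mem_sup.1 (hT ▸ Submodule.mem_top :
      (1 : MvPolynomial ι ℂ) ∈ r.orbI h ⊔ r.orbI h')
    have h1 : r.reyn a ∈ r.orbI h :=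
      r.reyn_mem ((r.orbI h).restrictScalars ℂ) a fun γ => r.gact_mem_orbI ha γ
    have h2 : r.reyn a - 1 ∈ r.orbI h' :=
      r.reyn_sub_mem ((r.orbI h').restrictScalars ℂ) a 1 fun γ => by
        have h3 : r.gact γ a - 1 = - r.gact γ b := by
          rw [← map_one (r.gact γ), ← hab, map_add]; ring
        rw [h3]
        exact (r.orbI h').neg_mem (r.gact_mem_orbI hb γ)
    have h4 := r.orbI_le_mI h h1
    have h5 := r.orbI_le_mI h' h2
    rw [mem_mI] at h4 h5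
    rw [map_sub, ← H _ (r.reyn_mem_inv a), h4] at h5
    simp at h5
  · obtain ⟨w, hw⟩ := exists_pt_of_ne_top _ hT
    obtain ⟨γ, hγ⟩ := hh w fun P hP => hw P (Ideal.mem_sup_left hP)
    obtain ⟨γ', hγ'⟩ := hh' w fun P hP => hw P (Ideal.mem_sup_right hP)
    exact ⟨γ * γ'⁻¹, by rw [pt_mul, ← hγ, hγ', pt_inv_pt]⟩

lemma alpha {h : ι → ℂ} (hh : r.ClosedOrb h) {κ : Type} [Fintype κ] (c : κ → CG τ σ ℂ)
    (h1 : ∀ γ₁ γ₂ : Gr τ σ ℂ, r.pt h γ₁ = r.pt h γ₂ → ∀ j, evG ℂ γ₁ (c j) = evG ℂ γ₂ (c j))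
    (h2 : ∀ (δ : Gr τ σ ℂ) (j : κ), ∃ m : κ → ℂ, ∀ γ : Gr τ σ ℂ,
      evG ℂ (γ * δ) (c j) = ∑ k, m k * evG ℂ γ (c k)) (j : κ) :
    ∃ P, r.orbHom h P = c j := by
  let J : Ideal (MvPolynomial ι ℂ) :=
    { carrier := {P | ∀ j, ∃ P', r.orbHom h P * c j = r.orbHom h P'}
      add_mem' := by
        intro a b ha hb j
        obtain ⟨a', ha'⟩ := ha j
        obtain ⟨b', hb'⟩ := hb j
        exact ⟨a' + b', by rw [map_add, map_add, add_mul, ha', hb']⟩
      zero_mem' := fun j => ⟨0, by simp⟩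
      smul_mem' := by
        intro a b hb j
        obtain ⟨b', hb'⟩ := hb j
        exact ⟨a * b', by rw [smul_eq_mul, map_mul, map_mul, mul_assoc, hb']⟩ }
  have hJ1 : r.orbI h ≤ J := fun P hP j => ⟨0, by
    rw [show r.orbHom h P = 0 from hP]; simp⟩
  have hJ2 : ∀ (δ : Gr τ σ ℂ), ∀ P ∈ J, r.gact δ P ∈ J := by
    intro δ P hP j
    choose P' hP' using hP
    obtain ⟨m, hm⟩ := h2 δ⁻¹ j
    refine ⟨∑ k, m k • r.gact δ (P' k), ?_⟩
    rw [← sub_eq_zero]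
    apply CG_eq_zero
    intro γ
    have h3 := hm (γ * δ)
    rw [mul_inv_cancel_right] at h3
    have h4 : ∀ Q, evG ℂ γ (r.orbHom h (r.gact δ Q)) = evG ℂ (γ * δ) (r.orbHom h Q) := by
      intro Q
      rw [evG_orbHom, evG_orbHom, aeval_act, pt_mul]
    simp only [map_sub, map_mul, map_sum, map_smul, h4, h3, ← hP', smul_eq_mul, Finset.mul_sum]
    rw [sub_eq_zero]
    exact Finset.sum_congr rfl fun k _ => by ring
  have hJ3 : ∃ P ∈ J, r.orbHom h P ≠ 0 := by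
    have : ∀ j, ∃ a b, r.orbHom h b ≠ 0 ∧ r.orbHom h b * c j = r.orbHom h a := by
      intro j
      apply birational
      intro ψ₁ ψ₂ hψ
      rw [← evG_mapG ℂ ψ₁, ← evG_mapG ℂ ψ₂] at hψ ⊢
      apply h1
      funext i
      have := hψ (X i)
      rwa [evG_orbHom, evG_orbHom, aeval_X, aeval_X] at this
    choose a b hb hab using this
    classical
    refine ⟨∏ j, b j, fun j => ⟨(∏ k ∈ Finset.univ.erase j, b k) * a j, ?_⟩, ?_⟩
    · rw [← Finset.prod_erase_mul _ _ (Finset.mem_univ j), map_mul, map_mul, mul_assoc, hab]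
    · rw [map_prod]
      exact Finset.prod_ne_zero_iff.2 fun j _ => hb j
  have hJ : J = ⊤ := by
    by_contra hJ
    obtain ⟨w, hw⟩ := exists_pt_of_ne_top _ hJ
    obtain ⟨γ, rfl⟩ := hh w fun P hP => hw P (hJ1 hP)
    obtain ⟨P, hP, hP0⟩ := hJ3
    apply hP0
    apply r.mem_orbI.2
    intro δ
    have := hw _ (hJ2 (γ⁻¹ * δ) P hP)
    rwa [aeval_act, ← pt_mul, mul_inv_cancel_left] at this
  obtain ⟨P, hP⟩ := (hJ ▸ Submodule.mem_top : (1 : MvPolynomial ι ℂ) ∈ J) j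
  exact ⟨P, by rw [← hP]; simp⟩

lemma evG_evG {T : Type} [CommRing T] [Algebra ℂ T] (γ : Gr τ σ T) (δ : Gr τ σ (CG τ σ ℂ))
    (c : CG τ σ ℂ) : evG ℂ γ (evG ℂ δ c) = evG ℂ (mapG (evG ℂ γ : CG τ σ ℂ →+* T) δ) c := by
  rw [← AlgHom.comp_apply, ← evG_mapG ℂ ((evG ℂ γ).comp (evG ℂ δ))]
  congr 2
  conv_rhs => rw [← mapG_evG ℂ δ]
  rfl

lemma luna {h : ι → ℂ} (hh : r.ClosedOrb h) (N : ℕ) (Q : MvPolynomial ι ℂ)
    (hQ : Q ∈ r.orbI h ^ N) (hQ' : ∀ γ : Gr τ σ ℂ, r.pt h γ = h → r.gact γ Q = Q) :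
    ∃ P ∈ r.inv, P - Q ∈ mI h ^ (N + 1) := by
  classical
  let E : Submodule ℂ (MvPolynomial ι ℂ) := Submodule.span ℂ (Set.range fun γ => r.gact γ Q)
  have hE1 : E ≤ (r.orbI h ^ N).restrictScalars ℂ := by
    rw [Submodule.span_le]
    rintro _ ⟨γ, rfl⟩
    exact r.gact_mem_pow γ (fun P hP => r.gact_mem_orbI hP γ) N hQ
  have hE2 : ∀ γ : Gr τ σ ℂ, ∀ P ∈ E, r.gact γ P ∈ E := by
    intro γ P hP
    have : E.map (r.gact γ).toLinearMap ≤ E := by
      rw [Submodule.map_span, Submodule.span_le]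
      rintro _ ⟨_, ⟨δ, rfl⟩, rfl⟩
      exact Submodule.subset_span ⟨γ * δ, r.act_mul γ δ Q⟩
    exact this (Submodule.mem_map_of_mem hP)
  have hE3 : Module.Finite ℂ E := by
    let F : Submodule ℂ (MvPolynomial ι ℂ) := Submodule.span ℂ
      ((r.gact (genG τ σ ℂ) Q).support.image fun β => (monomial β (1 : ℂ) : MvPolynomial ι ℂ))
    have hF : Module.Finite ℂ F := Module.Finite.span_of_finite ℂ (Finset.finite_toSet _)
    have : E ≤ F := by
      rw [Submodule.span_le]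
      rintro _ ⟨γ, rfl⟩
      show r.gact γ Q ∈ F
      rw [gact_eq_map, (r.gact (genG τ σ ℂ) Q).as_sum, map_sum]
      refine Submodule.sum_mem _ fun β hβ => ?_
      rw [map_monomial, ← mul_one ((evG ℂ γ : CG τ σ ℂ →+* ℂ) _), ← smul_eq_mul, ← smul_monomial]
      refine Submodule.smul_mem _ _ (Submodule.subset_span ?_)
      exact Finset.mem_coe.2 (Finset.mem_image_of_mem _ hβ)
    exact Submodule.finiteDimensional_of_le this
  let b := Module.finBasis ℂ E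
  have hμ : ∀ j, ∃ μ : MvPolynomial ι ℂ →ₗ[ℂ] ℂ, μ.comp E.subtype = b.coord j := fun j =>
    LinearMap.exists_extend (b.coord j)
  choose μ hμ using hμ
  have hμ' : ∀ x ∈ E, x = ∑ j, μ j x • (b j : MvPolynomial ι ℂ) := by
    intro x hx
    have h1 := congrArg E.subtype (b.sum_repr ⟨x, hx⟩)
    rw [map_sum] at h1
    refine h1.symm.trans (Finset.sum_congr rfl fun j _ => ?_)
    have h2 : μ j x = b.repr ⟨x, hx⟩ j := DFunLike.congr_fun (hμ j) ⟨x, hx⟩
    rw [h2, map_smul]; rfl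
  let c : _ → CG τ σ ℂ := fun j => evG ℂ (genG τ σ ℂ)⁻¹ (r.mcoef (μ j) Q)
  have hc : ∀ γ j, evG ℂ γ (c j) = μ j (r.gact γ⁻¹ Q) := by
    intro γ j
    simp only [c]
    rw [evG_evG, map_inv, mapG_evG, evG_mcoef]
  have hQE : ∀ γ, r.gact γ Q ∈ E := fun γ => Submodule.subset_span ⟨γ, rfl⟩
  have hc' := r.alpha hh c (by
    intro γ₁ γ₂ h12 j
    have h1 : r.pt h (γ₂ * γ₁⁻¹) = h := by rw [pt_mul, ← h12, pt_inv_pt]
    have h2 := hQ' _ h1
    rw [hc, hc]
    conv_rhs => rw [← h2, ← act_mul, inv_mul_cancel_left]) (by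
    intro δ j
    refine ⟨fun k => μ j (r.gact δ⁻¹ (b k)), fun γ => ?_⟩
    rw [hc, _root_.mul_inv_rev, act_mul, hμ' _ (hQE γ⁻¹)]
    simp only [map_sum, map_smul, hc, smul_eq_mul]
    exact Finset.sum_congr rfl fun k _ => mul_comm _ _)
  choose c' hc' using hc'
  refine ⟨r.reyn (∑ j, c' j * b j), r.reyn_mem_inv _, ?_⟩
  apply r.reyn_sub_mem ((mI h ^ (N + 1)).restrictScalars ℂ)
  intro γ
  have h1 : ∑ j, c' j * b j - r.gact γ⁻¹ Q ∈ mI (r.pt h γ) ^ (N + 1) := by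
    rw [hμ' _ (hQE γ⁻¹), ← Finset.sum_sub_distrib]
    refine Ideal.sum_mem _ fun j _ => ?_
    rw [smul_eq_C_mul, ← sub_mul, pow_succ']
    refine Ideal.mul_mem_mul ?_ ?_
    · rw [mem_mI, map_sub, ← evG_orbHom, hc', hc]; simp
    · refine Ideal.pow_right_mono ?_ N (hE1 (b j).2)
      intro P hP
      exact r.mem_orbI.1 hP γ
  have h2 := r.gact_mem_pow γ (fun P hP => r.gact_mem_mI γ hP) (N + 1) h1
  rw [map_sub, act_act_inv] at h2
  exact h2

lemma beta (h v : ι → ℂ)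
    (hv : ∀ (L : Type) [Field L] [Algebra ℂ L] (δ : Gr τ σ L[ε]),
      mapG (TrivSqZeroExt.fstHom ℂ L L : L[ε] →+* L) δ = 1 →
      ∑ i, algebraMap ℂ L (v i) * (r.pt (fun i => algebraMap ℂ L[ε] (h i)) δ i).snd = 0) :
    ∃ P ∈ r.orbI h, P - ∑ i, C (v i) * (X i - C (h i)) ∈ mI h ^ 2 := by
  let D : MvPolynomial ι ℂ →ₗ[ℂ] (ι → ℂ) :=
    LinearMap.pi fun i => (aeval h : MvPolynomial ι ℂ →ₐ[ℂ] ℂ).toLinearMap.comp
      (pderiv i : Derivation ℂ (MvPolynomial ι ℂ) (MvPolynomial ι ℂ)).toLinearMap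
  have hD : ∀ P i, D P i = aeval h (pderiv i P) := fun _ _ => rfl
  suffices hs : v ∈ ((r.orbI h).restrictScalars ℂ).map D by
    obtain ⟨P, hP, rfl⟩ := hs
    refine ⟨P, hP, ?_⟩
    have h1 := taylor_one h P
    rw [show aeval h P = 0 from r.orbI_le_mI h hP] at h1
    simpa [hD] using h1
  by_contra hn
  obtain ⟨φ, hφ1, hφ2⟩ := Submodule.exists_dual_map_eq_bot_of_notMem hn inferInstance
  let w : ι → ℂ := fun i => φ (Pi.single i 1)
  have hw : ∀ x : ι → ℂ, φ x = ∑ i, w i * x i := by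
    intro x
    conv_lhs => rw [pi_eq_sum_univ' x]
    simp [w, mul_comm]
  have hw' : ∀ P ∈ r.orbI h, ∑ i, w i * aeval h (pderiv i P) = 0 := by
    intro P hP
    have : φ (D P) ∈ (⊥ : Submodule ℂ ℂ) :=
      hφ2 ▸ Submodule.mem_map_of_mem (Submodule.mem_map_of_mem hP)
    rw [Submodule.mem_bot, hw] at this
    exact this
  let A := CG τ σ ℂ
  let L := FractionRing A
  let x : ∀ (T : Type) [CommRing T] [Algebra ℂ T], ι → T[ε] := fun T _ _ i =>
    TrivSqZeroExt.inl (algebraMap ℂ T (h i)) + TrivSqZeroExt.inr (algebraMap ℂ T (w i))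
  have hx : ∀ {T T' : Type} [CommRing T] [Algebra ℂ T] [CommRing T'] [Algebra ℂ T']
      (f : T →ₐ[ℂ] T') (γ : Gr τ σ T),
      (fun i => dmap f (r.pt (x T) (mapG (algebraMap T T[ε]) γ) i)) =
        r.pt (x T') (mapG (algebraMap T' T'[ε]) (mapG (f : T →+* T') γ)) := by
    intro T T' _ _ _ _ f γ
    rw [map_pt, mapG_mapG, mapG_mapG]
    congr 1
    · funext i
      ext <;> simp [x]
    · congr 2
      ext y <;> simp [TrivSqZeroExt.algebraMap_eq_inl]
  have hfst : ∀ {T : Type} [CommRing T] [Algebra ℂ T] (γ : Gr τ σ T),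
      (fun i => (r.pt (x T) (mapG (algebraMap T T[ε]) γ) i).fst) =
        r.pt (fun i => algebraMap ℂ T (h i)) γ := by
    intro T _ _ γ
    have := r.map_pt (TrivSqZeroExt.fstHom ℂ T T) (x T) (mapG (algebraMap T T[ε]) γ)
    refine this.trans ?_
    congr 1
    funext i
    simp [x]
  let θ₀ : MvPolynomial ι ℂ →ₐ[ℂ] A[ε] :=
    aeval (r.pt (x A) (mapG (algebraMap A A[ε]) (genG τ σ ℂ)))
  let j : A →ₐ[ℂ] L := IsScalarTower.toAlgHom ℂ A L
  have h1 : ∀ P, (θ₀ P).fst = r.orbHom h P := by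
    intro P
    rw [fst_aeval, hfst]; rfl
  have h2 : ∀ P, r.orbHom h P = 0 → θ₀ P = 0 := by
    intro P hP
    ext
    · rw [h1, hP]; rfl
    · apply CG_eq_zero
      intro γ
      rw [← snd_dmap, ← AlgHom.comp_apply, comp_aeval, hx, mapG_evG, ← aeval_gact, snd_aeval]
      have := hw' _ (r.gact_mem_orbI hP γ)
      simpa [x] using this
  obtain ⟨θ', h3, h4⟩ := exists_dual_lift (r.orbHom h) ((dmap j).comp θ₀)
    (fun P => by rw [AlgHom.comp_apply, fst_dmap, h1]; rfl)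
    (fun P hP => by rw [AlgHom.comp_apply, h2 P hP, map_zero])
  let γ' : Gr τ σ L[ε] := mapG (θ' : A →+* L[ε]) (genG τ σ ℂ)
  let γL : Gr τ σ L[ε] := mapG (algebraMap L L[ε]) (mapG (j : A →+* L) (genG τ σ ℂ))
  have h5 : r.pt (fun i => algebraMap ℂ L[ε] (h i)) γ' = r.pt (x L) γL := by
    rw [← hx]
    funext i
    have h6 := h4 (X i)
    rw [← evG_mapG ℂ θ', evG_orbHom', aeval_X] at h6
    rw [h6]
    simp [θ₀]
  have h7 := hv L (γ' * γL⁻¹) (by
    rw [map_mul, map_inv, mul_inv_eq_one, mapG_mapG, mapG_mapG, mapG_mapG]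
    congr 2
    ext y
    exact h3 y)
  rw [pt_mul, h5, pt_inv_pt] at h7
  apply hφ1
  rw [hw]
  apply (algebraMap ℂ L).injective
  rw [map_zero, ← h7, map_sum]
  refine Finset.sum_congr rfl fun i _ => ?_
  have e : (x L i).snd = algebraMap ℂ L (w i) := by
    simp only [x, TrivSqZeroExt.snd_add, TrivSqZeroExt.snd_inl, TrivSqZeroExt.snd_inr, zero_add]
  rw [map_mul, mul_comm, e]

end Rep

end Pool.Agent.P.MP_f4e0a3_ag
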