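import Mathlib
import Pool.Agent.P.MP_f4e0a3_ag.Luna

/-!
Two consequences of dimension theory, and valuation rings over the complex numbers.
-/

open MvPolynomial

namespace Pool.Agent.P.MP_f4e0a3_ag

attribute [local instance] Polynomial.algebra Polynomial.isLocalization in
lemma height_le_one_of_disjoint {A : Type} [CommRing A] [IsDomain A] (P : Ideal (Polynomial A))
    [P.IsPrime] (h : ∀ a : A, Polynomial.C a ∈ P → a = 0) : P.height ≤ 1 := by
  let K := FractionRing A
  have disj : Disjoint ((nonZeroDivisors A).map (Polynomial.C : A →+* Polynomial A) :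
      Set (Polynomial A)) P := by
    refine Set.disjoint_left.2 ?_
    rintro _ ⟨a, ha, rfl⟩ hP
    exact nonZeroDivisors.ne_zero ha (h a hP)
  rw [← IsLocalization.height_map_of_disjoint (S := Polynomial K) _ P disj]
  have hp := IsLocalization.isPrime_of_isPrime_disjoint _ (Polynomial K) P inferInstance disj
  have h1 := Ideal.height_le_ringKrullDim_of_ne_top hp.ne_top
  rw [Polynomial.ringKrullDim_of_isNoetherianRing, ringKrullDim_eq_zero_of_field, zero_add] at h1
  exact_mod_cast h1

lemma principal_of_disjoint {ι : Type} [DecidableEq ι] (p : Ideal (MvPolynomial ι ℂ)) [p.IsPrime]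
    (c : ι) (hne : p ≠ ⊥)
    (h : ∀ q : MvPolynomial {i // i ≠ c} ℂ, rename Subtype.val q ∈ p → q = 0) : p.IsPrincipal := by
  let e : Polynomial (MvPolynomial {i // i ≠ c} ℂ) ≃ₐ[ℂ] MvPolynomial ι ℂ :=
    (optionEquivLeft ℂ _).symm.trans (renameEquiv ℂ (Equiv.optionSubtypeNe c))
  have he : ∀ q, e (Polynomial.C q) = rename Subtype.val q := by
    intro q
    have : e.toAlgHom.comp (Polynomial.CAlgHom) = rename Subtype.val := by
      apply MvPolynomial.algHom_ext
      intro i
      simp [e]
    exact DFunLike.congr_fun this q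
  have h1 := height_le_one_of_disjoint (p.comap e.toRingEquiv) (fun q hq => h q (by
    rw [← he]; exact hq))
  rw [RingEquiv.height_comap] at h1
  apply UniqueFactorizationMonoid.isPrincipal_of_height_eq_one
  refine le_antisymm h1 ?_
  rw [Order.one_le_iff_ne_zero]
  exact fun h0 => hne (Ideal.height_eq_zero_iff_eq_bot.1 h0)

instance mI_isMaximal {ι : Type} (x : ι → ℂ) : (mI x).IsMaximal :=
  RingHom.ker_isMaximal_of_surjective _ fun z => ⟨C z, by simp⟩

lemma exists_common_zero {σ κ : Type} [Fintype σ] [Fintype κ] (h : κ → MvPolynomial σ ℂ)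
    (h0 : ∀ k, eval 0 (h k) = 0) (hc : Fintype.card κ < Fintype.card σ) :
    ∃ x : σ → ℂ, x ≠ 0 ∧ ∀ k, eval x (h k) = 0 := by
  classical
  by_contra hn
  push Not at hn
  let s : Finset (MvPolynomial σ ℂ) := Finset.univ.image h
  have h1 : mI (0 : σ → ℂ) ≤ (Ideal.span (s : Set (MvPolynomial σ ℂ))).radical := by
    intro P hP
    apply mem_radical_of_forall_point
    intro ψ hψ
    have h2 : (fun i => ψ (X i)) = 0 := by
      by_contra h3
      obtain ⟨k, hk⟩ := hn _ h3
      apply hk
      have := hψ (h k) (Ideal.subset_span (by simp [s]))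
      rw [aeval_unique ψ] at this
      exact this
    rw [aeval_unique ψ]
    have h3 : (⇑ψ ∘ X) = 0 := h2
    rw [h3]
    exact hP
  have h2 : mI (0 : σ → ℂ) ∈ (Ideal.span (s : Set (MvPolynomial σ ℂ))).minimalPrimes := by
    refine ⟨⟨inferInstance, Ideal.span_le.2 ?_⟩, ?_⟩
    · intro P hP
      obtain ⟨k, -, rfl⟩ := Finset.mem_image.1 hP
      exact h0 k
    · rintro q ⟨hq1, hq2⟩ -
      exact h1.trans (hq1.radical_le_iff.2 hq2)
  have h3 : (mI (0 : σ → ℂ)).height ≤ Fintype.card κ :=
    (Ideal.height_le_card_of_mem_minimalPrimes_span_finset h2).trans (by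
      exact_mod_cast Finset.card_image_le)
  have h4 : ringKrullDim (MvPolynomial σ ℂ) ≤ (Fintype.card κ : ℕ∞) := by
    rw [ringKrullDim_le_iff_isMaximal_height_le]
    intro m hm
    obtain ⟨ψ, hψ⟩ := exists_point_of_isMaximal m
    let t : MvPolynomial σ ℂ ≃ₐ[ℂ] MvPolynomial σ ℂ := AlgEquiv.ofAlgHom
      (aeval fun i => X i + C (ψ (X i))) (aeval fun i => X i - C (ψ (X i)))
      (by ext i : 1; simp) (by ext i : 1; simp)
    have h5 : m = (mI (0 : σ → ℂ)).comap t.toRingEquiv := by
      ext P
      rw [← hψ, Ideal.mem_comap, mem_mI]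
      have : (aeval (0 : σ → ℂ) : MvPolynomial σ ℂ →ₐ[ℂ] ℂ).comp (t : _ →ₐ[ℂ] _) = ψ := by
        ext i : 1
        simp [t]
      rw [← this]
      rfl
    rw [h5, RingEquiv.height_comap]
    exact_mod_cast h3
  rw [MvPolynomial.ringKrullDim_of_isNoetherianRing, ringKrullDim_eq_zero_of_field, zero_add,
    Nat.card_eq_fintype_card] at h4
  have h5 : Fintype.card σ ≤ Fintype.card κ := by exact_mod_cast h4
  omega

/-- a valuation subring containing the complex numbers -/
class OverC {Ω : Type} [Field Ω] [Algebra ℂ Ω] (O : ValuationSubring Ω) : Prop where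
  mem : ∀ z : ℂ, algebraMap ℂ Ω z ∈ O

section

variable {Ω : Type} [Field Ω] [Algebra ℂ Ω] (O : ValuationSubring Ω) [OverC O]

noncomputable instance algO : Algebra ℂ O :=
  ((algebraMap ℂ Ω).codRestrict O OverC.mem).toAlgebra

instance : IsScalarTower ℂ O Ω := IsScalarTower.of_algebraMap_eq fun _ => rfl

/-- inclusion -/
noncomputable def incO : O →ₐ[ℂ] Ω := IsScalarTower.toAlgHom ℂ O Ω

@[simp] lemma incO_apply (x : O) : incO O x = x := rfl

/-- residue map -/
noncomputable def resO : O →ₐ[ℂ] IsLocalRing.ResidueField O :=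
  IsScalarTower.toAlgHom ℂ O (IsLocalRing.ResidueField O)

lemma resO_eq_zero (x : O) : resO O x = 0 ↔ O.valuation x < 1 :=
  (IsLocalRing.residue_eq_zero_iff x).trans (O.valuation_lt_one_iff x)

lemma resO_ne_zero (x : O) : resO O x ≠ 0 ↔ O.valuation x = 1 := by
  rw [ne_eq, resO_eq_zero, not_lt]
  exact ⟨fun h => le_antisymm (O.valuation_le_one x) h, fun h => h.ge⟩

lemma valuation_algebraMap {z : ℂ} (hz : z ≠ 0) : O.valuation (algebraMap ℂ Ω z) = 1 := by
  have := (resO_ne_zero O (algebraMap ℂ O z)).1 (by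
    rw [AlgHom.commutes]; exact (map_ne_zero _).2 hz)
  exact this

lemma valuation_natCast {n : ℕ} (hn : n ≠ 0) : O.valuation (n : Ω) = 1 := by
  have := valuation_algebraMap O (z := n) (by exact_mod_cast hn)
  rwa [map_natCast] at this

end

end Pool.Agent.P.MP_f4e0a3_ag
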