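import Mathlib
import Pool.Agent.P.MP_f4e0a3_ag.Dim
import Pool.Agent.P.MP_f4e0a3_ag.Forms

/-!
Existence of the resultant and its semi-invariance.
-/

open MvPolynomial Matrix

set_option linter.unusedSectionVars false

namespace Pool.Agent.P.MP_f4e0a3_ag

variable {σ : Type} [Fintype σ] [DecidableEq σ] {e : ℕ}
variable {R S : Type} [CommRing R] [CommRing S]

/-- the tuple has a nontrivial common zero -/
def HasZero (w : σ × Mon σ e → R) : Prop :=
  ∃ x : σ → R, x ≠ 0 ∧ ∀ i, eval x (tup w i) = 0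

variable (e) in
/-- pure powers -/
noncomputable def pw (j : σ) : Mon σ e := ⟨Finsupp.single j e, Finsupp.degree_single j e⟩

variable (σ e R) in
/-- the Fermat tuple -/
noncomputable def fermat : σ × Mon σ e → R := fun p => if p.2 = pw e p.1 then 1 else 0

lemma map_fermat (φ : R →+* S) : (fun p => φ (fermat σ e R p)) = fermat σ e S := by
  funext p
  by_cases h : p.2 = pw e p.1 <;> simp [fermat, h]

lemma eval_tup (w : σ × Mon σ e → R) (x : σ → R) (i : σ) :
    eval x (tup w i) = ∑ β : Mon σ e, w (i, β) * ∏ j, x j ^ β.1 j := eval_frm _ _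

lemma prod_pow_pw (x : σ → R) (i : σ) : ∏ j, x j ^ (pw e i).1 j = x i ^ e := by
  rw [Finset.prod_eq_single i]
  · simp [pw]
  · intro j _ hj
    simp [pw, Finsupp.single_eq_of_ne hj]
  · simp

lemma eval_fermat (x : σ → R) (i : σ) : eval x (tup (fermat σ e R) i) = x i ^ e := by
  rw [eval_tup, Finset.sum_eq_single (pw e i)]
  · simp [fermat, prod_pow_pw]
  · intro β _ hβ
    simp [fermat, hβ]
  · simp

lemma prod_smul_pow (c : R) (x : σ → R) (β : Mon σ e) :
    ∏ j, (c * x j) ^ β.1 j = c ^ e * ∏ j, x j ^ β.1 j := by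
  simp only [mul_pow, Finset.prod_mul_distrib, Finset.prod_pow_eq_pow_sum]
  rw [← Finsupp.degree_eq_sum, β.2]

lemma eval_smul_tup (w : σ × Mon σ e → R) (c : R) (x : σ → R) (i : σ) :
    eval (c • x) (tup w i) = c ^ e * eval x (tup w i) := by
  simp only [eval_tup, Pi.smul_apply, smul_eq_mul, prod_smul_pow, Finset.mul_sum]
  exact Finset.sum_congr rfl fun β _ => by ring

lemma eval_single_tup (w : σ × Mon σ e → R) (j i : σ) :
    eval (Pi.single j 1) (tup w i) = w (i, pw e j) := by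
  rw [eval_tup, Finset.sum_eq_single (pw e j)]
  · simp [prod_pow_pw]
  · intro β _ hβ
    have : ∃ k, k ≠ j ∧ β.1 k ≠ 0 := by
      by_contra h
      push Not at h
      apply hβ
      apply Subtype.ext
      have h1 : β.1 = Finsupp.single j (β.1 j) := by
        ext k
        by_cases hk : k = j
        · simp [hk]
        · simp [h k hk, Finsupp.single_eq_of_ne hk]
      have h2 := β.2
      rw [h1, Finsupp.degree_single] at h2
      rw [h1, h2]; rfl
    obtain ⟨k, hk1, hk2⟩ := this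
    rw [Finset.prod_eq_zero (Finset.mem_univ k), mul_zero]
    simp [hk1, hk2]
  · simp

lemma map_eval_tup (φ : R →+* S) (w : σ × Mon σ e → R) (x : σ → R) (i : σ) :
    φ (eval x (tup w i)) = eval (fun j => φ (x j)) (tup (fun p => φ (w p)) i) := by
  simp [eval_tup]

lemma eval_lin0 (a g : Matrix σ σ R) (w : σ × Mon σ e → R) (x : σ → R) (j : σ) :
    eval x (tup (lin0 a g w) j) = ∑ i, a i j * eval (g *ᵥ x) (tup w i) := by
  rw [tup_lin0, eval_act2]

lemma HasZero.lin0 {w : σ × Mon σ e → R} (hw : HasZero w) (a : Matrix σ σ R) (g : GL σ R) :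
    HasZero (lin0 a g.val w) := by
  obtain ⟨x, hx, h⟩ := hw
  refine ⟨(g⁻¹).val *ᵥ x, fun h0 => hx ?_, fun i => ?_⟩
  · have := congrArg (fun y => g.val *ᵥ y) h0
    simpa [mulVec_mulVec] using this
  · simp [eval_lin0, mulVec_mulVec, h]

lemma exists_GL_col {k : Type} [Field k] (x : σ → k) (hx : x ≠ 0) (i₀ : σ) :
    ∃ g : GL σ k, g.val *ᵥ Pi.single i₀ 1 = x := by
  obtain ⟨j, hj⟩ := Function.ne_iff.1 hx
  let g : Matrix σ σ k := ((1 : Matrix σ σ k).updateCol j x).submatrix id (Equiv.swap i₀ j)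
  have hg : g.det ≠ 0 := by
    rw [det_permute', ← Matrix.cramer_apply, Matrix.cramer_one]
    refine mul_ne_zero ?_ hj
    rcases Int.units_eq_one_or (Equiv.Perm.sign (Equiv.swap i₀ j)) with h | h <;> simp [h]
  refine ⟨Matrix.GeneralLinearGroup.mkOfDetNeZero g hg, ?_⟩
  funext i
  simp [g]

variable [Nonempty σ]

variable (σ) in
/-- a chosen index -/
noncomputable def i0 : σ := Classical.arbitrary σ

variable (σ e) in
/-- the generic tuple with a common zero -/
noncomputable def wgen : σ × Mon σ e → MvPolynomial ((σ × Mon σ e) ⊕ (σ × σ)) ℂ :=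
  lin0 1 (Matrix.of fun i j => X (Sum.inr (i, j)))
    (fun p => if p.2 = pw e (i0 σ) then 0 else X (Sum.inl p))

lemma exists_spec_wgen {k : Type} [Field k] [Algebra ℂ k] {w : σ × Mon σ e → k}
    (hw : HasZero w) : ∃ ψ : MvPolynomial ((σ × Mon σ e) ⊕ (σ × σ)) ℂ →ₐ[ℂ] k,
      (fun p => ψ (wgen σ e p)) = w := by
  obtain ⟨x, hx, h⟩ := hw
  obtain ⟨g, hg⟩ := exists_GL_col x hx (i0 σ)
  let w' := lin0 1 g.val w
  have hw' : ∀ i, w' (i, pw e (i0 σ)) = 0 := by
    intro i
    rw [← eval_single_tup w', eval_lin0, hg]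
    simp [h]
  let ψ : MvPolynomial ((σ × Mon σ e) ⊕ (σ × σ)) ℂ →ₐ[ℂ] k :=
    aeval (Sum.elim w' fun q => (g⁻¹).val q.1 q.2)
  refine ⟨ψ, ?_⟩
  have h1 := map_lin0 (ψ : MvPolynomial ((σ × Mon σ e) ⊕ (σ × σ)) ℂ →+* k) 1 (Matrix.of fun i j => X (Sum.inr (i, j)))
    (fun p : σ × Mon σ e => if p.2 = pw e (i0 σ) then 0 else X (Sum.inl p))
  refine h1.trans ?_
  have h2 : (Matrix.of fun i j : σ => (X (Sum.inr (i, j)) :
      MvPolynomial ((σ × Mon σ e) ⊕ (σ × σ)) ℂ)).map
      (ψ : MvPolynomial ((σ × Mon σ e) ⊕ (σ × σ)) ℂ →+* k) = (g⁻¹).val := by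
    ext i j; simp [ψ]
  have h3 : (fun p : σ × Mon σ e => (ψ : MvPolynomial ((σ × Mon σ e) ⊕ (σ × σ)) ℂ →+* k)
      (if p.2 = pw e (i0 σ) then 0 else X (Sum.inl p))) = w' := by
    funext p
    split_ifs with hp
    · rw [map_zero, ← hw' p.1, ← hp]
    · simp [ψ]
  rw [h2, h3, lin0_lin0]
  simp

variable [Fact (2 ≤ e)]

lemma e_pos : 0 < e := lt_of_lt_of_le two_pos (Fact.out : 2 ≤ e)

lemma hasZero_wgen {k : Type} [Field k] (φ : MvPolynomial ((σ × Mon σ e) ⊕ (σ × σ)) ℂ →+* k) :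
    HasZero (fun p => φ (wgen σ e p)) := by
  have h1 := map_lin0 φ 1 (Matrix.of fun i j => X (Sum.inr (i, j)))
    (fun p : σ × Mon σ e => if p.2 = pw e (i0 σ) then 0 else X (Sum.inl p))
  rw [wgen, h1]
  set g := (Matrix.of fun i j : σ => (X (Sum.inr (i, j)) :
      MvPolynomial ((σ × Mon σ e) ⊕ (σ × σ)) ℂ)).map φ
  set w : σ × Mon σ e → k := fun p => φ (if p.2 = pw e (i0 σ) then 0 else X (Sum.inl p))
  have hw : ∀ i (c : k), eval (c • Pi.single (i0 σ) 1) (tup w i) = 0 := by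
    intro i c
    rw [eval_smul_tup, eval_single_tup]
    simp [w]
  have : ∃ x : σ → k, x ≠ 0 ∧ ∃ c : k, g *ᵥ x = c • Pi.single (i0 σ) 1 := by
    by_cases hg : g.det = 0
    · obtain ⟨x, hx, hx0⟩ := Matrix.exists_mulVec_eq_zero_iff.2 hg
      exact ⟨x, hx, 0, by simp [hx0]⟩
    · refine ⟨g⁻¹ *ᵥ Pi.single (i0 σ) 1, fun h0 => ?_, 1, ?_⟩
      · have := congrArg (fun y => g *ᵥ y) h0
        simp only [mulVec_mulVec, mul_nonsing_inv _ (Ne.isUnit hg), one_mulVec, mulVec_zero] at this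
        simpa using congrFun this (i0 σ)
      · rw [mulVec_mulVec, mul_nonsing_inv _ (Ne.isUnit hg), one_mulVec, one_smul]
  obtain ⟨x, hx, c, hc⟩ := this
  exact ⟨x, hx, fun i => by simp [eval_lin0, hc, hw]⟩

variable (σ e) in
/-- the ideal of tuples with a common zero -/
noncomputable def resI : Ideal (MvPolynomial (σ × Mon σ e) ℂ) :=
  RingHom.ker (aeval (wgen σ e) : MvPolynomial (σ × Mon σ e) ℂ →ₐ[ℂ] _)

instance : (resI σ e).IsPrime := RingHom.ker_isPrime _

lemma aeval_eq_zero_of_mem_resI {k : Type} [Field k] [Algebra ℂ k] {w : σ × Mon σ e → k}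
    (hw : HasZero w) {P : MvPolynomial (σ × Mon σ e) ℂ} (hP : P ∈ resI σ e) : aeval w P = 0 := by
  obtain ⟨ψ, rfl⟩ := exists_spec_wgen hw
  rw [← comp_aeval, AlgHom.comp_apply, show aeval (wgen σ e) P = 0 from hP, map_zero]

lemma mem_resI {P : MvPolynomial (σ × Mon σ e) ℂ}
    (h : ∀ w : σ × Mon σ e → ℂ, HasZero w → aeval w P = 0) : P ∈ resI σ e := by
  show aeval (wgen σ e) P = 0
  apply eq_zero_of_forall_point
  intro ψ
  rw [← AlgHom.comp_apply, comp_aeval]
  exact h _ (hasZero_wgen (ψ : MvPolynomial ((σ × Mon σ e) ⊕ (σ × σ)) ℂ →+* ℂ))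

lemma exists_primitive {Ω : Type} [Field Ω] (O : ValuationSubring Ω) (x : σ → Ω) (hx : x ≠ 0) :
    ∃ (j : σ) (y : σ → O), y j = 1 ∧ x j ≠ 0 ∧ x = x j • fun i => (y i : Ω) := by
  obtain ⟨j, -, hj⟩ := Finset.exists_max_image Finset.univ (fun i => O.valuation (x i))
    Finset.univ_nonempty
  have hj0 : x j ≠ 0 := by
    intro h0
    apply hx
    funext i
    have := hj i (Finset.mem_univ i)
    rw [h0, map_zero, le_zero_iff, map_eq_zero] at this
    exact this
  have hm : ∀ i, x i / x j ∈ O := by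
    intro i
    rw [← O.valuation_le_one_iff, map_div₀]
    exact div_le_one_of_le₀ (hj i (Finset.mem_univ i)) zero_le
  refine ⟨j, fun i => ⟨_, hm i⟩, Subtype.ext (div_self hj0), hj0, ?_⟩
  funext i
  simp [mul_div_cancel₀ _ hj0]

lemma hasZero_of_field {k : Type} [Field k] [Algebra ℂ k] {w : σ × Mon σ e → ℂ}
    (h : HasZero (fun p => algebraMap ℂ k (w p))) : HasZero w := by
  obtain ⟨x, hx, h⟩ := h
  obtain ⟨j, hj⟩ := Function.ne_iff.1 hx
  obtain ⟨ψ, h1, h2⟩ := exists_point_of_hom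
    ((aeval x : MvPolynomial σ ℂ →ₐ[ℂ] k) : MvPolynomial σ ℂ →+* k) (X j) (by simpa using hj)
  refine ⟨fun i => ψ (X i), Function.ne_iff.2 ⟨j, h2⟩, fun i => ?_⟩
  have h3 := h1 (tup w i) (by
    rw [← h i, ← map_tup, RingHom.coe_coe, ← aeval_map_algebraMap k]; rfl)
  rw [aeval_unique ψ] at h3
  exact h3

lemma hasZero_residue {Ω : Type} [Field Ω] [Algebra ℂ Ω] (O : ValuationSubring Ω) [OverC O]
    {w : σ × Mon σ e → O} (h : HasZero (fun p => (w p : Ω))) : HasZero (fun p => resO O (w p)) := by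
  obtain ⟨x, hx, h⟩ := h
  obtain ⟨j, y, hy, hj, hxy⟩ := exists_primitive O x hx
  refine ⟨fun i => resO O (y i), Function.ne_iff.2 ⟨j, by simp [hy]⟩, fun i => ?_⟩
  have h1 := h i
  rw [hxy, eval_smul_tup, mul_eq_zero] at h1
  have h2 := h1.resolve_left (pow_ne_zero _ hj)
  have h3 := map_eval_tup (incO O : O →+* Ω) w y i
  have h4 : eval y (tup w i) = 0 := Subtype.ext (h3.trans h2)
  have h5 := map_eval_tup (resO O : O →+* IsLocalRing.ResidueField O) w y i
  rw [h4, map_zero] at h5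
  exact h5.symm

lemma hasZero_of_resI {w : σ × Mon σ e → ℂ} (h : ∀ P ∈ resI σ e, aeval w P = 0) : HasZero w := by
  let A := MvPolynomial ((σ × Mon σ e) ⊕ (σ × σ)) ℂ
  let Ω := FractionRing A
  let j : A →ₐ[ℂ] Ω := IsScalarTower.toAlgHom ℂ A Ω
  obtain ⟨O, h1, h2⟩ := exists_valuation
    (j.comp (aeval (wgen σ e)) : MvPolynomial (σ × Mon σ e) ℂ →+* Ω) (mI w) (by
    intro x hx hx1
    have h3 : aeval (wgen σ e) (x - 1) = 0 := by
      apply IsFractionRing.injective A Ω
      rw [map_sub, map_sub, map_one, map_one, map_zero]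
      exact sub_eq_zero.2 hx1
    have h4 := h _ h3
    rw [map_sub, show aeval w x = 0 from hx] at h4
    simp at h4)
  have : OverC O := ⟨fun z => by
    have := h1 (C z)
    rwa [RingHom.coe_coe, ← algebraMap_eq, AlgHom.commutes] at this⟩
  let w' : σ × Mon σ e → O := fun p => ⟨_, h1 (X p)⟩
  have h3 : HasZero (fun p => (w' p : Ω)) := by
    have := hasZero_wgen (e := e) (j : A →+* Ω)
    simpa [w'] using this
  have h4 := hasZero_residue O h3
  apply hasZero_of_field (k := IsLocalRing.ResidueField O)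
  suffices h5 : (fun p => algebraMap ℂ (IsLocalRing.ResidueField O) (w p)) =
      fun p => resO O (w' p) by rw [h5]; exact h4
  funext p
  rw [← (resO O).commutes, eq_comm, ← sub_eq_zero, ← map_sub, resO_eq_zero]
  have := h2 (X p - C (w p)) (by simp [mem_mI])
  rw [RingHom.coe_coe, map_sub, ← algebraMap_eq, AlgHom.commutes] at this
  exact this

lemma not_hasZero_fermat {k : Type} [Field k] : ¬ HasZero (fermat σ e k) := by
  rintro ⟨x, hx, h⟩
  apply hx
  funext i
  have := h i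
  rw [eval_fermat] at this
  exact pow_eq_zero_iff e_pos.ne' |>.1 this

lemma eval_zero_tup (w : σ × Mon σ e → R) (i : σ) : eval 0 (tup w i) = 0 := by
  have := eval_smul_tup w 0 0 i
  rwa [zero_pow e_pos.ne', zero_mul, zero_smul] at this

lemma exists_zero_except (w : σ × Mon σ e → ℂ) (i₀ : σ) :
    ∃ x : σ → ℂ, x ≠ 0 ∧ ∀ i, i ≠ i₀ → eval x (tup w i) = 0 := by
  obtain ⟨x, hx, h⟩ := exists_common_zero (κ := {i // i ≠ i₀}) (fun i => tup w i.1)
    (fun i => eval_zero_tup w i.1) (by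
      exact Fintype.card_subtype_lt (x := i₀) (by simp))
  exact ⟨x, hx, fun i hi => h ⟨i, hi⟩⟩

lemma resI_isPrincipal : (resI σ e).IsPrincipal := by
  obtain ⟨P₀, hP₀, hP₁⟩ : ∃ P₀ ∈ resI σ e, aeval (fermat σ e ℂ) P₀ ≠ 0 := by
    by_contra h
    push Not at h
    exact not_hasZero_fermat (hasZero_of_resI h)
  apply principal_of_disjoint _ (i0 σ, pw e (i0 σ))
  · intro h
    rw [h, Ideal.mem_bot] at hP₀
    simp [hP₀] at hP₁
  intro q hq
  let sh : ∀ {T : Type} [CommRing T], (σ × Mon σ e → T) → (σ × Mon σ e → T) :=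
    fun {T} _ w p => if p.1 = i0 σ then fermat σ e T p else w p
  let P₁ : MvPolynomial (σ × Mon σ e) ℂ := aeval (sh X) P₀
  have hP : ∀ w : σ × Mon σ e → ℂ, aeval w P₁ = aeval (sh w) P₀ := by
    intro w
    rw [← AlgHom.comp_apply, comp_aeval]
    congr 2
    funext p
    simp only [sh, fermat]
    split_ifs <;> simp
  have h1 : P₁ ≠ 0 := by
    intro h
    apply hP₁
    have := hP (fermat σ e ℂ)
    rw [h, map_zero] at this
    rw [this]
    simp [sh]
  have h2 : rename Subtype.val q * P₁ = 0 := by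
    apply MvPolynomial.funext
    intro w
    rw [map_zero, map_mul]
    obtain ⟨x, hx, hz⟩ := exists_zero_except w (i0 σ)
    by_cases hx0 : x (i0 σ) = 0
    · have h3 : HasZero (sh w) := ⟨x, hx, fun i => by
        by_cases hi : i = i0 σ
        · have : tup (sh w) i = tup (fermat σ e ℂ) i := by simp [tup, sh, hi]
          rw [this, eval_fermat, hi, hx0, zero_pow e_pos.ne']
        · have : tup (sh w) i = tup w i := by simp [tup, sh, hi]
          rw [this, hz i hi]⟩
      have h4 := aeval_eq_zero_of_mem_resI h3 hP₀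
      rw [← hP] at h4
      exact mul_eq_zero_of_right _ h4
    · let c := eval x (tup w (i0 σ)) / x (i0 σ) ^ e
      let w' : σ × Mon σ e → ℂ := w - c • Pi.single (i0 σ, pw e (i0 σ)) 1
      have h3 : HasZero w' := ⟨x, hx, fun i => by
        by_cases hi : i = i0 σ
        · have h5 : eval x (tup w' i) = eval x (tup w i) - c * x (i0 σ) ^ e := by
            simp only [eval_tup, w', Pi.sub_apply, Pi.smul_apply, smul_eq_mul, sub_mul,
              Finset.sum_sub_distrib]
            congr 1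
            rw [Finset.sum_eq_single (pw e (i0 σ))]
            · simp [hi, prod_pow_pw]
            · intro β _ hβ
              simp [hβ]
            · simp
          rw [h5, hi, div_mul_cancel₀ _ (pow_ne_zero _ hx0), sub_self]
        · have : tup w' i = tup w i := by simp [tup, w', hi]
          rw [this, hz i hi]⟩
      have h4 := aeval_eq_zero_of_mem_resI h3 hq
      apply mul_eq_zero_of_left
      rw [aeval_rename] at h4
      rw [eval_rename]
      have h5 : w ∘ (Subtype.val : {i // i ≠ (i0 σ, pw e (i0 σ))} → _) = w' ∘ Subtype.val := by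
        funext p
        simp [w', Pi.single_eq_of_ne p.2]
      rw [h5]
      exact h4
  have h3 := (mul_eq_zero.1 h2).resolve_right h1
  exact rename_injective _ Subtype.val_injective (by rw [h3, map_zero])

lemma exists_res : ∃ Res : MvPolynomial (σ × Mon σ e) ℂ,
    resI σ e = Ideal.span {Res} ∧ aeval (fermat σ e ℂ) Res = 1 := by
  obtain ⟨r, hr⟩ := resI_isPrincipal (σ := σ) (e := e)
  have hr' : resI σ e = Ideal.span {r} := hr
  have h1 : aeval (fermat σ e ℂ) r ≠ 0 := by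
    intro h
    apply not_hasZero_fermat (hasZero_of_resI (w := fermat σ e ℂ) _)
    intro P hP
    rw [hr', Ideal.mem_span_singleton] at hP
    obtain ⟨c, rfl⟩ := hP
    rw [map_mul, h, zero_mul]
  refine ⟨C (aeval (fermat σ e ℂ) r)⁻¹ * r, ?_, ?_⟩
  · rw [hr', Ideal.span_singleton_mul_left_unit]
    exact (IsUnit.mk0 _ (inv_ne_zero h1)).map C
  · rw [map_mul, aeval_C]
    exact inv_mul_cancel₀ h1

variable (σ e) in
/-- the resultant -/
noncomputable def Res : MvPolynomial (σ × Mon σ e) ℂ := (exists_res (σ := σ) (e := e)).choose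

lemma resI_eq : resI σ e = Ideal.span {Res σ e} := (exists_res (σ := σ) (e := e)).choose_spec.1

lemma res_fermat [Algebra ℂ R] : aeval (fermat σ e R) (Res σ e) = 1 := by
  have h : aeval (fermat σ e ℂ) (Res σ e) = 1 := (exists_res (σ := σ) (e := e)).choose_spec.2
  rw [← map_fermat (algebraMap ℂ R), ← map_one (Algebra.ofId ℂ R), ← h, ← AlgHom.comp_apply,
    comp_aeval]
  rfl

lemma HasZero.res {k : Type} [Field k] [Algebra ℂ k] {w : σ × Mon σ e → k}
    (hw : HasZero w) : aeval w (Res σ e) = 0 :=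
  aeval_eq_zero_of_mem_resI hw (resI_eq (σ := σ) (e := e) ▸ Ideal.mem_span_singleton_self _)

lemma hasZero_of_res {w : σ × Mon σ e → ℂ} (h : aeval w (Res σ e) = 0) : HasZero w := by
  apply hasZero_of_resI
  intro P hP
  rw [resI_eq, Ideal.mem_span_singleton] at hP
  obtain ⟨c, rfl⟩ := hP
  rw [map_mul, h, zero_mul]

variable (e) in
/-- the character of the resultant -/
noncomputable def chi [Algebra ℂ R] (γ : Gr Bool σ R) : R :=
  aeval ((rep0 σ e).pt (fermat σ e R) γ) (Res σ e)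

lemma map_chi [Algebra ℂ R] [Algebra ℂ S] (φ : R →ₐ[ℂ] S) (γ : Gr Bool σ R) :
    φ (chi e γ) = chi e (mapG (φ : R →+* S) γ) := by
  rw [chi, ← AlgHom.comp_apply, comp_aeval, Rep.map_pt, chi]
  congr 3
  exact map_fermat (φ : R →+* S)

lemma gact_res (γ : Gr Bool σ ℂ) :
    (rep0 σ e).gact γ (Res σ e) = C (chi e γ) * Res σ e := by
  have h1 : ∀ γ : Gr Bool σ ℂ, Res σ e ∣ (rep0 σ e).gact γ (Res σ e) := by
    intro γ
    rw [← Ideal.mem_span_singleton, ← resI_eq]
    apply mem_resI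
    intro w hw
    rw [Rep.aeval_act, pt_rep0]
    exact (hw.lin0 _ _).res
  obtain ⟨c, hc⟩ := h1 γ
  obtain ⟨c', hc'⟩ := h1 γ⁻¹
  have h0 : Res σ e ≠ 0 := by
    intro h
    have := res_fermat (σ := σ) (e := e) (R := ℂ)
    rw [h] at this
    simp at this
  have h2 := congrArg ((rep0 σ e).gact γ) hc'
  rw [Rep.act_act_inv, map_mul, hc, mul_assoc] at h2
  have h3 : c * (rep0 σ e).gact γ c' = 1 := mul_left_cancel₀ h0 (by rw [← h2, mul_one])
  obtain ⟨a, -, rfl⟩ := isUnit_iff_eq_C_of_isReduced.1 (IsUnit.of_mul_eq_one _ h3)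
  have h4 := congrArg (aeval (fermat σ e ℂ)) hc
  rw [Rep.aeval_act, map_mul, res_fermat, one_mul, aeval_C] at h4
  rw [hc, chi, h4, mul_comm]; rfl

lemma res_pt [Algebra ℂ R] (w : σ × Mon σ e → R) (γ : Gr Bool σ R) :
    aeval ((rep0 σ e).pt w γ) (Res σ e) = chi e γ * aeval w (Res σ e) := by
  have h1 : (rep0 σ e).gact (genG Bool σ ℂ) (Res σ e) =
      C (chi e (genG Bool σ ℂ)) * MvPolynomial.map (algebraMap ℂ _) (Res σ e) := by
    ext β
    rw [← sub_eq_zero]
    apply CG_eq_zero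
    intro γ
    rw [map_sub, ← Rep.coeff_gact, gact_res, coeff_C_mul, coeff_C_mul, map_mul, map_chi, mapG_evG,
      coeff_map, AlgHom.commutes]
    simp
  have h2 := (rep0 σ e).aeval_gact γ w (Res σ e)
  rw [Rep.gact_eq_map, h1, map_mul, map_C, MvPolynomial.map_map, RingHom.coe_coe, map_chi, mapG_evG,
    (evG ℂ γ).comp_algebraMap, map_mul, aeval_map_algebraMap, aeval_C] at h2
  exact h2.symm

lemma chi_mul [Algebra ℂ R] (γ δ : Gr Bool σ R) : chi e (γ * δ) = chi e δ * chi e γ := by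
  rw [chi, Rep.pt_mul, res_pt]; rfl

@[simp] lemma chi_one [Algebra ℂ R] : chi e (1 : Gr Bool σ R) = 1 := by
  rw [chi, Rep.pt_one, res_fermat]

lemma chi_inv_mul [Algebra ℂ R] (γ : Gr Bool σ R) : chi e γ⁻¹ * chi e γ = 1 := by
  rw [← chi_mul]; simp

end Pool.Agent.P.MP_f4e0a3_ag
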