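import Mathlib

/-!
Smith normal form over a valuation ring.
-/

open Matrix

namespace Pool.Agent.P.MP_f4e0a3_ag

variable {σ : Type} [Fintype σ] [DecidableEq σ]

/-- elementary unipotent matrices -/
def elemU {R : Type} [CommRing R] (a b : σ → R) (h : b ⬝ᵥ a = 0) : GL σ R where
  val := 1 - vecMulVec a b
  inv := 1 + vecMulVec a b
  val_inv := by
    rw [sub_mul, one_mul, mul_add, mul_one, vecMulVec_mul_vecMulVec, h]; simp
  inv_val := by
    rw [add_mul, one_mul, mul_sub, mul_one, vecMulVec_mul_vecMulVec, h]; simp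

/-- invertible diagonal matrices -/
def diagU {R : Type} [CommRing R] (u : σ → Rˣ) : GL σ R where
  val := diagonal fun i => u i
  inv := diagonal fun i => ((u i)⁻¹ : Rˣ)
  val_inv := by rw [diagonal_mul_diagonal]; simp
  inv_val := by rw [diagonal_mul_diagonal]; simp

lemma diagU_val {R : Type} [CommRing R] (u : σ → Rˣ) :
    (diagU u).val = diagonal fun i => (u i : R) := rfl

variable {Ω : Type} [Field Ω] (O : ValuationSubring Ω)

lemma smith_aux (n : ℕ) : ∀ (s : Finset σ) (_ : s.card = n) (B : Matrix σ σ Ω)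
    (_ : ∀ i j, i ≠ j → (i ∉ s ∨ j ∉ s) → B i j = 0),
    ∃ P Q : GL σ O, (P.val.map O.subtype * B * Q.val.map O.subtype).IsDiag := by
  induction n with
  | zero =>
    intro s hs B hB
    rw [Finset.card_eq_zero] at hs
    refine ⟨1, 1, ?_⟩
    intro i j hij
    simpa using hB i j hij (by simp [hs])
  | succ n ih =>
    intro s hs B hB
    have hne : (s ×ˢ s).Nonempty := by
      have : s.Nonempty := Finset.card_pos.1 (by omega)
      exact this.product this
    obtain ⟨⟨i₀, j₀⟩, h0, hmax⟩ := Finset.exists_max_image (s ×ˢ s)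
      (fun p => O.valuation (B p.1 p.2)) hne
    rw [Finset.mem_product] at h0
    by_cases hp : B i₀ j₀ = 0
    · refine ⟨1, 1, ?_⟩
      intro i j hij
      by_cases h : i ∈ s ∧ j ∈ s
      · have := hmax (i, j) (Finset.mem_product.2 h)
        simp only [hp, map_zero, le_zero_iff, map_eq_zero] at this
        simpa using this
      · simpa using hB i j hij (by tauto)
    let B₁ : Matrix σ σ Ω := B.submatrix id (Equiv.swap i₀ j₀)
    have hsw : ∀ j, Equiv.swap i₀ j₀ j ∈ s ↔ j ∈ s := by
      intro j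
      rw [Equiv.swap_apply_def]
      split_ifs with h1 h2
      · simp [h1, h0.1, h0.2]
      · simp [h2, h0.1, h0.2]
      · rfl
    have hB₁ : ∀ i j, i ≠ j → (i ∉ s ∨ j ∉ s) → B₁ i j = 0 := by
      intro i j hij h
      by_cases hj : j ∈ s
      · have hi : i ∉ s := by tauto
        exact hB i _ (fun h' => hi (h' ▸ (hsw j).2 hj)) (Or.inl hi)
      · have : Equiv.swap i₀ j₀ j = j :=
          Equiv.swap_apply_of_ne_of_ne (fun h' => hj (h' ▸ h0.1)) (fun h' => hj (h' ▸ h0.2))
        show B i (Equiv.swap i₀ j₀ j) = 0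
        rw [this]
        exact hB i j hij (Or.inr hj)
    have hp₁ : B₁ i₀ i₀ = B i₀ j₀ := by simp [B₁]
    have hle : ∀ i j, (i = i₀ ∨ j = i₀) → B₁ i j / B₁ i₀ i₀ ∈ O := by
      intro i j hij
      rw [← O.valuation_le_one_iff, map_div₀, hp₁]
      refine div_le_one_of_le₀ ?_ zero_le
      by_cases h : i ∈ s ∧ j ∈ s
      · exact hmax (i, Equiv.swap i₀ j₀ j) (Finset.mem_product.2 ⟨h.1, (hsw j).2 h.2⟩)
      · rw [hB₁ i j _ (by tauto)]
        · simp
        · rintro rfl
          apply h
          rcases hij with rfl | rfl <;> exact ⟨h0.1, h0.1⟩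
    let a : σ → O := fun i => if i = i₀ then 0 else ⟨_, hle i i₀ (Or.inr rfl)⟩
    let b : σ → O := fun j => if j = i₀ then 0 else ⟨_, hle i₀ j (Or.inl rfl)⟩
    let P₁ : GL σ O := elemU a (Pi.single i₀ 1) (by simp [a])
    let Q₁ : GL σ O := elemU (Pi.single i₀ 1) b (by simp [b])
    let Q₀ : GL σ O := Matrix.GeneralLinearGroup.mk'' ((Equiv.swap i₀ j₀).permMatrix O) (by
      rw [det_permutation]
      exact (Units.isUnit _).map (Int.castRingHom O))
    have hQ₀ : B * Q₀.val.map O.subtype = B₁ := by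
      have : Q₀.val.map O.subtype = (Equiv.swap i₀ j₀).permMatrix Ω := by
        ext i j
        simp [Q₀, Equiv.Perm.permMatrix, PEquiv.toMatrix_apply, apply_ite]
      rw [this, Equiv.Perm.permMatrix, PEquiv.mul_toMatrix_toPEquiv]
      rfl
    let B₂ : Matrix σ σ Ω := P₁.val.map O.subtype * B₁ * Q₁.val.map O.subtype
    have hE : ∀ (x y : σ → O) (h : y ⬝ᵥ x = 0), (elemU x y h).val.map O.subtype =
        1 - vecMulVec (fun i => (x i : Ω)) (fun i => (y i : Ω)) := by
      intro x y h
      ext i j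
      by_cases hij : i = j <;> simp [elemU, vecMulVec_apply, hij]
    have hs1 : (fun i => ((Pi.single i₀ 1 : σ → O) i : Ω)) = Pi.single i₀ 1 := by
      funext i
      by_cases hi : i = i₀ <;> simp [hi]
    have hP₁ : ∀ i j, (P₁.val.map O.subtype * B₁) i j = B₁ i j - a i * B₁ i₀ j := by
      intro i j
      rw [hE, hs1, sub_mul, one_mul, vecMulVec_mul, single_one_vecMul]
      rfl
    have hB₂ : ∀ i j, B₂ i j = (B₁ i j - a i * B₁ i₀ j) - (B₁ i i₀ - a i * B₁ i₀ i₀) * b j := by
      intro i j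
      rw [← hP₁, ← hP₁]
      simp only [B₂, Q₁]
      rw [hE (Pi.single i₀ 1), hs1, mul_sub, mul_one, mul_vecMulVec, mulVec_single_one]
      rfl
    have hp₂ : B₁ i₀ i₀ ≠ 0 := hp₁ ▸ hp
    obtain ⟨P, Q, hPQ⟩ := ih (s.erase i₀) (by rw [Finset.card_erase_of_mem h0.1]; omega) B₂ (by
      intro i j hij h
      rw [hB₂]
      by_cases hi : i = i₀
      · subst hi
        simp only [a, b, if_pos rfl, if_neg hij.symm]
        field_simp
        simp
      by_cases hj : j = i₀
      · subst hj
        simp only [a, b, if_pos rfl, if_neg hi]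
        field_simp
        simp
      have h' : i ∉ s ∨ j ∉ s := by simpa [hi, hj] using h
      simp only [a, b, if_neg hi, if_neg hj, hB₁ i j hij h']
      rcases h' with h' | h'
      · rw [hB₁ i i₀ hi (Or.inl h')]; simp
      · rw [hB₁ i₀ j (Ne.symm hj) (Or.inr h')]; simp)
    refine ⟨P * P₁, Q₀ * Q₁ * Q, ?_⟩
    convert hPQ using 1
    simp only [B₂, ← hQ₀, Units.val_mul, Matrix.map_mul, Matrix.mul_assoc]

lemma smith (B : GL σ Ω) : ∃ (P Q : GL σ O) (t : σ → Ω), (∀ i, t i ≠ 0) ∧
    (∀ i j, O.valuation (t i) = O.valuation (t j) → t i = t j) ∧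
    P.val.map O.subtype * B.val * Q.val.map O.subtype = diagonal t := by
  obtain ⟨P, Q, h⟩ := smith_aux O _ Finset.univ rfl B.val (by simp)
  set t := (P.val.map O.subtype * B.val * Q.val.map O.subtype).diag
  have h1 : P.val.map O.subtype * B.val * Q.val.map O.subtype = diagonal t :=
    h.diagonal_diag.symm
  have h2 : ∀ i, t i ≠ 0 := by
    have h3 : (diagonal t).det ≠ 0 := by
      rw [← h1]
      exact (Matrix.GeneralLinearGroup.map O.subtype P * B *
        Matrix.GeneralLinearGroup.map O.subtype Q).det_ne_zero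
    rw [det_diagonal] at h3
    exact fun i => Finset.prod_ne_zero_iff.1 h3 i (Finset.mem_univ i)
  choose r hr using O.valuation_surjective
  have h3 : ∀ i, O.valuation (r (O.valuation (t i)) / t i) = 1 := by
    intro i
    rw [map_div₀, hr, div_self]
    exact (map_ne_zero _).2 (h2 i)
  have h4 : ∀ i, ∃ u : Oˣ, ((u : O) : Ω) = r (O.valuation (t i)) / t i := by
    intro i
    have hm : r (O.valuation (t i)) / t i ∈ O := (O.valuation_le_one_iff _).1 (h3 i).le
    obtain ⟨u, hu⟩ := (O.valuation_eq_one_iff ⟨_, hm⟩).2 (h3 i)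
    exact ⟨u, by rw [hu]⟩
  choose u hu using h4
  refine ⟨diagU u * P, Q, fun i => r (O.valuation (t i)), fun i h0 => ?_, fun i j hij => ?_, ?_⟩
  · have := h3 i
    rw [show r (O.valuation (t i)) = 0 from h0] at this
    simp at this
  · rw [hr, hr] at hij
    show r _ = r _
    rw [hij]
  · rw [Units.val_mul, Matrix.map_mul, Matrix.mul_assoc, Matrix.mul_assoc, ← Matrix.mul_assoc _ B.val,
      h1, diagU_val, diagonal_map (map_zero _), diagonal_mul_diagonal]
    congr 1
    funext i
    rw [ValuationSubring.subtype_apply, hu, div_mul_cancel₀ _ (h2 i)]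

end Pool.Agent.P.MP_f4e0a3_ag
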