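import Mathlib
import Pool.Agent.P.MP_f4e0a3_ag.Resultant
import Pool.Agent.P.MP_f4e0a3_ag.Smith

/-!
The extended representation, its restrictions, and the coordinate ring of the smooth locus.
-/

open MvPolynomial Matrix

set_option linter.unusedSectionVars false

namespace Pool.Agent.P.MP_f4e0a3_ag

section Comp

variable {τ σ τ' σ' ι : Type} [Fintype σ] [DecidableEq σ] [Fintype σ'] [DecidableEq σ']
  [Fintype ι] [DecidableEq ι]

/-- restriction of a representation along a functorial homomorphism -/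
def Rep.comp (r : Rep τ σ ι) (φ : ∀ (R : Type) [CommRing R], Gr τ' σ' R →* Gr τ σ R)
    (hφ : ∀ {R S : Type} [CommRing R] [CommRing S] (ψ : R →+* S) (γ : Gr τ' σ' R),
      mapG ψ (φ R γ) = φ S (mapG ψ γ)) : Rep τ' σ' ι where
  ρ R _ _ := (r.ρ R).comp (φ R)
  nat ψ γ := by
    rw [MonoidHom.comp_apply, r.nat, hφ]; rfl

lemma Rep.pt_comp (r : Rep τ σ ι) (φ) (hφ) {R : Type} [CommRing R] [Algebra ℂ R] (w : ι → R)
    (γ : Gr τ' σ' R) : (r.comp φ hφ).pt w γ = r.pt w (φ R γ) := rfl

lemma Rep.gact_comp (r : Rep τ σ ι) (φ) (hφ) {R : Type} [CommRing R] [Algebra ℂ R]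
    (γ : Gr τ' σ' R) : (r.comp φ hφ).gact γ = r.gact (φ R γ) := by
  rw [Rep.gact, Rep.gact, Rep.pt_comp, hφ]

end Comp

variable {σ : Type} [Fintype σ] [DecidableEq σ] {e : ℕ}
variable {R S : Type} [CommRing R] [CommRing S]

/-- diagonal embedding -/
def dg (g : GL σ R) : Gr Bool σ R := fun _ => g

@[simp] lemma dg_apply (g : GL σ R) (b : Bool) : dg g b = g := rfl

lemma dg_mul (g g' : GL σ R) : dg (g * g') = dg g * dg g' := rfl

@[simp] lemma dg_one : dg (1 : GL σ R) = 1 := rfl

lemma dg_inv (g : GL σ R) : dg g⁻¹ = (dg g)⁻¹ := rfl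

variable (σ) in
/-- diagonal embedding -/
def dgH (R : Type) [CommRing R] : Gr Unit σ R →* Gr Bool σ R where
  toFun γ := dg (γ ())
  map_one' := rfl
  map_mul' _ _ := rfl

lemma diagU_mul (u v : σ → Rˣ) : diagU (u * v) = diagU u * diagU v := by
  apply Units.ext
  simp [diagU_val, diagonal_mul_diagonal]

@[simp] lemma diagU_one : diagU (1 : σ → Rˣ) = 1 := by
  ext i j
  simp [diagU_val]

lemma map_diagU (φ : R →+* S) (u : σ → Rˣ) :
    Matrix.GeneralLinearGroup.map φ (diagU u) = diagU fun i => Units.map (φ : R →* S) (u i) := by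
  ext i j
  show φ ((diagU u).val i j) = _
  by_cases h : i = j <;> simp [diagU_val, h]

variable (e) in
/-- the torus fixing the Fermat tuple -/
def tor (u : σ → Rˣ) : Gr Bool σ R := pairG (diagU fun i => (u i)⁻¹ ^ e) (diagU u)

lemma tor_mul (u v : σ → Rˣ) : tor e (u * v) = tor e u * tor e v := by
  rw [tor, tor, tor, pairG_mul, ← diagU_mul, ← diagU_mul]
  congr 2
  funext i
  simp [mul_pow, mul_comm]

@[simp] lemma tor_one : tor e (1 : σ → Rˣ) = 1 := by
  have : (fun i : σ => ((1 : σ → Rˣ) i)⁻¹ ^ e) = 1 := by funext i; simp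
  rw [tor, this, diagU_one]
  funext b; cases b <;> rfl

lemma tor_inv (u : σ → Rˣ) : tor e u⁻¹ = (tor e u)⁻¹ := by
  rw [eq_inv_iff_mul_eq_one, ← tor_mul]; simp

lemma map_tor (φ : R →+* S) (u : σ → Rˣ) :
    mapG φ (tor e u) = tor e fun i => Units.map (φ : R →* S) (u i) := by
  funext b
  cases b
  · show Matrix.GeneralLinearGroup.map φ (diagU _) = diagU _
    rw [map_diagU]
    simp
  · exact map_diagU φ u

variable (e) in
/-- the block torus -/
def torH {κ : Type} (b : σ → κ) (R : Type) [CommRing R] : Gr κ Unit R →* Gr Bool σ R where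
  toFun t := tor e fun i => Matrix.GeneralLinearGroup.det (t (b i))
  map_one' := by
    rw [← tor_one (e := e)]
    congr 1
    funext i
    simp
  map_mul' t t' := by
    rw [← tor_mul]
    congr 1
    funext i
    simp

lemma lin0_tor (u : σ → Rˣ) (w : σ × Mon σ e → R) (p : σ × Mon σ e) :
    lin0 (tor e u false).val (tor e u true).val w p =
      (((u p.1)⁻¹ ^ e * ∏ j, u j ^ p.2.1 j : Rˣ) : R) * w p := by
  show lin0 (diagonal _) (diagonal _) w p = _
  rw [lin0_diagonal]
  simp

/-- extended coordinates -/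
def ext (s : R) (w : σ × Mon σ e → R) : Option (σ × Mon σ e) → R := fun o => o.elim s w

@[simp] lemma ext_none (s : R) (w : σ × Mon σ e → R) : ext s w none = s := rfl
@[simp] lemma ext_some (s : R) (w : σ × Mon σ e → R) (p) : ext s w (some p) = w p := rfl

lemma ext_eta (z : Option (σ × Mon σ e) → R) : ext (z none) (fun p => z (some p)) = z := by
  funext o; cases o <;> rfl

lemma map_ext (φ : R →+* S) (s : R) (w : σ × Mon σ e → R) :
    (fun o => φ (ext s w o)) = ext (φ s) fun p => φ (w p) := by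
  funext o; cases o <;> rfl

lemma map_grad (φ : R →+* S) (f : MvPolynomial σ R) (i : σ) :
    MvPolynomial.map φ (grad f i) = grad (MvPolynomial.map φ f) i := pderiv_map.symm

/-- the point attached to a form -/
noncomputable def ptX (e : ℕ) (f : MvPolynomial σ R) (s : R) : Option (σ × Mon σ e) → R :=
  ext s (crd e (grad f))

lemma map_crd_grad (φ : R →+* S) (f : MvPolynomial σ R) :
    (fun p => φ (crd e (grad f) p)) = crd e (grad (MvPolynomial.map φ f)) := by
  rw [map_crd]
  congr 1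
  funext i
  exact map_grad φ f i

lemma map_ptX (φ : R →+* S) (f : MvPolynomial σ R) (s : R) :
    (fun o => φ (ptX e f s o)) = ptX e (MvPolynomial.map φ f) (φ s) := by
  rw [ptX, map_ext, map_crd_grad, ptX]

lemma grad_isHomogeneous {f : MvPolynomial σ R} (hf : f.IsHomogeneous (e + 1)) (i : σ) :
    (grad f i).IsHomogeneous e := by
  simpa [grad] using hf.pderiv (i := i)

lemma tup_crd_grad {f : MvPolynomial σ R} (hf : f.IsHomogeneous (e + 1)) :
    tup (crd e (grad f)) = grad f := tup_crd (grad_isHomogeneous hf)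

lemma lin0_crd_grad {f : MvPolynomial σ R} (hf : f.IsHomogeneous (e + 1)) (a g : Matrix σ σ R) :
    lin0 a g (crd e (grad f)) = crd e (act2 a g (grad f)) := by
  rw [lin0_apply, tup_crd_grad hf]

lemma crd_grad_apply (f : MvPolynomial σ R) (p : σ × Mon σ e) :
    crd e (grad f) p = coeff (p.2.1 + Finsupp.single p.1 1) f * (p.2.1 p.1 + 1) := by
  rw [crd, grad, coeff_pderiv]

variable [Nonempty σ] [Fact (2 ≤ e)] [Algebra ℂ R] [Algebra ℂ S]

lemma chi_tor (u : σ → Rˣ) : chi e (tor e u) = 1 := by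
  have : (rep0 σ e).pt (fermat σ e R) (tor e u) = fermat σ e R := by
    rw [pt_rep0]
    funext p
    rw [lin0_tor]
    by_cases h : p.2 = pw e p.1
    · rw [h]
      simp [prod_pow_pw (fun j => (u j : R)), ← mul_pow]
    · simp [fermat, h]
  rw [chi, this, res_fermat]

/-- the extended action -/
noncomputable def lin1 (γ : Gr Bool σ R) :
    (Option (σ × Mon σ e) → R) →ₗ[R] (Option (σ × Mon σ e) → R) where
  toFun z := ext (chi e γ⁻¹ * z none) (lin0 (γ false).val (γ true).val fun p => z (some p))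
  map_add' z z' := by
    funext o
    cases o
    · simp [mul_add]
    · simp only [ext_some, Pi.add_apply]
      rw [← Pi.add_apply (lin0 _ _ _), ← map_add]; rfl
  map_smul' c z := by
    funext o
    cases o
    · simp [mul_left_comm]
    · simp only [ext_some, Pi.smul_apply, RingHom.id_apply]
      rw [← Pi.smul_apply c (lin0 _ _ _), ← map_smul]; rfl

lemma lin1_ext (γ : Gr Bool σ R) (s : R) (w : σ × Mon σ e → R) :
    lin1 γ (ext s w) = ext (chi e γ⁻¹ * s) (lin0 (γ false).val (γ true).val w) := rfl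

variable (σ e) in
/-- the extended representation -/
noncomputable def rep1 : Rep Bool σ (Option (σ × Mon σ e)) :=
  Rep.ofLin (fun _ _ _ γ => lin1 γ)
    (fun _ _ _ z => by
      rw [← ext_eta z, lin1_ext]
      simp)
    (fun _ _ _ γ δ z => by
      rw [← ext_eta z, lin1_ext, lin1_ext, lin1_ext, lin0_lin0, _root_.mul_inv_rev, chi_mul,
        mul_comm (chi e γ⁻¹), mul_assoc]
      rfl)
    (fun {R S} _ _ _ _ φ γ z => by
      rw [← ext_eta z, lin1_ext]
      refine (map_ext (φ : R →+* S) _ _).trans ?_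
      rw [show (fun i => φ (ext (z none) (fun p => z (some p)) i)) = _ from
        map_ext (φ : R →+* S) _ _, lin1_ext, map_lin0, map_mul, RingHom.coe_coe, map_chi, map_inv]
      rfl)

lemma pt_rep1 (γ : Gr Bool σ R) (s : R) (w : σ × Mon σ e → R) :
    (rep1 σ e).pt (ext s w) γ = ext (chi e γ⁻¹ * s) (lin0 (γ false).val (γ true).val w) := by
  rw [rep1, Rep.pt_ofLin, lin1_ext]

variable (σ e) in
/-- the restriction to the diagonal -/
noncomputable def repG : Rep Unit σ (Option (σ × Mon σ e)) :=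
  (rep1 σ e).comp (dgH σ) (fun _ _ => rfl)

lemma pt_repG (z : Option (σ × Mon σ e) → R) (γ : Gr Unit σ R) :
    (repG σ e).pt z γ = (rep1 σ e).pt z (dg (γ ())) := rfl

lemma gact_repG (γ : Gr Unit σ R) : (repG σ e).gact γ = (rep1 σ e).gact (dg (γ ())) :=
  Rep.gact_comp _ _ _ γ

lemma mem_invG {P : MvPolynomial (Option (σ × Mon σ e)) ℂ} :
    P ∈ (repG σ e).inv ↔ ∀ g : GL σ ℂ, (rep1 σ e).gact (dg g) P = P := by
  constructor
  · intro h g
    have := h fun _ => g
    rwa [gact_repG] at this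
  · intro h γ
    rw [gact_repG, h]

lemma inv_le_invG : (rep1 σ e).inv ≤ (repG σ e).inv := fun _ h => mem_invG.2 fun _ => h _

variable (e) in
/-- the restriction to the block torus -/
noncomputable def repT {κ : Type} (b : σ → κ) : Rep κ Unit (Option (σ × Mon σ e)) :=
  (rep1 σ e).comp (torH e b) (fun ψ t => by
    show mapG ψ (tor e _) = tor e _
    rw [map_tor]
    congr 1
    funext i
    ext
    simp [mapG])

lemma gact_repT {κ : Type} (b : σ → κ) (t : Gr κ Unit R) :
    (repT e b).gact t =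
      (rep1 σ e).gact (tor e fun i => Matrix.GeneralLinearGroup.det (t (b i))) :=
  Rep.gact_comp _ _ _ t

/-- the locus where the extra coordinate is the inverse of the resultant -/
def InU (z : Option (σ × Mon σ e) → R) : Prop :=
  z none * aeval (fun p => z (some p)) (Res σ e) = 1

lemma inU_ext {s : R} {w : σ × Mon σ e → R} : InU (ext s w) ↔ s * aeval w (Res σ e) = 1 := Iff.rfl

lemma InU.pt {z : Option (σ × Mon σ e) → R} (hz : InU z) (γ : Gr Bool σ R) :
    InU ((rep1 σ e).pt z γ) := by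
  rw [← ext_eta z, pt_rep1, inU_ext, ← pt_rep0, res_pt]
  have h1 := chi_inv_mul (e := e) γ
  have h2 : z none * aeval (fun p => z (some p)) (Res σ e) = 1 := hz
  linear_combination (z none * aeval (fun p => z (some p)) (Res σ e)) * h1 + h2

lemma InU.map {z : Option (σ × Mon σ e) → R} (hz : InU z) (φ : R →ₐ[ℂ] S) :
    InU fun o => φ (z o) := by
  have h := congrArg φ hz
  rw [map_mul, map_one, ← AlgHom.comp_apply, comp_aeval] at h
  exact h

lemma InU.ext' {z z' : Option (σ × Mon σ e) → R} (hz : InU z) (hz' : InU z')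
    (h : ∀ p, z (some p) = z' (some p)) : z = z' := by
  funext o
  cases o with
  | none =>
    have h1 : z none * aeval (fun p => z (some p)) (Res σ e) = 1 := hz
    have h2 : z' none * aeval (fun p => z' (some p)) (Res σ e) = 1 := hz'
    simp only [h] at h1
    linear_combination z' none * h1 - z none * h2
  | some p => exact h p

lemma pt_ptX_dg {f : MvPolynomial σ R} (hf : f.IsHomogeneous (e + 1)) (s : R) (g : GL σ R) :
    (rep1 σ e).pt (ptX e f s) (dg g) = ptX e (sub g.val f) (chi e (dg g)⁻¹ * s) := by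
  rw [ptX, pt_rep1, lin0_crd_grad hf, ptX, grad_sub]; rfl

/-- points of the smooth locus -/
def IsX (z : Option (σ × Mon σ e) → R) : Prop :=
  InU z ∧ ∃ f : MvPolynomial σ R, f.IsHomogeneous (e + 1) ∧ z = ptX e f (z none)

lemma IsX.dg {z : Option (σ × Mon σ e) → R} (hz : IsX z) (g : GL σ R) :
    IsX ((rep1 σ e).pt z (dg g)) := by
  obtain ⟨h1, f, hf, h2⟩ := hz
  refine ⟨h1.pt _, sub g.val f, sub_isHomogeneous _ hf, ?_⟩
  rw [h2, pt_ptX_dg hf]; rfl

lemma IsX.map {z : Option (σ × Mon σ e) → R} (hz : IsX z) (φ : R →ₐ[ℂ] S) :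
    IsX fun o => φ (z o) := by
  obtain ⟨h1, f, hf, h2⟩ := hz
  refine ⟨h1.map φ, MvPolynomial.map (φ : R →+* S) f, hf.map _, ?_⟩
  conv_lhs => rw [h2]
  exact map_ptX (φ : R →+* S) f _

lemma isX_ptX {f : MvPolynomial σ R} (hf : f.IsHomogeneous (e + 1)) {s : R}
    (hs : InU (ptX e f s)) : IsX (ptX e f s) := ⟨hs, f, hf, rfl⟩

variable (σ e) in
/-- the discriminant -/
noncomputable def Disc : MvPolynomial (Mon σ (e + 1)) ℂ :=
  aeval (crd e (grad (frm (X : Mon σ (e + 1) → MvPolynomial (Mon σ (e + 1)) ℂ)))) (Res σ e)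

lemma aeval_disc (c : Mon σ (e + 1) → R) :
    aeval c (Disc σ e) = aeval (crd e (grad (frm c))) (Res σ e) := by
  rw [Disc, ← AlgHom.comp_apply, comp_aeval]
  congr 2
  refine (map_crd_grad ((aeval c : MvPolynomial (Mon σ (e + 1)) ℂ →ₐ[ℂ] R) :
    MvPolynomial (Mon σ (e + 1)) ℂ →+* R) _).trans ?_
  rw [map_frm]
  simp

lemma disc_ne_zero : Disc σ e ≠ 0 := by
  intro h
  let f : MvPolynomial σ ℂ := ∑ i, C ((e + 1 : ℂ)⁻¹) * X i ^ (e + 1)
  have hf : f.IsHomogeneous (e + 1) := IsHomogeneous.sum _ _ _ fun i _ =>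
    (isHomogeneous_X_pow i (e + 1)).C_mul _
  have h1 := aeval_disc (σ := σ) (e := e) (fun β : Mon σ (e + 1) => coeff β.1 f)
  rw [h, map_zero, frm_coeff hf] at h1
  obtain ⟨x, hx, h2⟩ := hasZero_of_res h1.symm
  apply hx
  funext i
  have h3 := h2 i
  have h4 : (e + 1 : ℂ) ≠ 0 := by exact_mod_cast Nat.succ_ne_zero e
  rw [tup_crd_grad hf, grad, map_sum, map_sum, Finset.sum_eq_single i] at h3
  · simp [h4] at h3
    exact h3.1
  · intro j _ hj
    simp [pderiv_X_of_ne hj]
  · simp

variable (σ e) in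
/-- the coordinate ring of the smooth locus -/
abbrev OX : Type := Localization.Away (Disc σ e)

instance : IsDomain (OX σ e) :=
  IsLocalization.isDomain_localization (powers_le_nonZeroDivisors_of_noZeroDivisors disc_ne_zero)

instance : Algebra.FiniteType ℂ (OX σ e) :=
  Algebra.FiniteType.trans (S := MvPolynomial (Mon σ (e + 1)) ℂ) inferInstance inferInstance

instance : IsIntegrallyClosed (OX σ e) :=
  isIntegrallyClosed_of_isLocalization (OX σ e) (Submonoid.powers (Disc σ e))
    (powers_le_nonZeroDivisors_of_noZeroDivisors disc_ne_zero)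

variable (σ e) in
/-- the generic smooth form -/
noncomputable def genX : Option (σ × Mon σ e) → OX σ e :=
  ptX e (frm fun β : Mon σ (e + 1) => algebraMap (MvPolynomial (Mon σ (e + 1)) ℂ) (OX σ e) (X β))
    (IsLocalization.Away.invSelf (Disc σ e))

lemma isX_genX : IsX (genX σ e) := by
  apply isX_ptX (frm_isHomogeneous _)
  rw [ptX, inU_ext, ← aeval_disc, mul_comm]
  convert IsLocalization.Away.mul_invSelf (S := OX σ e) (Disc σ e) using 2
  have : (aeval fun β => algebraMap (MvPolynomial (Mon σ (e + 1)) ℂ) (OX σ e) (X β)) =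
      IsScalarTower.toAlgHom ℂ (MvPolynomial (Mon σ (e + 1)) ℂ) (OX σ e) := by
    ext β; simp
  rw [this]; rfl

lemma IsX.exists_hom {z : Option (σ × Mon σ e) → R} (hz : IsX z) :
    ∃ ψ : OX σ e →ₐ[ℂ] R, (fun o => ψ (genX σ e o)) = z := by
  obtain ⟨h1, f, hf, h2⟩ := hz
  have h3 : IsUnit (aeval (fun β : Mon σ (e + 1) => coeff β.1 f) (Disc σ e)) := by
    rw [aeval_disc, frm_coeff hf]
    rw [h2] at h1
    exact IsUnit.of_mul_eq_one_right _ h1
  let ψ : OX σ e →ₐ[ℂ] R := IsLocalization.Away.liftAlgHom (Disc σ e) h3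
  have h4 : ∀ β, ψ (algebraMap (MvPolynomial (Mon σ (e + 1)) ℂ) (OX σ e) (X β)) = coeff β.1 f := by
    intro β
    rw [IsLocalization.Away.liftAlgHom_apply, IsLocalization.Away.lift_eq]
    simp
  refine ⟨ψ, InU.ext' (isX_genX.1.map ψ) h1 fun p => ?_⟩
  have h5 := congrFun (map_ptX (e := e) (ψ : OX σ e →+* R) (frm fun β : Mon σ (e + 1) =>
    algebraMap (MvPolynomial (Mon σ (e + 1)) ℂ) (OX σ e) (X β))
    (IsLocalization.Away.invSelf (Disc σ e))) (some p)
  refine h5.trans ?_
  rw [map_frm]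
  simp only [RingHom.coe_coe, h4]
  rw [frm_coeff hf, h2]; rfl

variable (σ e) in
/-- restriction of functions to the smooth locus -/
noncomputable def θ : MvPolynomial (Option (σ × Mon σ e)) ℂ →ₐ[ℂ] OX σ e := aeval (genX σ e)

variable (σ e) in
/-- the ideal of the smooth locus -/
noncomputable def IX : Ideal (MvPolynomial (Option (σ × Mon σ e)) ℂ) := RingHom.ker (θ σ e)

lemma map_θ (ψ : OX σ e →ₐ[ℂ] R) (P : MvPolynomial (Option (σ × Mon σ e)) ℂ) :
    ψ (θ σ e P) = aeval (fun o => ψ (genX σ e o)) P := by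
  rw [θ, ← AlgHom.comp_apply, comp_aeval]

lemma IsX.aeval_eq_zero {z : Option (σ × Mon σ e) → R} (hz : IsX z)
    {P : MvPolynomial (Option (σ × Mon σ e)) ℂ} (hP : P ∈ IX σ e) : aeval z P = 0 := by
  obtain ⟨ψ, rfl⟩ := hz.exists_hom
  rw [← map_θ, show θ σ e P = 0 from hP, map_zero]

lemma mem_IX {P : MvPolynomial (Option (σ × Mon σ e)) ℂ}
    (h : ∀ z : Option (σ × Mon σ e) → ℂ, IsX z → aeval z P = 0) : P ∈ IX σ e := by
  show θ σ e P = 0
  apply eq_zero_of_forall_point
  intro ψ
  rw [map_θ]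
  exact h _ (isX_genX.map ψ)

lemma gact_mem_IX (g : GL σ ℂ) {P : MvPolynomial (Option (σ × Mon σ e)) ℂ} (hP : P ∈ IX σ e) :
    (rep1 σ e).gact (dg g) P ∈ IX σ e := by
  apply mem_IX
  intro z hz
  rw [Rep.aeval_act]
  exact (hz.dg g).aeval_eq_zero hP

lemma θ_surjective : Function.Surjective (θ σ e) := by
  have h1 : ∀ p : MvPolynomial (Mon σ (e + 1)) ℂ,
      algebraMap _ (OX σ e) p ∈ (θ σ e).range := by
    intro p
    induction p using MvPolynomial.induction_on with
    | C a => exact Subalgebra.algebraMap_mem _ a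
    | add p q hp hq => rw [map_add]; exact add_mem hp hq
    | mul_X p β hp =>
      rw [map_mul]
      refine mul_mem hp ?_
      obtain ⟨i, hi⟩ : ∃ i, β.1 i ≠ 0 := by
        by_contra h
        push Not at h
        have h2 := β.2
        rw [show β.1 = 0 from Finsupp.ext h] at h2
        simp at h2
      have h2 : β.1 - Finsupp.single i 1 + Finsupp.single i 1 = β.1 :=
        tsub_add_cancel_of_le (Finsupp.single_le_iff.2 (Nat.one_le_iff_ne_zero.2 hi))
      have h3 : (β.1 - Finsupp.single i 1).degree = e := by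
        have h4 := β.2
        rw [← h2, map_add, Finsupp.degree_single] at h4
        omega
      let p₀ : σ × Mon σ e := (i, ⟨_, h3⟩)
      have h4 : genX σ e (some p₀) = algebraMap (MvPolynomial (Mon σ (e + 1)) ℂ) (OX σ e) (X β) *
          ((p₀.2.1 i + 1 : ℕ) : OX σ e) := by
        rw [genX, ptX, ext_some, crd_grad_apply, h2, coeff_frm]
        simp [p₀]
      refine ⟨C ((p₀.2.1 i + 1 : ℕ) : ℂ)⁻¹ * X (some p₀), ?_⟩
      have h5 : ((p₀.2.1 i + 1 : ℕ) : ℂ) ≠ 0 := Nat.cast_ne_zero.2 (Nat.succ_ne_zero _)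
      show θ σ e _ = _
      rw [map_mul, θ, aeval_X, h4, aeval_C, ← map_natCast (algebraMap ℂ (OX σ e)), mul_left_comm,
        ← map_mul, inv_mul_cancel₀ h5, map_one, mul_one]
  intro x
  obtain ⟨m, p, hp⟩ := IsLocalization.Away.surj (Disc σ e) x
  have h2 : x = algebraMap _ _ p * (IsLocalization.Away.invSelf (Disc σ e)) ^ m := by
    rw [← hp, mul_assoc, ← mul_pow, IsLocalization.Away.mul_invSelf]; simp
  have h3 : (IsLocalization.Away.invSelf (Disc σ e) : OX σ e) ∈ (θ σ e).range :=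
    ⟨X none, aeval_X _ _⟩
  rw [h2]
  exact mul_mem (h1 p) (pow_mem h3 m)

lemma isX_of_IX {z : Option (σ × Mon σ e) → R} (h : ∀ P ∈ IX σ e, aeval z P = 0) : IsX z := by
  let ψ : OX σ e →ₐ[ℂ] R := (Ideal.Quotient.liftₐ (IX σ e) (aeval z) h).comp
    (Ideal.quotientKerAlgEquivOfSurjective θ_surjective).symm.toAlgHom
  have h1 : ∀ P, ψ (θ σ e P) = aeval z P := by
    intro P
    have : (Ideal.quotientKerAlgEquivOfSurjective θ_surjective).symm (θ σ e P) =
        Ideal.Quotient.mk _ P := by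
      rw [AlgEquiv.symm_apply_eq]; rfl
    show Ideal.Quotient.liftₐ (IX σ e) (aeval z) h
      ((Ideal.quotientKerAlgEquivOfSurjective θ_surjective).symm (θ σ e P)) = _
    rw [this]; rfl
  have h2 : z = fun o => ψ (genX σ e o) := by
    funext o
    have := h1 (X o)
    rw [θ, aeval_X, aeval_X] at this
    exact this.symm
  rw [h2]
  exact isX_genX.map ψ

end Pool.Agent.P.MP_f4e0a3_ag
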