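import Mathlib
import Pool.Agent.P.MP_f4e0a3_ag.Luna

/-!
Hilbert's finiteness theorem, valuative lemmas and a Krull intersection argument for a
functorial representation.
-/

open MvPolynomial Matrix

set_option linter.unusedSectionVars false

namespace Pool.Agent.P.MP_f4e0a3_ag

lemma homogeneousComponent_mul_right {ι R : Type} [CommRing R] (a p : MvPolynomial ι R)
    {d : ℕ} (hp : p.IsHomogeneous d) (m : ℕ) :
    homogeneousComponent m (a * p) =
      (if d ≤ m then homogeneousComponent (m - d) a else 0) * p := by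
  conv_lhs => rw [← a.sum_homogeneousComponent, Finset.sum_mul, map_sum]
  have h1 : ∀ k, homogeneousComponent m (homogeneousComponent k a * p) =
      if m = k + d then homogeneousComponent k a * p else 0 := fun k =>
    homogeneousComponent_of_mem ((homogeneousComponent_isHomogeneous k a).mul hp)
  simp only [h1]
  split_ifs with h
  · rw [Finset.sum_eq_single (m - d)]
    · rw [if_pos (by omega)]
    · intro k _ hk
      rw [if_neg (by omega)]
    · intro hk
      rw [homogeneousComponent_eq_zero _ _ (by rw [Finset.mem_range] at hk; omega)]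
      simp
  · rw [zero_mul]
    exact Finset.sum_eq_zero fun k _ => if_neg (by omega)

namespace Rep

variable {τ σ ι : Type} [Fintype σ] [DecidableEq σ] [Fintype ι] [DecidableEq ι] [Fintype τ]
  (r : Rep τ σ ι)

lemma pt_X_eq (γ : Gr τ σ ℂ) (i : ι) :
    r.gact γ (X i) = ∑ j, X j * C (r.ρ ℂ γ j i) := by
  have h := r.nat (Algebra.ofId ℂ (MvPolynomial ι ℂ)) γ
  have h2 : mapG ((Algebra.ofId ℂ (MvPolynomial ι ℂ) : ℂ →ₐ[ℂ] MvPolynomial ι ℂ) :
      ℂ →+* MvPolynomial ι ℂ) γ = mapG (C : ℂ →+* MvPolynomial ι ℂ) γ := rfl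
  rw [gact, aeval_X, pt, ← h2, ← h]
  simp [vecMul, dotProduct, Algebra.ofId_apply]

lemma gact_isHomogeneous (γ : Gr τ σ ℂ) {P : MvPolynomial ι ℂ} {m : ℕ} (hP : P.IsHomogeneous m) :
    (r.gact γ P).IsHomogeneous m := by
  have h := hP.aeval (fun i => r.gact γ (X i)) (n := 1) (fun i => by
    rw [pt_X_eq]
    refine IsHomogeneous.sum _ _ _ fun j _ => ?_
    rw [mul_comm]
    exact isHomogeneous_C_mul_X _ _)
  rw [one_mul, ← comp_aeval, aeval_X_left, AlgHom.comp_id] at h
  exact h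

lemma homogeneousComponent_gact (γ : Gr τ σ ℂ) (P : MvPolynomial ι ℂ) (m : ℕ) :
    homogeneousComponent m (r.gact γ P) = r.gact γ (homogeneousComponent m P) := by
  conv_lhs => rw [← P.sum_homogeneousComponent, map_sum, map_sum]
  have h1 : ∀ k, homogeneousComponent m (r.gact γ (homogeneousComponent k P)) =
      if m = k then r.gact γ (homogeneousComponent k P) else 0 := fun k =>
    homogeneousComponent_of_mem (r.gact_isHomogeneous γ (homogeneousComponent_isHomogeneous k P))
  simp only [h1, Finset.sum_ite_eq]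
  split_ifs with h
  · rfl
  · rw [homogeneousComponent_eq_zero _ _ (by simpa using h), map_zero]

theorem inv_fg : r.inv.FG := by
  classical
  let S : Set (MvPolynomial ι ℂ) := {P | P ∈ r.inv ∧ ∃ m, 0 < m ∧ P.IsHomogeneous m}
  obtain ⟨s, hs1, hs2⟩ := (Submodule.fg_span_iff_fg_span_finset_subset S).1
    (IsNoetherian.noetherian (Submodule.span (MvPolynomial ι ℂ) S))
  have hd : ∀ p : s, ∃ m, 0 < m ∧ (p : MvPolynomial ι ℂ).IsHomogeneous m := fun p => (hs1 p.2).2
  choose d hd0 hd using hd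
  have key : ∀ m, ∀ F ∈ r.inv, F.IsHomogeneous m → F ∈ Algebra.adjoin ℂ (s : Set _) := by
    intro m
    induction m using Nat.strong_induction_on with
    | _ m ih =>
      intro F hF hFm
      rcases Nat.eq_zero_or_pos m with rfl | hm
      · rw [← homogeneousComponent_eq_self hFm, homogeneousComponent_zero]
        exact Subalgebra.algebraMap_mem _ _
      have h1 : F ∈ Submodule.span (MvPolynomial ι ℂ) (s : Set _) :=
        hs2 ▸ Submodule.subset_span ⟨hF, m, hm, hFm⟩
      obtain ⟨a, ha⟩ := Submodule.mem_span_finset'.1 h1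
      let a' : s → MvPolynomial ι ℂ := fun p =>
        if d p ≤ m then homogeneousComponent (m - d p) (a p) else 0
      have h2 : F = ∑ p : s, a' p * p := by
        rw [← homogeneousComponent_eq_self hFm, ← ha, map_sum]
        exact Finset.sum_congr rfl fun p _ => homogeneousComponent_mul_right _ _ (hd p) m
      have h3 := r.sub_sum_reyn_mem Finset.univ ⊥ (by simp) F hF a' (fun p => p)
        (fun p _ => (hs1 p.2).1) (by rw [← h2]; simp)
      rw [Submodule.mem_bot, sub_eq_zero] at h3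
      rw [h3]
      refine Subalgebra.sum_mem _ fun p _ => Subalgebra.mul_mem _ ?_ (Algebra.subset_adjoin p.2)
      refine ih (m - d p) (by have := hd0 p; omega) _ (r.reyn_mem_inv _) ?_
      refine r.reyn_mem (homogeneousSubmodule ι ℂ (m - d p)) _ fun γ => r.gact_isHomogeneous γ ?_
      simp only [a']
      split_ifs
      · exact homogeneousComponent_isHomogeneous _ _
      · exact isHomogeneous_zero _ _ _
  refine ⟨s, le_antisymm (Algebra.adjoin_le fun p hp => (hs1 hp).1) fun F hF => ?_⟩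
  rw [← F.sum_homogeneousComponent]
  refine Subalgebra.sum_mem _ fun m _ => key m _ (fun γ => ?_)
    (homogeneousComponent_isHomogeneous _ _)
  rw [← homogeneousComponent_gact, hF γ]

lemma krull (J : Ideal (MvPolynomial ι ℂ)) (hJ : ∀ γ : Gr τ σ ℂ, ∀ P ∈ J, r.gact γ P ∈ J)
    (f : ι → ℂ) (hf : ∀ w : ι → ℂ, (∀ P ∈ J, aeval w P = 0) → ∃ γ, w = r.pt f γ)
    (F : MvPolynomial ι ℂ) (hF : F ∈ r.inv) (h : ∀ N, F ∈ J ⊔ mI f ^ N) : F ∈ J := by
  have h1 : J.mkQ F ∈ (⨅ N : ℕ, mI f ^ N • ⊤ :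
      Submodule (MvPolynomial ι ℂ) (MvPolynomial ι ℂ ⧸ J)) := by
    rw [Submodule.mem_iInf]
    intro N
    obtain ⟨a, ha, b, hb, hab⟩ := Submodule.mem_sup.1 (h N)
    have h2 : J.mkQ F = b • J.mkQ 1 := by
      rw [← hab, map_add, (Submodule.Quotient.mk_eq_zero J).2 ha |> (show J.mkQ a = 0 from ·),
        zero_add, ← map_smul, smul_eq_mul, mul_one]
    rw [h2]
    exact Submodule.smul_mem_smul hb Submodule.mem_top
  obtain ⟨y, hy⟩ := (Ideal.mem_iInf_smul_pow_eq_bot_iff _ _).1 h1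
  have h2 : (1 - y) * F ∈ J := by
    rw [← map_smul] at hy
    have := (Submodule.Quotient.eq J).1 hy.symm
    convert this using 1
    rw [smul_eq_mul]; ring
  let J' : Ideal (MvPolynomial ι ℂ) := Submodule.comap (LinearMap.mulRight (MvPolynomial ι ℂ) F) J
  have hJ' : ∀ P, P ∈ J' ↔ P * F ∈ J := fun P => Iff.rfl
  by_cases hT : J' = ⊤
  · have := (hJ' 1).1 (hT ▸ Submodule.mem_top)
    rwa [one_mul] at this
  · exfalso
    obtain ⟨w, hw⟩ := exists_pt_of_ne_top J' hT
    obtain ⟨γ, rfl⟩ := hf w fun P hP => hw P ((hJ' P).2 (J.mul_mem_right _ hP))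
    have h3 : r.gact γ⁻¹ (1 - y) ∈ J' := by
      rw [hJ', ← hF γ⁻¹, ← map_mul]
      exact hJ _ _ h2
    have h4 := hw _ h3
    rw [aeval_act, pt_inv_pt, map_sub, map_one, show aeval f (y : MvPolynomial ι ℂ) = 0 from y.2]
      at h4
    simp at h4

lemma exists_valuation_closure (h h₀ : ι → ℂ) (H : ∀ P ∈ r.orbI h, aeval h₀ P = 0) :
    ∃ (Ω : Type) (_ : Field Ω) (_ : IsAlgClosed Ω) (_ : Algebra ℂ Ω) (O : ValuationSubring Ω)
      (γ : Gr τ σ Ω), (∀ z : ℂ, algebraMap ℂ Ω z ∈ O) ∧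
      ∀ i, O.valuation (r.pt (fun i => algebraMap ℂ Ω (h i)) γ i - algebraMap ℂ Ω (h₀ i)) < 1 := by
  let A := CG τ σ ℂ
  let Ω := AlgebraicClosure (FractionRing A)
  let j : A →ₐ[ℂ] Ω := IsScalarTower.toAlgHom ℂ A Ω
  have hj : Function.Injective j :=
    (algebraMap (FractionRing A) Ω).injective.comp (IsFractionRing.injective A (FractionRing A))
  let γ : Gr τ σ Ω := mapG (j : A →+* Ω) (genG τ σ ℂ)
  have hγ : evG ℂ γ = j := evG_mapG ℂ j
  obtain ⟨O, h1, h2⟩ := exists_valuation (j.comp (r.orbHom h) : MvPolynomial ι ℂ →+* Ω) (mI h₀) (by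
    intro x hx hx1
    have h3 : r.orbHom h (x - 1) = 0 := by
      apply hj
      rw [map_sub, map_sub, map_one, map_one, map_zero]
      exact sub_eq_zero.2 hx1
    have h4 := H _ h3
    rw [map_sub, show aeval h₀ x = 0 from hx] at h4
    simp at h4)
  refine ⟨Ω, inferInstance, inferInstance, inferInstance, O, γ, fun z => ?_, fun i => ?_⟩
  · have := h1 (C z)
    rwa [RingHom.coe_coe, ← algebraMap_eq, AlgHom.commutes] at this
  · have := h2 (X i - C (h₀ i)) (by simp [mem_mI])
    rw [RingHom.coe_coe, map_sub, ← algebraMap_eq, AlgHom.commutes, AlgHom.comp_apply, ← hγ,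
      evG_orbHom', aeval_X] at this
    exact this

lemma exists_valuation_integral {K : Type} [Field K] [Algebra ℂ K] (O₁ : ValuationSubring K)
    (w : ι → K) (H : ∀ P ∈ r.inv, aeval w P ∈ O₁) :
    ∃ (Ω : Type) (_ : Field Ω) (_ : IsAlgClosed Ω) (_ : Algebra ℂ Ω) (O : ValuationSubring Ω)
      (j : K →ₐ[ℂ] Ω) (γ : Gr τ σ Ω), (∀ z : ℂ, algebraMap ℂ Ω z ∈ O) ∧
      (∀ x, j x ∈ O → x ∈ O₁) ∧ ∀ i, r.pt (fun i => j (w i)) γ i ∈ O := by
  let A := CG τ σ K
  let Ω := AlgebraicClosure (FractionRing A)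
  let j₀ : A →ₐ[ℂ] Ω := IsScalarTower.toAlgHom ℂ A Ω
  have hj : Function.Injective j₀ :=
    (algebraMap (FractionRing A) Ω).injective.comp (IsFractionRing.injective A (FractionRing A))
  let j₁ : K →ₐ[ℂ] A := IsScalarTower.toAlgHom ℂ K A
  let φ₀ : MvPolynomial ι O₁ →+* A := eval₂Hom ((j₁ : K →+* A).comp O₁.subtype)
    (r.pt (fun i => j₁ (w i)) (genG τ σ K))
  obtain ⟨O, h1, h2⟩ := exists_valuation ((j₀ : A →+* Ω).comp φ₀)
      ((IsLocalRing.maximalIdeal O₁).map C) (by
    intro x hx hx1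
    have h3 : φ₀ x = 1 := hj (by rw [map_one]; exact hx1)
    rw [MvPolynomial.mem_map_C_iff] at hx
    have h4 := r.sum_reyn x.support
      (fun β => ((LinearMap.mulLeft K ((coeff β x : O₁) : K)).restrictScalars ℂ).comp
        (aeval w : MvPolynomial ι ℂ →ₐ[ℂ] K).toLinearMap) (fun β => monomial β 1) 1 (by
      intro γ
      let e : A →ₐ[ℂ] K := (evG K (mapG (algebraMap ℂ K) γ)).restrictScalars ℂ
      have he : ∀ y, e (j₁ y) = y := fun y => (evG K (mapG (algebraMap ℂ K) γ)).commutes y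
      have h5 := congrArg e h3
      have h6 := r.map_pt e (fun i => j₁ (w i)) (genG τ σ K)
      have h7 : mapG (e : A →+* K) (genG τ σ K) = mapG (algebraMap ℂ K) γ := mapG_evG K _
      simp only [he, h7] at h6
      rw [map_one, x.as_sum, map_sum, map_sum] at h5
      rw [← h5]
      refine Finset.sum_congr rfl fun β _ => ?_
      simp only [LinearMap.comp_apply, AlgHom.toLinearMap_apply, LinearMap.restrictScalars_apply,
        LinearMap.mulLeft_apply, aeval_gact, φ₀, eval₂Hom_monomial, map_mul, aeval_monomial,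
        map_one, one_mul, Finsupp.prod, map_prod, map_pow, ← h6]
      congr 1
      exact (he _).symm)
    have h8 : (∑ β ∈ x.support, coeff β x * (⟨_, H _ (r.reyn_mem_inv (monomial β 1))⟩ : O₁)) = 1 := by
      apply Subtype.ext
      rw [← show _ = ((1 : O₁) : K) from h4]
      simp
    have h9 : (1 : O₁) ∈ IsLocalRing.maximalIdeal O₁ := by
      rw [← h8]
      exact Ideal.sum_mem _ fun β _ => Ideal.mul_mem_right _ _ (hx β)
    exact (IsLocalRing.maximalIdeal.isMaximal O₁).ne_top ((Ideal.eq_top_iff_one _).2 h9))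
  have hC : ∀ y : O₁, (j₀ : A →+* Ω).comp φ₀ (C y) = j₀.comp j₁ y := fun y => by simp [φ₀]
  refine ⟨Ω, inferInstance, inferInstance, inferInstance, O, j₀.comp j₁,
    mapG (j₀ : A →+* Ω) (genG τ σ K), fun z => ?_, fun x hx => ?_, fun i => ?_⟩
  · have h3 : algebraMap ℂ K z ∈ O₁ := by
      have := H (C z) (r.inv.algebraMap_mem z)
      simpa using this
    have := h1 (C ⟨_, h3⟩)
    rwa [hC, AlgHom.commutes] at this
  · by_contra hx'
    have h3 : x⁻¹ ∈ O₁.nonunits := O₁.inv_mem_nonunits_iff.2 (Or.inr hx')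
    have h4 : x⁻¹ ∈ O₁ := O₁.nonunits_le h3
    have h5 := h2 (C ⟨_, h4⟩) (Ideal.mem_map_of_mem _ (O₁.coe_mem_nonunits_iff.1 h3))
    rw [hC, map_inv₀, ← O.mem_nonunits_iff, O.inv_mem_nonunits_iff] at h5
    rcases h5 with h5 | h5
    · rw [map_eq_zero] at h5
      exact hx' (h5 ▸ O₁.zero_mem)
    · exact h5 hx
  · have := h1 (X i)
    have h3 := congrFun (r.map_pt j₀ (fun i => j₁ (w i)) (genG τ σ K)) i
    simp only [RingHom.comp_apply, φ₀, eval₂Hom_X', RingHom.coe_coe] at this
    rw [h3] at this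
    exact this

end Rep

end Pool.Agent.P.MP_f4e0a3_ag
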