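import Mathlib
import Pool.Agent.P.MP_f4e0a3_ag.Ext
import Pool.Agent.P.MP_f4e0a3_ag.Global

/-!
Valuative statements: stability, replacement, finiteness of stabilisers.
-/

open MvPolynomial Matrix

set_option linter.unusedSectionVars false

namespace Pool.Agent.P.MP_f4e0a3_ag

lemma isIntegral_of_forall_valuation {K : Type} [Field K] (T : Subring K) (x : K)
    (h : ∀ O : ValuationSubring K, (∀ t ∈ T, t ∈ O) → x ∈ O) : IsIntegral T x := by
  have h1 := iInf_valuationSubring_superset (s := (T : Set K))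
  have h2 : x ∈ (⨅ V : {V : ValuationSubring K // (T : Set K) ⊆ V.toSubring}, V.1.toSubring) := by
    rw [Subring.mem_iInf]
    exact fun V => h V.1 fun t ht => V.2 ht
  rw [h1, Subring.closure_eq] at h2
  exact h2

lemma mem_range_of_forall_valuation {K : Type} [Field K] [Algebra ℂ K] (x : K)
    (h : ∀ O : ValuationSubring K, OverC O → x ∈ O) : ∃ c : ℂ, algebraMap ℂ K c = x := by
  have h1 := isIntegral_of_forall_valuation (algebraMap ℂ K).range x fun O hO =>
    h O ⟨fun z => hO _ ⟨z, rfl⟩⟩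
  have h2 : IsIntegral ℂ x := by
    let _ : Algebra ℂ (algebraMap ℂ K).range := (algebraMap ℂ K).rangeRestrict.toAlgebra
    have : IsScalarTower ℂ (algebraMap ℂ K).range K := IsScalarTower.of_algebraMap_eq fun _ => rfl
    have : Algebra.IsIntegral ℂ (algebraMap ℂ K).range :=
      Algebra.isIntegral_of_surjective (algebraMap ℂ K).rangeRestrict_surjective
    exact isIntegral_trans x h1
  exact h2.mem_range_algebraMap_of_minpoly_splits (K := ℂ) (by
    simpa using IsAlgClosed.splits (minpoly ℂ x))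

lemma exists_field_of_prime {A : Type} [CommRing A] [Algebra ℂ A] (p : Ideal A) [p.IsPrime] :
    ∃ (K : Type) (_ : Field K) (_ : Algebra ℂ K) (ψ : A →ₐ[ℂ] K), ∀ x, ψ x = 0 ↔ x ∈ p :=
  ⟨FractionRing (A ⧸ p), inferInstance, inferInstance,
    (IsScalarTower.toAlgHom ℂ (A ⧸ p) _).comp (Ideal.Quotient.mkₐ ℂ p), fun _ =>
    (map_eq_zero_iff _ (IsFractionRing.injective (A ⧸ p) _)).trans Ideal.Quotient.eq_zero_iff_mem⟩

variable {σ : Type} [Fintype σ] [DecidableEq σ] {e : ℕ} [Nonempty σ] [Fact (2 ≤ e)]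
variable {Ω : Type} [Field Ω] [Algebra ℂ Ω] (O : ValuationSubring Ω) [OverC O]

lemma exists_lift {ι : Type} {z : ι → Ω} (hz : ∀ o, z o ∈ O) :
    ∃ z' : ι → O, (fun o => incO O (z' o)) = z := ⟨fun o => ⟨z o, hz o⟩, rfl⟩

lemma InU.of_inc {z : Option (σ × Mon σ e) → O} (hz : InU fun o => incO O (z o)) : InU z := by
  apply Subtype.ext
  have h := map_mul (incO O) (z none) (aeval (fun p => z (some p)) (Res σ e))
  rw [← AlgHom.comp_apply, comp_aeval] at h
  exact h.trans hz

lemma norm_lower {z : Option (σ × Mon σ e) → Ω} (hz : InU z) (hO : ∀ o, z o ∈ O) (x : σ → Ω)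
    (j : σ) : ∃ i, O.valuation (x j) ^ e ≤ O.valuation (eval x (tup (fun p => z (some p)) i)) := by
  by_cases hx : x = 0
  · exact ⟨j, by simp [hx, zero_pow (e_pos (e := e)).ne']⟩
  obtain ⟨k, y, hy, hk, hxy⟩ := exists_primitive O x hx
  obtain ⟨z', rfl⟩ := exists_lift O hO
  have h1 := (hz.of_inc O).map (resO O)
  have h2 : ¬ HasZero fun p => resO O (z' (some p)) := by
    intro h
    have h3 : resO O (z' none) * aeval (fun p => resO O (z' (some p))) (Res σ e) = 1 := h1
    rw [h.res] at h3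
    simp at h3
  rw [HasZero, not_exists] at h2
  have h3 := h2 fun i => resO O (y i)
  rw [not_and, not_forall] at h3
  obtain ⟨i, hi⟩ := h3 (Function.ne_iff.2 ⟨k, by simp [hy]⟩)
  refine ⟨i, ?_⟩
  have h4 := map_eval_tup (resO O : O →+* IsLocalRing.ResidueField O) (fun p => z' (some p)) y i
  have h5 := map_eval_tup (incO O : O →+* Ω) (fun p => z' (some p)) y i
  have h6 : O.valuation (eval y (tup (fun p => z' (some p)) i) : O) = 1 :=
    (resO_ne_zero O _).1 fun h => hi (h4.symm.trans h)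
  have h7 : eval x (tup (fun p => incO O (z' (some p))) i) =
      x k ^ e * (eval y (tup (fun p => z' (some p)) i) : O) := by
    conv_lhs => rw [hxy]
    rw [eval_smul_tup]
    congr 1
    exact h5.symm
  rw [h7, map_mul, h6, mul_one, map_pow]
  refine pow_le_pow_left₀ zero_le ?_ e
  conv_lhs => rw [hxy]
  rw [Pi.smul_apply, smul_eq_mul, map_mul]
  exact mul_le_of_le_one_right' (O.valuation_le_one _)

lemma stab_half {z : Option (σ × Mon σ e) → Ω} (hz : InU z) (hO : ∀ o, z o ∈ O) (g : GL σ Ω)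
    (hg : ∀ o, (rep1 σ e).pt z (dg g) o ∈ O) (M : O.ValueGroup)
    (hM : ∀ i j, O.valuation (g.val i j) ≤ M) (k j : σ) :
    O.valuation ((g⁻¹).val k j) ^ e ≤ M := by
  obtain ⟨i, hi⟩ := norm_lower O (hz.pt (dg g)) hg ((g⁻¹).val *ᵥ Pi.single j 1) k
  have h1 : (fun p => (rep1 σ e).pt z (dg g) (some p)) =
      lin0 g.val g.val fun p => z (some p) := by
    rw [← ext_eta z, pt_rep1]; rfl
  rw [h1, eval_lin0, mulVec_mulVec, Units.mul_inv, one_mulVec, mulVec_single_one] at hi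
  refine hi.trans (O.valuation.map_sum_le fun l _ => ?_)
  rw [map_mul, eval_single_tup]
  exact (mul_le_of_le_one_right' ((O.valuation_le_one_iff _).2 (hO _))).trans (hM l i)

lemma stab_mem {z : Option (σ × Mon σ e) → Ω} (hz : InU z) (hO : ∀ o, z o ∈ O) (g : GL σ Ω)
    (hg : ∀ o, (rep1 σ e).pt z (dg g) o ∈ O) (i j : σ) : g.val i j ∈ O := by
  obtain ⟨p, -, hp⟩ := Finset.exists_max_image (Finset.univ : Finset (σ × σ))
    (fun p => O.valuation (g.val p.1 p.2)) Finset.univ_nonempty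
  obtain ⟨q, -, hq⟩ := Finset.exists_max_image (Finset.univ : Finset (σ × σ))
    (fun p => O.valuation ((g⁻¹).val p.1 p.2)) Finset.univ_nonempty
  have h1 := stab_half O hz hO g hg _ (fun i j => hp (i, j) (Finset.mem_univ _)) q.1 q.2
  have h2 := stab_half O (hz.pt (dg g)) hg g⁻¹ (by rw [dg_inv, Rep.pt_inv_pt]; exact hO) _
    (fun i j => hq (i, j) (Finset.mem_univ _)) p.1 p.2
  rw [inv_inv] at h2
  rw [← O.valuation_le_one_iff]
  refine (hp (i, j) (Finset.mem_univ _)).trans ?_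
  by_contra h
  rw [not_le] at h
  have h3 : 1 < e * e := by have : 2 ≤ e := Fact.out; nlinarith
  have h4 := lt_self_pow₀ h h3
  rw [pow_mul] at h4
  exact absurd ((pow_le_pow_left₀ zero_le h2 e).trans h1) (not_le.2 h4)

lemma stab_lift {z : Option (σ × Mon σ e) → Ω} (hz : InU z) (hO : ∀ o, z o ∈ O) (g : GL σ Ω)
    (hg : ∀ o, (rep1 σ e).pt z (dg g) o ∈ O) :
    ∃ g' : GL σ O, Matrix.GeneralLinearGroup.map (incO O : O →+* Ω) g' = g := by
  have h1 := stab_mem O hz hO g hg
  have h2 := stab_mem O (hz.pt (dg g)) hg g⁻¹ (by rw [dg_inv, Rep.pt_inv_pt]; exact hO)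
  have hinj : ∀ A B : Matrix σ σ O, A.map O.subtype = B.map O.subtype → A = B := fun A B h =>
    Matrix.map_injective O.subtype_injective h
  refine ⟨⟨Matrix.of fun i j => ⟨_, h1 i j⟩, Matrix.of fun i j => ⟨_, h2 i j⟩, hinj _ _ ?_,
    hinj _ _ ?_⟩, Units.ext rfl⟩
  · rw [Matrix.map_mul, Matrix.map_one _ (map_zero _) (map_one _)]
    exact g.mul_inv
  · rw [Matrix.map_mul, Matrix.map_one _ (map_zero _) (map_one _)]
    exact g.inv_mul

lemma pt_mem {τ σ' ι : Type} [Fintype σ'] [DecidableEq σ'] [Fintype ι] [DecidableEq ι]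
    (r : Rep τ σ' ι) {z : ι → Ω} (hO : ∀ o, z o ∈ O) (δ : Gr τ σ' O) (o : ι) :
    r.pt z (mapG (incO O : O →+* Ω) δ) o ∈ O := by
  obtain ⟨z', rfl⟩ := exists_lift O hO
  rw [← r.map_pt]
  exact (r.pt z' δ o).2

lemma cartan [IsAlgClosed Ω] (γ : Gr Bool σ Ω) : ∃ (δ : Gr Bool σ O) (u : σ → Ωˣ) (g : GL σ Ω),
    (∀ i j, O.valuation (u i) = O.valuation (u j) → u i = u j) ∧
    γ * mapG (incO O : O →+* Ω) δ * tor e u = dg g := by
  obtain ⟨P, Q, t, ht0, ht, h⟩ := smith O ((γ false)⁻¹ * γ true)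
  choose r hr using fun x : Ω => IsAlgClosed.exists_pow_nat_eq x (Nat.succ_pos e)
  have hr0 : ∀ i, r (t i)⁻¹ ≠ 0 := by
    intro i h0
    have := hr (t i)⁻¹
    rw [h0, zero_pow (Nat.succ_ne_zero e)] at this
    exact inv_ne_zero (ht0 i) this.symm
  let u : σ → Ωˣ := fun i => Units.mk0 _ (hr0 i)
  refine ⟨pairG P⁻¹ Q, u, γ true * Matrix.GeneralLinearGroup.map (incO O : O →+* Ω) Q * diagU u,
    fun i j hij => ?_, ?_⟩
  · have h1 : O.valuation (t i)⁻¹ = O.valuation (t j)⁻¹ := by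
      rw [← hr (t i)⁻¹, ← hr (t j)⁻¹, map_pow, map_pow]
      exact congrArg (· ^ (e + 1)) hij
    rw [map_inv₀, map_inv₀, _root_.inv_inj] at h1
    apply Units.ext
    show r _ = r _
    rw [ht i j h1]
  · have h1 : Matrix.GeneralLinearGroup.map (incO O : O →+* Ω) P * ((γ false)⁻¹ * γ true) *
        Matrix.GeneralLinearGroup.map (incO O : O →+* Ω) Q * diagU u =
        diagU fun i => (u i)⁻¹ ^ e := by
      apply Units.ext
      rw [Units.val_mul, Units.val_mul, Units.val_mul]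
      have h2 : P.val.map O.subtype * ((γ false)⁻¹ * γ true).val * Q.val.map O.subtype *
          (diagU u).val = (diagU fun i => (u i)⁻¹ ^ e).val := by
        rw [h, diagU_val, diagU_val, diagonal_mul_diagonal]
        congr 1
        funext i
        have h3 := hr (t i)⁻¹
        have h4 := hr0 i
        have h5 := ht0 i
        simp only [u, Units.val_mk0, Units.val_pow_eq_pow_val, Units.val_inv_eq_inv_val]
        generalize r (t i)⁻¹ = y at h3 h4
        rw [← inv_inv (t i), ← h3, pow_succ, inv_pow]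
        field_simp
      exact h2
    funext b
    cases b
    · show γ false * Matrix.GeneralLinearGroup.map (incO O : O →+* Ω) P⁻¹ *
        (diagU fun i => (u i)⁻¹ ^ e) = _
      rw [← h1, map_inv]
      simp [mul_assoc]
    · rfl

/-- add a variable to a monomial -/
noncomputable def Mon.add (β : Mon σ e) (i : σ) : Mon σ (e + 1) :=
  ⟨β.1 + Finsupp.single i 1, by rw [map_add, β.2, Finsupp.degree_single]⟩

lemma Mon.exists_add (α : Mon σ (e + 1)) {l : σ} (h : α.1 l ≠ 0) :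
    ∃ β : Mon σ e, β.add l = α := by
  have h2 : α.1 - Finsupp.single l 1 + Finsupp.single l 1 = α.1 :=
    tsub_add_cancel_of_le (Finsupp.single_le_iff.2 (Nat.one_le_iff_ne_zero.2 h))
  have h3 : (α.1 - Finsupp.single l 1).degree = e := by
    have h4 := α.2
    rw [← h2, map_add, Finsupp.degree_single] at h4
    omega
  exact ⟨⟨_, h3⟩, Subtype.ext h2⟩

lemma Mon.add_apply (β : Mon σ e) (i j : σ) :
    (β.add i).1 j = β.1 j + if i = j then 1 else 0 := by
  simp [Mon.add, Finsupp.single_apply]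

lemma Mon.prod_add {M : Type} [CommMonoid M] (u : σ → M) (β : Mon σ e) (i : σ) :
    ∏ j, u j ^ (β.add i).1 j = (∏ j, u j ^ β.1 j) * u i := by
  simp only [Mon.add_apply, pow_add, Finset.prod_mul_distrib]
  simp

omit [Fact (2 ≤ e)] in
lemma Mon.sum_eq (α : Mon σ e) : ∑ j, α.1 j = e := by
  rw [← Finsupp.degree_eq_sum, α.2]

lemma pt_tor_some {R : Type} [CommRing R] [Algebra ℂ R] (z : Option (σ × Mon σ e) → R)
    (u : σ → Rˣ) (p : σ × Mon σ e) : (rep1 σ e).pt z (tor e u) (some p) =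
      (((u p.1)⁻¹ ^ e * ∏ j, u j ^ p.2.1 j : Rˣ) : R) * z (some p) := by
  rw [← ext_eta z, pt_rep1, ext_some, lin0_tor]; rfl

lemma pt_tor_none {R : Type} [CommRing R] [Algebra ℂ R] (z : Option (σ × Mon σ e) → R)
    (u : σ → Rˣ) : (rep1 σ e).pt z (tor e u) none = z none := by
  rw [← ext_eta z, pt_rep1, ext_none, ← tor_inv, chi_tor, one_mul]; rfl

section Repl

variable {z : Option (σ × Mon σ e) → Ω} (hO : ∀ o, z o ∈ O) (u : σ → Ωˣ)
  (hX : IsX ((rep1 σ e).pt z (tor e u)))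

include hX in
lemma repl_key : ∃ c : Mon σ (e + 1) → O.ValueGroup, ∀ (i : σ) (β : Mon σ e),
    O.valuation ((rep1 σ e).pt z (tor e u) (some (i, β))) = c (β.add i) ∧
    c (β.add i) * O.valuation (u i) ^ (e + 1) =
      (∏ j, O.valuation (u j) ^ (β.add i).1 j) * O.valuation (z (some (i, β))) := by
  obtain ⟨-, f, -, h2⟩ := hX
  refine ⟨fun α => O.valuation (coeff α.1 f), fun i β => ?_⟩
  have h3 : O.valuation ((rep1 σ e).pt z (tor e u) (some (i, β))) =
      O.valuation (coeff (β.add i).1 f) := by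
    rw [h2, ptX, ext_some, crd_grad_apply, map_mul, ← Nat.cast_succ,
      valuation_natCast O (Nat.succ_ne_zero _), mul_one]
    rfl
  refine ⟨h3, ?_⟩
  have h4 : O.valuation (u i) ≠ 0 := (map_ne_zero _).2 (u i).ne_zero
  beta_reduce
  rw [← h3, pt_tor_some, Mon.prod_add]
  simp only [Units.val_mul, Units.val_pow_eq_pow_val, Units.val_inv_eq_inv_val, map_mul, map_pow,
    map_inv₀, Units.coe_prod, map_prod]
  rw [inv_pow, pow_succ]
  field_simp

include hO hX in
lemma repl_mem (o : Option (σ × Mon σ e)) : (rep1 σ e).pt z (tor e u) o ∈ O := by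
  cases o with
  | none => rw [pt_tor_none]; exact hO none
  | some p =>
    obtain ⟨c, hc⟩ := repl_key O u hX
    obtain ⟨i, β⟩ := p
    rw [← O.valuation_le_one_iff, (hc i β).1]
    generalize β.add i = α
    have h0 : ∀ j, O.valuation (u j) ≠ 0 := fun j => (map_ne_zero _).2 (u j).ne_zero
    have h1 : ∏ l, (c α * O.valuation (u l) ^ (e + 1)) ^ α.1 l ≤
        ∏ l, (∏ j, O.valuation (u j) ^ α.1 j) ^ α.1 l := by
      refine Finset.prod_le_prod' fun l _ => ?_
      by_cases hl : α.1 l = 0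
      · simp [hl]
      obtain ⟨β', rfl⟩ := α.exists_add hl
      refine pow_le_pow_left₀ zero_le ?_ _
      rw [(hc l β').2]
      exact mul_le_of_le_one_right' ((O.valuation_le_one_iff _).2 (hO _))
    simp only [mul_pow, Finset.prod_mul_distrib, Finset.prod_pow_eq_pow_sum] at h1
    rw [α.sum_eq] at h1
    simp only [← pow_mul, mul_comm (e + 1)] at h1
    simp only [pow_mul, Finset.prod_pow] at h1
    have h2 : 0 < (∏ j, O.valuation (u j) ^ α.1 j) ^ (e + 1) :=
      pow_pos (zero_lt_iff.2 (Finset.prod_ne_zero_iff.2 fun j _ => pow_ne_zero _ (h0 j))) _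
    have h3 : c α ^ (e + 1) ≤ 1 := by
      rwa [← mul_le_mul_iff_left₀ h2, one_mul]
    exact (pow_le_one_iff_of_nonneg zero_le (Nat.succ_ne_zero e)).1 h3

include hO hX in
lemma repl_le (i : σ) (β : Mon σ e) (h : O.valuation (z (some (i, β))) = 1) (j : σ)
    (hj : β.1 j ≠ 0) : O.valuation (u j) ≤ O.valuation (u i) := by
  obtain ⟨c, hc⟩ := repl_key O u hX
  have h0 : ∀ j, O.valuation (u j) ≠ 0 := fun j => (map_ne_zero _).2 (u j).ne_zero
  obtain ⟨β', hβ'⟩ := (β.add i).exists_add (l := j) (by rw [Mon.add_apply]; omega)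
  have h1 := (hc i β).2
  have h2 := (hc j β').2
  rw [h, mul_one] at h1
  rw [hβ', ← h1] at h2
  have h3 : c (β.add i) ≠ 0 := by
    intro h4
    rw [h4, zero_mul] at h1
    exact Finset.prod_ne_zero_iff.2 (fun j _ => pow_ne_zero _ (h0 j)) h1.symm
  have h4 : O.valuation (u j) ^ (e + 1) ≤ O.valuation (u i) ^ (e + 1) := by
    rw [mul_assoc] at h2
    rw [mul_left_cancel₀ h3 h2]
    exact mul_le_of_le_one_right' ((O.valuation_le_one_iff _).2 (hO _))
  exact (pow_le_pow_iff_left₀ zero_le zero_le (Nat.succ_ne_zero e)).1 h4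

include hO hX in
lemma repl_eq (i : σ) (β : Mon σ e)
    (h : O.valuation ((rep1 σ e).pt z (tor e u) (some (i, β))) = 1) (j : σ)
    (hj : β.1 j ≠ 0) : O.valuation (u j) = O.valuation (u i) := by
  obtain ⟨c, hc⟩ := repl_key O u hX
  have h0 : ∀ j, O.valuation (u j) ≠ 0 := fun j => (map_ne_zero _).2 (u j).ne_zero
  rw [(hc i β).1] at h
  have hj' : (β.add i).1 j ≠ 0 := by rw [Mon.add_apply]; omega
  have hi' : (β.add i).1 i ≠ 0 := by rw [Mon.add_apply]; simp
  generalize β.add i = α at h hj' hi'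
  let π := ∏ j, O.valuation (u j) ^ α.1 j
  have hπ : π ≠ 0 := Finset.prod_ne_zero_iff.2 fun j _ => pow_ne_zero _ (h0 j)
  have h1 : ∀ l, α.1 l ≠ 0 → O.valuation (u l) ^ (e + 1) / π ≤ 1 := by
    intro l hl
    obtain ⟨β', rfl⟩ := α.exists_add hl
    have h2 := (hc l β').2
    rw [h, one_mul] at h2
    rw [h2, mul_div_cancel_left₀ _ hπ]
    exact (O.valuation_le_one_iff _).2 (hO _)
  have h2 : ∏ l, (O.valuation (u l) ^ (e + 1) / π) ^ α.1 l = 1 := by
    simp only [div_pow, Finset.prod_div_distrib, Finset.prod_pow_eq_pow_sum]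
    rw [α.sum_eq]
    simp only [← pow_mul, mul_comm (e + 1)]
    simp only [pow_mul, Finset.prod_pow]
    exact div_self (pow_ne_zero _ hπ)
  rw [Finset.prod_eq_one_iff_of_le_one' (fun l _ => by
    by_cases hl : α.1 l = 0
    · simp [hl]
    · exact pow_le_one₀ zero_le (h1 l hl))] at h2
  have h3 : ∀ l, α.1 l ≠ 0 → O.valuation (u l) ^ (e + 1) = π := by
    intro l hl
    have h4 := (pow_eq_one_iff_of_nonneg zero_le hl).1 (h2 l (Finset.mem_univ l))
    rwa [div_eq_one_iff_eq hπ] at h4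
  exact (pow_left_inj₀ zero_le zero_le (Nat.succ_ne_zero e)).1 ((h3 j hj').trans (h3 i hi').symm)

end Repl

lemma replacement [IsAlgClosed Ω] {z : Option (σ × Mon σ e) → Ω} (hz : IsX z) (γ : Gr Bool σ Ω)
    (hγ : ∀ o, (rep1 σ e).pt z γ o ∈ O) : ∃ g : GL σ Ω, ∀ o, (rep1 σ e).pt z (dg g) o ∈ O := by
  obtain ⟨δ, u, g, -, h⟩ := cartan (e := e) O γ
  refine ⟨g, ?_⟩
  have h1 : (rep1 σ e).pt z (dg g) =
      (rep1 σ e).pt ((rep1 σ e).pt ((rep1 σ e).pt z γ) (mapG (incO O : O →+* Ω) δ)) (tor e u) := by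
    rw [← h, Rep.pt_mul, Rep.pt_mul]
  rw [h1]
  exact repl_mem O (pt_mem O _ hγ δ) u (h1 ▸ hz.dg g)

lemma finite_stab {h : Option (σ × Mon σ e) → ℂ} (hh : InU h) :
    {g : GL σ ℂ | (rep1 σ e).pt h (dg g) = h}.Finite := by
  let A := CG Unit σ ℂ
  let I : Ideal A := Ideal.span (Set.range fun o => (repG σ e).orbHom h (X o - C (h o)))
  have : IsNoetherianRing A := Algebra.FiniteType.isNoetherianRing ℂ A
  have h1 : ∀ p ∈ I.minimalPrimes, ∃ m : Matrix σ σ ℂ, ∀ i j,
      (genG Unit σ ℂ ()).val i j - algebraMap ℂ A (m i j) ∈ p := by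
    intro p hp
    have : p.IsPrime := hp.1.1
    obtain ⟨K, _, _, ψ, hψ⟩ := exists_field_of_prime p
    let γ : Gr Unit σ K := mapG (ψ : A →+* K) (genG Unit σ ℂ)
    have h2 : (rep1 σ e).pt (fun o => algebraMap ℂ K (h o)) (dg (γ ())) =
        fun o => algebraMap ℂ K (h o) := by
      funext o
      have h3 := (hψ _).2 (hp.1.2 (Ideal.subset_span ⟨o, rfl⟩))
      rw [← evG_mapG ℂ ψ, Rep.evG_orbHom', map_sub, aeval_X, aeval_C, sub_eq_zero] at h3
      exact h3
    have h3 : ∀ i j, ∃ c : ℂ, algebraMap ℂ K c = (γ ()).val i j := by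
      intro i j
      apply mem_range_of_forall_valuation
      intro O _
      exact stab_mem O (hh.map (Algebra.ofId ℂ K)) (fun o => OverC.mem _) (γ ())
        (fun o => (congrFun h2 o).symm ▸ OverC.mem _) i j
    choose m hm using h3
    refine ⟨Matrix.of m, fun i j => (hψ _).1 ?_⟩
    rw [map_sub, AlgHom.commutes, Matrix.of_apply, hm, sub_eq_zero]
    rfl
  choose! m hm using h1
  refine ((I.finite_minimalPrimes_of_isNoetherianRing A).image m).preimage
    (f := fun g : GL σ ℂ => g.val) Units.val_injective.injOn |>.subset ?_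
  intro g hg
  let ψ := evG ℂ (fun _ => g : Gr Unit σ ℂ)
  have : (RingHom.ker ψ).IsPrime := RingHom.ker_isPrime ψ
  obtain ⟨p, hp, hp'⟩ := Ideal.exists_minimalPrimes_le (I := I) (J := RingHom.ker ψ) (by
    rw [Ideal.span_le]
    rintro _ ⟨o, rfl⟩
    show ψ _ = 0
    rw [Rep.evG_orbHom, map_sub, aeval_X, aeval_C, sub_eq_zero]
    exact congrFun hg o)
  refine ⟨p, hp, ?_⟩
  ext i j
  have h2 : ψ _ = 0 := hp' (hm p hp i j)
  rw [map_sub, AlgHom.commutes, genG_apply, evG_algebraMap, aeval_X, sub_eq_zero] at h2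
  exact h2.symm

end Pool.Agent.P.MP_f4e0a3_ag
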