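import Mathlib
import Pool.Agent.P.MP_f4e0a3_ag.Centre
import Pool.Agent.P.MP_f4e0a3_ag.Stab

/-!
Multigradings by blocks, an assignment lemma, and graded functionals on the Jacobian quotient.
-/

open MvPolynomial Matrix

set_option linter.unusedSectionVars false

namespace Pool.Agent.P.MP_f4e0a3_ag

lemma hall_assign {S κ : Type} [Fintype S] [Fintype κ] [DecidableEq κ] (d : ℕ) (hd : 0 < d)
    (ω : S → κ → ℕ) (h1 : ∀ s, ∑ c, ω s c = d) (h2 : ∀ c, d ∣ ∑ s, ω s c) :
    ∃ a : S → κ, (∀ s, ω s (a s) ≠ 0) ∧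
      ∀ c, ∑ s, ω s c = d * (Finset.univ.filter fun s => a s = c).card := by
  classical
  choose r hr using h2
  let t : S → Finset (Σ c, Fin (r c)) := fun s => Finset.univ.filter fun y => ω s y.1 ≠ 0
  obtain ⟨f, hf, hft⟩ := (Finset.all_card_le_biUnion_card_iff_exists_injective t).1 (by
    intro A
    let Nb : Finset κ := Finset.univ.filter fun c => ∃ s ∈ A, ω s c ≠ 0
    have h3 : A.biUnion t = Nb.sigma fun _ => Finset.univ := by
      ext y
      simp [t, Nb]
    rw [h3, Finset.card_sigma]
    simp only [Finset.card_univ, Fintype.card_fin]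
    apply Nat.le_of_mul_le_mul_left _ hd
    calc d * A.card = ∑ s ∈ A, ∑ c, ω s c := by simp [h1, mul_comm]
      _ = ∑ c, ∑ s ∈ A, ω s c := Finset.sum_comm
      _ = ∑ c ∈ Nb, ∑ s ∈ A, ω s c := by
        symm
        apply Finset.sum_subset (Finset.subset_univ _)
        intro c _ hc
        simp only [Nb, Finset.mem_filter, Finset.mem_univ, true_and, not_exists, not_and,
          not_not] at hc
        exact Finset.sum_eq_zero hc
      _ ≤ ∑ c ∈ Nb, d * r c := Finset.sum_le_sum fun c _ => by
        rw [← hr]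
        exact Finset.sum_le_sum_of_subset (Finset.subset_univ _)
      _ = _ := by rw [Finset.mul_sum])
  have hcard : Fintype.card S = Fintype.card (Σ c, Fin (r c)) := by
    apply Nat.eq_of_mul_eq_mul_left hd
    rw [Fintype.card_sigma]
    simp only [Fintype.card_fin, Finset.mul_sum, ← hr]
    rw [Finset.sum_comm]
    simp [h1, mul_comm]
  have hbij : Function.Bijective f := (Fintype.bijective_iff_injective_and_card f).2 ⟨hf, hcard⟩
  refine ⟨fun s => (f s).1, fun s => by simpa [t] using hft s, fun c => ?_⟩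
  rw [hr]
  congr 1
  have h3 : (Finset.univ.filter fun y : (Σ c, Fin (r c)) => y.1 = c) =
      ({c} : Finset κ).sigma fun _ => Finset.univ := by
    ext y
    simp
  have h4 : (Finset.univ.filter fun y : (Σ c, Fin (r c)) => y.1 = c).card = r c := by
    rw [h3, Finset.card_sigma]
    simp
  rw [← h4]
  symm
  exact Finset.card_bijective f hbij (by simp)

variable {σ : Type} [Fintype σ] [DecidableEq σ] {e : ℕ}
variable {κ : Type} [Fintype κ] [DecidableEq κ]

/-- block weights -/
def bw (b : σ → κ) : σ → κ → ℕ := fun j => Pi.single (b j) 1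

/-- multidegree -/
noncomputable def md (b : σ → κ) : (σ →₀ ℕ) →+ (κ → ℕ) := Finsupp.weight (bw b)

lemma md_apply (b : σ → κ) (β : σ →₀ ℕ) (c : κ) :
    md b β c = ∑ j, if b j = c then β j else 0 := by
  rw [md, Finsupp.weight_eq_sum, Finset.sum_apply]
  refine Finset.sum_congr rfl fun j _ => ?_
  by_cases h : b j = c
  · simp [bw, h]
  · simp [bw, h]

lemma md_single (b : σ → κ) (j : σ) : md b (Finsupp.single j 1) = Pi.single (b j) 1 := by
  rw [md, Finsupp.weight_single, one_smul, bw]

lemma sum_md (b : σ → κ) (β : σ →₀ ℕ) : ∑ c, md b β c = β.degree := by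
  simp only [md_apply]
  rw [Finset.sum_comm, Finsupp.degree_eq_sum]
  simp

lemma prod_md {M : Type} [CommMonoid M] (b : σ → κ) (u : κ → M) (β : σ →₀ ℕ) :
    ∏ j, u (b j) ^ β j = ∏ c, u c ^ md b β c := by
  simp only [md_apply, ← Finset.prod_pow_eq_pow_sum]
  rw [Finset.prod_comm]
  refine Finset.prod_congr rfl fun j _ => ?_
  rw [Finset.prod_eq_single (b j)]
  · simp
  · intro c _ hc
    simp [hc.symm]
  · simp

/-- the infinitesimal action -/
noncomputable def lieD {R : Type} [CommRing R] (E : Matrix σ σ R) (p : MvPolynomial σ R) :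
    MvPolynomial σ R := ∑ l, ∑ k, C (E l k) * (X k * pderiv l p)

lemma taylor_sub {R : Type} [CommRing R] (t : R) (E : Matrix σ σ R) (p : MvPolynomial σ R) :
    ∃ r, sub (1 + t • E) p = p + C t * lieD E p + C t ^ 2 * r := by
  induction p using MvPolynomial.induction_on with
  | C a => exact ⟨0, by simp [lieD]⟩
  | add p q hp hq =>
    obtain ⟨r, hr⟩ := hp
    obtain ⟨r', hr'⟩ := hq
    refine ⟨r + r', ?_⟩
    rw [map_add, hr, hr']
    simp only [lieD, map_add, mul_add, Finset.sum_add_distrib]
    ring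
  | mul_X p j hp =>
    obtain ⟨r, hr⟩ := hp
    let y : MvPolynomial σ R := ∑ k, C (E j k) * X k
    have h1 : sub (1 + t • E) (X j) = X j + C t * y := by
      simp [sub_X, y, add_mul, Finset.sum_add_distrib, Matrix.one_apply, apply_ite, Finset.mul_sum,
        mul_assoc]
    have h2 : lieD E (p * X j) = lieD E p * X j + p * y := by
      simp only [lieD, Derivation.leibniz, smul_eq_mul, mul_add, Finset.sum_add_distrib,
        Finset.sum_mul, y, Finset.mul_sum]
      rw [add_comm]
      congr 1
      · exact Finset.sum_congr rfl fun l _ => Finset.sum_congr rfl fun k _ => by ring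
      · rw [Finset.sum_eq_single j]
        · exact Finset.sum_congr rfl fun k _ => by simp; ring
        · intro l _ hl
          simp [pderiv_X_of_ne hl.symm]
        · simp
    refine ⟨r * X j + lieD E p * y + C t * r * y, ?_⟩
    rw [map_mul, hr, h1, h2]
    ring

/-- the tangent space of the orbit -/
noncomputable def JJ (f : MvPolynomial σ ℂ) : Submodule ℂ (MvPolynomial σ ℂ) :=
  Submodule.span ℂ (Set.range fun q : σ × σ => X q.2 * pderiv q.1 f)

lemma X_mul_mem_JJ (f : MvPolynomial σ ℂ) (k l : σ) : X k * pderiv l f ∈ JJ f :=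
  Submodule.subset_span ⟨(l, k), rfl⟩

lemma exists_lieD {f j : MvPolynomial σ ℂ} (hj : j ∈ JJ f) : ∃ E, j = lieD E f := by
  obtain ⟨c, rfl⟩ := (Submodule.mem_span_range_iff_exists_fun ℂ).1 hj
  refine ⟨Matrix.of fun l k => c (l, k), ?_⟩
  rw [Fintype.sum_prod_type]
  simp [lieD, smul_eq_C_mul]

lemma JJ_isHomogeneous {f j : MvPolynomial σ ℂ} (hf : f.IsHomogeneous (e + 1)) (hj : j ∈ JJ f) :
    j.IsHomogeneous (e + 1) := by
  have : JJ f ≤ homogeneousSubmodule σ ℂ (e + 1) := by
    rw [JJ, Submodule.span_le]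
    rintro _ ⟨q, rfl⟩
    have := (isHomogeneous_X ℂ q.2).mul (grad_isHomogeneous hf q.1)
    rwa [add_comm] at this
  exact this hj

section Blocks

variable {f : MvPolynomial σ ℂ} (hf : f.IsHomogeneous (e + 1)) {b : σ → κ} (hb : Blocks f b)

include hb in
lemma Blocks.eq_of_pderiv {l : σ} {β : σ →₀ ℕ} (h : coeff β (pderiv l f) ≠ 0) {j : σ}
    (hj : β j ≠ 0) : b j = b l := by
  rw [coeff_pderiv] at h
  refine hb.eq_of_coeff (left_ne_zero_of_mul h) ?_ ?_
  · simp [hj]
  · simp

include hf hb in
lemma Blocks.weighted (l : σ) :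
    IsWeightedHomogeneous (bw b) (pderiv l f) (Pi.single (b l) e) := by
  intro β hβ
  have h1 : β.degree = e := by
    by_contra h
    exact hβ ((grad_isHomogeneous hf l).coeff_eq_zero h)
  funext c
  show md b β c = _
  rw [md_apply]
  by_cases hc : b l = c
  · rw [← hc, Pi.single_eq_same, ← h1, Finsupp.degree_eq_sum]
    refine Finset.sum_congr rfl fun j _ => ?_
    by_cases hj : β j = 0
    · simp [hj]
    · rw [if_pos (hb.eq_of_pderiv hβ hj)]
  · rw [Pi.single_eq_of_ne' hc]
    refine Finset.sum_eq_zero fun j _ => ?_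
    by_cases hj : β j = 0
    · simp [hj]
    · rw [if_neg]
      rw [hb.eq_of_pderiv hβ hj]
      exact hc

include hf hb in
lemma Blocks.comp_mem_JJ (ω : κ → ℕ) {j : MvPolynomial σ ℂ} (hj : j ∈ JJ f) :
    weightedHomogeneousComponent (bw b) ω j ∈ JJ f := by
  have : (JJ f).map (weightedHomogeneousComponent (bw b) ω) ≤ JJ f := by
    rw [JJ, Submodule.map_span, Submodule.span_le]
    rintro _ ⟨_, ⟨q, rfl⟩, rfl⟩
    have h1 := (isWeightedHomogeneous_X ℂ (bw b) q.2).mul (hb.weighted hf q.1)
    rw [weightedHomogeneousComponent_of_mem h1]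
    split_ifs
    · exact X_mul_mem_JJ f _ _
    · exact Submodule.zero_mem _
  exact this (Submodule.mem_map_of_mem hj)

include hf hb in
lemma Blocks.exists_proj : ∃ u : Mon σ (e + 1) → (MvPolynomial σ ℂ →ₗ[ℂ] ℂ),
    (∀ m, ∀ j ∈ JJ f, u m j = 0) ∧
    (∀ m (p : MvPolynomial σ ℂ), u m (weightedHomogeneousComponent (bw b) (md b m.1) p) = u m p) ∧
    ∀ p : MvPolynomial σ ℂ, p.IsHomogeneous (e + 1) → p - frm (fun m => u m p) ∈ JJ f := by
  obtain ⟨J', hJ'⟩ := Submodule.exists_isCompl (JJ f)
  let pr := (JJ f).projection J' hJ'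
  let π : (κ → ℕ) → MvPolynomial σ ℂ →ₗ[ℂ] MvPolynomial σ ℂ := weightedHomogeneousComponent (bw b)
  have hπ : ∀ ω p, π ω (π ω p) = π ω p := fun ω p =>
    (weightedHomogeneousComponent_isWeightedHomogeneous ω p).weightedHomogeneousComponent_same
  let u : Mon σ (e + 1) → (MvPolynomial σ ℂ →ₗ[ℂ] ℂ) :=
    fun m => (lcoeff ℂ m.1).comp ((LinearMap.id - pr).comp (π (md b m.1)))
  have hu : ∀ m p, u m p = coeff m.1 (π (md b m.1) p - pr (π (md b m.1) p)) := fun _ _ => rfl
  refine ⟨u, fun m j hj => ?_, fun m p => ?_, fun p hp => ?_⟩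
  · rw [hu, Submodule.projection_apply_of_mem_left hJ' (hb.comp_mem_JJ hf _ hj)]
    simp [π]
  · rw [hu, hu, hπ]
  · have key : ∀ m' : Mon σ (e + 1),
        monomial m'.1 1 - frm (fun m => u m (monomial m'.1 1)) ∈ JJ f := by
      intro m'
      have h0 : IsWeightedHomogeneous (bw b) (monomial m'.1 (1 : ℂ)) (md b m'.1) :=
        isWeightedHomogeneous_monomial _ _ _ rfl
      have h1 : pr (monomial m'.1 1) ∈ JJ f := Submodule.projection_apply_mem hJ' _
      have h2 : (monomial m'.1 1 - frm (fun m => u m (monomial m'.1 1))) =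
          π (md b m'.1) (pr (monomial m'.1 1)) := by
        refine IsHomogeneous.ext_mon
          ((isHomogeneous_monomial _ m'.2).sub (frm_isHomogeneous _))
          (JJ_isHomogeneous hf (hb.comp_mem_JJ hf _ h1)) fun m => ?_
        rw [coeff_sub, coeff_frm, hu, weightedHomogeneousComponent_of_mem h0,
          coeff_weightedHomogeneousComponent]
        by_cases h : md b m.1 = md b m'.1
        · rw [if_pos h, if_pos (show Finsupp.weight (bw b) m.1 = _ from h)]
          simp
        · rw [if_neg h, if_neg (show ¬ Finsupp.weight (bw b) m.1 = _ from h), coeff_monomial,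
            if_neg (fun h' => h (by rw [h']))]
          simp
      rw [h2]
      exact hb.comp_mem_JJ hf _ h1
    have h3 : p = ∑ m' : Mon σ (e + 1), coeff m'.1 p • monomial m'.1 1 := by
      conv_lhs => rw [← frm_coeff hp, frm]
      simp [smul_monomial]
    have h4 : p - frm (fun m => u m p) = ∑ m' : Mon σ (e + 1),
        coeff m'.1 p • (monomial m'.1 1 - frm (fun m => u m (monomial m'.1 1))) := by
      simp only [smul_sub, Finset.sum_sub_distrib]
      rw [← h3]
      congr 1
      conv_lhs => rw [h3]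
      simp only [map_sum, map_smul]
      simp only [frm, map_sum, Finset.smul_sum, smul_monomial]
      rw [Finset.sum_comm]
    rw [h4]
    exact Submodule.sum_mem _ fun m' _ => Submodule.smul_mem _ _ (key m')

include hf hb in
lemma Blocks.euler_pderiv (a : κ) (l : σ) :
    ∑ i, (if b i = a then X i * pderiv i (pderiv l f) else 0) =
      if b l = a then e • pderiv l f else 0 := by
  split_ifs with h
  · refine Eq.trans ?_ (grad_isHomogeneous hf l).sum_X_mul_pderiv
    refine Finset.sum_congr rfl fun i _ => ?_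
    split_ifs with h'
    · rfl
    · rw [show pderiv i (grad f l) = 0 from hb.sep i l (by rw [h]; exact h'), mul_zero]
  · refine Finset.sum_eq_zero fun i _ => ?_
    split_ifs with h'
    · rw [hb.sep i l (by rw [h']; exact fun h'' => h h''.symm), mul_zero]
    · rfl

end Blocks

lemma comp_euler (b : σ → κ) (a : κ) (ω : κ → ℕ) (p : MvPolynomial σ ℂ) :
    weightedHomogeneousComponent (bw b) ω (∑ i, if b i = a then X i * pderiv i p else 0) =
      (ω a : ℂ) • weightedHomogeneousComponent (bw b) ω p := by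
  ext β
  rw [coeff_smul, coeff_weightedHomogeneousComponent, coeff_weightedHomogeneousComponent]
  split_ifs with h
  · rw [← h, show Finsupp.weight (bw b) β a = md b β a from rfl, md_apply, coeff_sum]
    push_cast
    rw [smul_eq_mul, Finset.sum_mul]
    refine Finset.sum_congr rfl fun i _ => ?_
    split_ifs with h'
    · rw [coeff_X_mul']
      split_ifs with h''
      · have h1 : β i ≠ 0 := Finsupp.mem_support_iff.1 h''
        rw [coeff_pderiv, tsub_add_cancel_of_le
          (Finsupp.single_le_iff.2 (Nat.one_le_iff_ne_zero.2 h1)), mul_comm]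
        congr 1
        rw [← Nat.cast_succ]
        congr 1
        simp only [Finsupp.tsub_apply, Finsupp.single_eq_same]
        omega
      · simp [Finsupp.notMem_support_iff.1 h'']
    · simp
  · simp

lemma exists_lift_functional (b : σ → κ) (u : MvPolynomial σ ℂ →ₗ[ℂ] ℂ) (ω : κ → ℕ)
    (hu : ∀ p, u (weightedHomogeneousComponent (bw b) ω p) = u p) (a : κ) :
    ∃ v : σ × Mon σ e → ℂ,
      (∀ p, v p ≠ 0 → b p.1 = a ∧ md b p.2.1 + Pi.single a 1 = ω) ∧
      ∀ w : σ → MvPolynomial σ ℂ, (∀ i, (w i).IsHomogeneous e) →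
        ∑ p, v p * crd e w p = (ω a : ℂ)⁻¹ * u (∑ i, if b i = a then X i * w i else 0) := by
  refine ⟨fun p => if b p.1 = a then (ω a : ℂ)⁻¹ * u (X p.1 * monomial p.2.1 1) else 0,
    fun p hp => ?_, fun w hw => ?_⟩
  · by_cases h : b p.1 = a
    · refine ⟨h, ?_⟩
      by_contra h'
      apply hp
      have h1 := (isWeightedHomogeneous_X ℂ (bw b) p.1).mul
        (isWeightedHomogeneous_monomial (bw b) p.2.1 (1 : ℂ) rfl)
      simp only [if_pos h]
      rw [← hu, weightedHomogeneousComponent_of_mem h1, if_neg, map_zero, mul_zero]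
      intro h2
      apply h'
      rw [h2, ← h, add_comm]; rfl
    · simp [h] at hp
  · rw [Fintype.sum_prod_type, map_sum, Finset.mul_sum]
    refine Finset.sum_congr rfl fun i _ => ?_
    split_ifs with h
    · conv_rhs => rw [← frm_coeff (hw i), frm, Finset.mul_sum, map_sum, Finset.mul_sum]
      refine Finset.sum_congr rfl fun β _ => ?_
      have : (X i * monomial β.1 (coeff β.1 (w i)) : MvPolynomial σ ℂ) =
          coeff β.1 (w i) • (X i * monomial β.1 1) := by
        rw [← mul_smul_comm, smul_monomial, smul_eq_mul, mul_one]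
      rw [this, map_smul, crd, smul_eq_mul]
      simp only [if_pos h]
      ring
    · simp [h]

end Pool.Agent.P.MP_f4e0a3_ag
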