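import Mathlib
import Pool.Agent.P.MP_f4e0a3_ag.Graded

/-!
Leading forms of invariant functions on the smooth locus.
-/

open MvPolynomial Matrix

set_option linter.unusedSectionVars false

namespace Pool.Agent.P.MP_f4e0a3_ag

lemma aeval_mem_pow {ι T : Type} [CommRing T] [Algebra ℂ T] {q : MvPolynomial ι ℂ} {N : ℕ}
    (hq : q.IsHomogeneous N) (I : Ideal T) (y : ι → T) (hy : ∀ i, y i ∈ I) :
    aeval y q ∈ I ^ N := by
  rw [q.as_sum, map_sum]
  refine Ideal.sum_mem _ fun α hα => ?_
  rw [aeval_monomial, hq.degree_eq_sum_deg_support hα, ← Finset.prod_pow_eq_pow_sum]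
  exact Ideal.mul_mem_left _ _ (Ideal.prod_mem_prod fun i _ => Ideal.pow_mem_pow (hy i) _)

lemma aeval_mul_left {ι T : Type} [CommRing T] [Algebra ℂ T] {q : MvPolynomial ι ℂ} {N : ℕ}
    (hq : q.IsHomogeneous N) (t : T) (y : ι → T) :
    aeval (fun i => t * y i) q = t ^ N * aeval y q := by
  conv_lhs => rw [q.as_sum]
  conv_rhs => rw [q.as_sum]
  rw [map_sum, map_sum, Finset.mul_sum]
  refine Finset.sum_congr rfl fun α hα => ?_
  rw [aeval_monomial, aeval_monomial, hq.degree_eq_sum_deg_support hα,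
    ← Finset.prod_pow_eq_pow_sum]
  simp only [Finsupp.prod, mul_pow, Finset.prod_mul_distrib]
  ring

variable {σ : Type} [Fintype σ] [DecidableEq σ] {e : ℕ} [Nonempty σ] [Fact (2 ≤ e)]

/-- centred coordinates -/
noncomputable def yv (h : Option (σ × Mon σ e) → ℂ) :
    σ × Mon σ e → MvPolynomial (Option (σ × Mon σ e)) ℂ := fun p => X (some p) - C (h (some p))

lemma yv_mem (h : Option (σ × Mon σ e) → ℂ) (p : σ × Mon σ e) : yv h p ∈ mI h := by
  simp [yv, mem_mI]

lemma lead_one {h : Option (σ × Mon σ e) → ℂ} (hh : InU h)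
    {P : MvPolynomial (Option (σ × Mon σ e)) ℂ} (hP : P ∈ mI h) :
    ∃ q : MvPolynomial (σ × Mon σ e) ℂ, q.IsHomogeneous 1 ∧
      P - aeval (yv h) q ∈ IX σ e ⊔ mI h ^ 2 := by
  let G : MvPolynomial (Option (σ × Mon σ e)) ℂ := X none * rename some (Res σ e) - 1
  have hG : ∀ z : Option (σ × Mon σ e) → ℂ, InU z → aeval z G = 0 := by
    intro z hz
    rw [map_sub, map_mul, aeval_X, aeval_rename, map_one, sub_eq_zero]
    exact hz
  have hG1 : G ∈ IX σ e := mem_IX fun z hz => hG z hz.1
  have hG2 : h none * aeval h (pderiv none G) = 1 := by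
    have h1 : pderiv none (rename some (Res σ e)) = 0 := by
      apply pderiv_eq_zero_of_notMem_vars
      intro h2
      obtain ⟨i, -, hi⟩ := Finset.mem_image.1 (vars_rename _ _ h2)
      simp at hi
    simp only [G, map_sub, Derivation.leibniz, h1, mul_zero, pderiv_X_self, smul_eq_mul, mul_one,
      zero_add, Derivation.map_one_eq_zero, sub_zero, aeval_rename]
    exact hh
  have h1 := taylor_one h P
  have h2 := taylor_one h G
  rw [hG h hh, Fintype.sum_option] at h2
  rw [show aeval h P = 0 from hP, Fintype.sum_option] at h1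
  let c := aeval h (pderiv none P) * h none
  refine ⟨∑ p, C (aeval h (pderiv (some p) P) - c * aeval h (pderiv (some p) G)) * X p,
    IsHomogeneous.sum _ _ _ fun p _ => isHomogeneous_C_mul_X _ _, ?_⟩
  have h3 := Ideal.add_mem _ (Ideal.mem_sup_left (T := mI h ^ 2) (Ideal.mul_mem_left _ (C c) hG1))
    (Ideal.mem_sup_right (Ideal.sub_mem _ h1 (Ideal.mul_mem_left _ (C c) h2)))
  convert h3 using 1
  have h4 : (C c * C (aeval h (pderiv none G)) : MvPolynomial (Option (σ × Mon σ e)) ℂ) =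
      C (aeval h (pderiv none P)) := by
    rw [← map_mul, mul_assoc, hG2, mul_one]
  simp only [map_sum, map_mul, aeval_C, aeval_X, algebraMap_eq, map_sub, yv, sub_mul,
    Finset.sum_sub_distrib, mul_assoc, ← Finset.mul_sum, map_zero]
  linear_combination -(X none - C (h none)) * h4

lemma lead {h : Option (σ × Mon σ e) → ℂ} (hh : InU h) (N : ℕ)
    {F : MvPolynomial (Option (σ × Mon σ e)) ℂ} (hF : F ∈ IX σ e ⊔ mI h ^ N) :
    ∃ q : MvPolynomial (σ × Mon σ e) ℂ, q.IsHomogeneous N ∧
      F - aeval (yv h) q ∈ IX σ e ⊔ mI h ^ (N + 1) := by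
  suffices key : ∀ F ∈ mI h ^ N, ∃ q : MvPolynomial (σ × Mon σ e) ℂ, q.IsHomogeneous N ∧
      F - aeval (yv h) q ∈ IX σ e ⊔ mI h ^ (N + 1) by
    obtain ⟨a, ha, b, hb, rfl⟩ := Submodule.mem_sup.1 hF
    obtain ⟨q, hq, h1⟩ := key b hb
    exact ⟨q, hq, by rw [add_sub_assoc]; exact Ideal.add_mem _ (Ideal.mem_sup_left ha) h1⟩
  clear hF F
  induction N with
  | zero =>
    intro F _
    refine ⟨C (aeval h F), isHomogeneous_C _ _, Ideal.mem_sup_right ?_⟩
    simp [mem_mI]
  | succ N ih =>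
    intro F hF
    rw [pow_succ] at hF
    refine Submodule.mul_induction_on hF (fun a ha b hb => ?_) (fun a b ha hb => ?_)
    · obtain ⟨q, hq, h1⟩ := ih a ha
      obtain ⟨q', hq', h2⟩ := lead_one hh hb
      refine ⟨q * q', hq.mul hq', ?_⟩
      have h3 : a * b - aeval (yv h) (q * q') =
          (a - aeval (yv h) q) * b + aeval (yv h) q * (b - aeval (yv h) q') := by
        rw [map_mul]; ring
      rw [h3]
      refine Ideal.add_mem _ ?_ ?_
      · have h4 := Ideal.mul_mem_mul h1 hb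
        rw [Ideal.sup_mul, ← pow_succ] at h4
        exact (sup_le_sup_right (Ideal.mul_le_left (I := IX σ e) (J := mI h)) _ :) h4
      · have h4 := Ideal.mul_mem_mul (aeval_mem_pow hq _ _ (yv_mem h)) h2
        rw [Ideal.mul_sup, ← pow_add] at h4
        exact (sup_le_sup_right (Ideal.mul_le_right (I := mI h ^ N) (J := IX σ e)) _ :) h4
    · obtain ⟨q, hq, h1⟩ := ha
      obtain ⟨q', hq', h2⟩ := hb
      refine ⟨q + q', hq.add hq', ?_⟩
      convert Ideal.add_mem _ h1 h2 using 1
      rw [map_add]; ring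

/-- constant coefficient -/
noncomputable def cc : PowerSeries ℂ →ₐ[ℂ] ℂ :=
  { PowerSeries.constantCoeff with commutes' := fun z => by simp }

lemma cc_apply (x : PowerSeries ℂ) : cc x = PowerSeries.constantCoeff x := rfl

/-- arcs of forms -/
noncomputable def arc (f p : MvPolynomial σ ℂ) (r : MvPolynomial σ (PowerSeries ℂ)) :
    MvPolynomial σ (PowerSeries ℂ) :=
  MvPolynomial.map (algebraMap ℂ _) f + C PowerSeries.X * MvPolynomial.map (algebraMap ℂ _) p +
    C PowerSeries.X ^ 2 * r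

lemma map_cc_map (f : MvPolynomial σ ℂ) :
    MvPolynomial.map (cc : PowerSeries ℂ →+* ℂ) (MvPolynomial.map (algebraMap ℂ _) f) = f := by
  rw [MvPolynomial.map_map, cc.comp_algebraMap, Algebra.algebraMap_self, MvPolynomial.map_id]

lemma exists_arc {f : MvPolynomial σ ℂ} {s : ℂ} (hh : InU (ptX e f s))
    {φ : MvPolynomial σ (PowerSeries ℂ)} (hφ : φ.IsHomogeneous (e + 1))
    (h : MvPolynomial.map (cc : PowerSeries ℂ →+* ℂ) φ = f) : ∃ s', IsX (ptX e φ s') := by
  have h1 : IsUnit (aeval (crd e (grad φ)) (Res σ e)) := by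
    rw [PowerSeries.isUnit_iff_constantCoeff, ← cc_apply, ← AlgHom.comp_apply, comp_aeval,
      show (fun i => cc (crd e (grad φ) i)) = _ from map_crd_grad (cc : PowerSeries ℂ →+* ℂ) φ, h]
    exact IsUnit.of_mul_eq_one_right _ hh
  obtain ⟨s', hs'⟩ := h1.exists_left_inv
  exact ⟨s', isX_ptX hφ hs'⟩

section

variable {f : MvPolynomial σ ℂ} {s : ℂ} (hh : InU (ptX e f s)) {N : ℕ}
  {F : MvPolynomial (Option (σ × Mon σ e)) ℂ} {q : MvPolynomial (σ × Mon σ e) ℂ}
  (hq : q.IsHomogeneous N)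
  (hF : F - aeval (yv (ptX e f s)) q ∈ IX σ e ⊔ mI (ptX e f s) ^ (N + 1))

include hh hq hF

lemma arc_coeff (p : MvPolynomial σ ℂ) (r : MvPolynomial σ (PowerSeries ℂ)) (s' : PowerSeries ℂ)
    (hz : IsX (ptX e (arc f p r) s')) :
    PowerSeries.coeff N (aeval (ptX e (arc f p r) s') F) = aeval (crd e (grad p)) q := by
  set z := ptX e (arc f p r) s'
  set h := ptX e f s
  let y : σ × Mon σ e → PowerSeries ℂ :=
    crd e (grad (MvPolynomial.map (algebraMap ℂ _) p + C PowerSeries.X * r))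
  have hy : ∀ x, z (some x) - algebraMap ℂ _ (h (some x)) = PowerSeries.X * y x := by
    intro x
    simp only [z, h, y, ptX, ext_some, crd_grad_apply, arc, coeff_add, ← C_pow, coeff_C_mul,
      coeff_map, map_mul, map_add, map_natCast, map_one]
    ring
  have hcc : (fun o => cc (z o)) = h := by
    refine InU.ext' (hz.1.map cc) hh fun x => ?_
    have := congrArg cc (hy x)
    rw [map_sub, AlgHom.commutes, map_mul, cc_apply PowerSeries.X, PowerSeries.constantCoeff_X,
      zero_mul, sub_eq_zero] at this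
    exact this
  have hm : (mI h).map (aeval z) ≤ Ideal.span {PowerSeries.X} := by
    rw [Ideal.map_le_iff_le_comap]
    intro P hP
    rw [Ideal.mem_comap, Ideal.mem_span_singleton, PowerSeries.X_dvd_iff, ← cc_apply,
      ← AlgHom.comp_apply, comp_aeval, hcc]
    exact hP
  obtain ⟨a, ha, b, hb, hab⟩ := Submodule.mem_sup.1 hF
  have h1 := Ideal.mem_map_of_mem (aeval z) hb
  rw [Ideal.map_pow] at h1
  have h2 := Ideal.pow_right_mono hm _ h1
  rw [Ideal.span_singleton_pow, Ideal.mem_span_singleton, PowerSeries.X_pow_dvd_iff] at h2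
  have h3 : aeval z F = aeval z b + PowerSeries.X ^ N * aeval y q := by
    have h4 := congrArg (aeval z) hab
    rw [map_add, hz.aeval_eq_zero ha, zero_add, map_sub, ← AlgHom.comp_apply (aeval z) (aeval _),
      comp_aeval] at h4
    simp only [yv, map_sub, aeval_X, aeval_C, hy] at h4
    rw [aeval_mul_left hq] at h4
    rw [h4]; ring
  have h5 := PowerSeries.coeff_X_pow_mul (aeval y q) N 0
  rw [zero_add] at h5
  rw [h3, map_add, h2 N (Nat.lt_succ_self N), zero_add, h5, PowerSeries.coeff_zero_eq_constantCoeff,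
    ← cc_apply, ← AlgHom.comp_apply, comp_aeval]
  congr 2
  refine (map_crd_grad (cc : PowerSeries ℂ →+* ℂ) _).trans ?_
  rw [map_add, map_cc_map, map_mul, map_C, RingHom.coe_coe, cc_apply]
  simp

variable (hf : f.IsHomogeneous (e + 1)) (hG : F ∈ (repG σ e).inv)

include hf hG

lemma lead_eq (g : GL σ (PowerSeries ℂ)) {p p' : MvPolynomial σ ℂ} (hp : p.IsHomogeneous (e + 1))
    (r : MvPolynomial σ (PowerSeries ℂ)) (h : sub g.val (arc f p 0) = arc f p' r) :
    aeval (crd e (grad p')) q = aeval (crd e (grad p)) q := by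
  have h0 : (arc f p 0).IsHomogeneous (e + 1) := by
    rw [arc, mul_zero, add_zero]
    exact (hf.map _).add ((hp.map _).C_mul _)
  obtain ⟨s', hs'⟩ := exists_arc hh h0 (by
    rw [arc, mul_zero, add_zero, map_add, map_cc_map, map_mul, map_C, RingHom.coe_coe, cc_apply]
    simp)
  have h1 := hs'.dg g
  have h2 := (repG σ e).aeval_pt_of_invariant F hG (ptX e (arc f p 0) s') (fun _ => g)
  rw [pt_repG] at h2
  rw [pt_ptX_dg h0, h] at h1 h2
  rw [← arc_coeff hh hq hF p' r _ h1, h2, arc_coeff hh hq hF p 0 _ hs']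

lemma lead_add {p j : MvPolynomial σ ℂ} (hp : p.IsHomogeneous (e + 1)) (hj : j ∈ JJ f) :
    aeval (crd e (grad (p + j))) q = aeval (crd e (grad p)) q := by
  obtain ⟨E, rfl⟩ := exists_lieD hj
  let E' : Matrix σ σ (PowerSeries ℂ) := E.map (algebraMap ℂ _)
  let g : GL σ (PowerSeries ℂ) := Matrix.GeneralLinearGroup.mk''
    (1 + (PowerSeries.X : PowerSeries ℂ) • E') (by
      rw [PowerSeries.isUnit_iff_constantCoeff, RingHom.map_det]
      convert isUnit_one
      convert Matrix.det_one (n := σ) (R := ℂ)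
      ext i j
      simp [Matrix.one_apply, apply_ite])
  obtain ⟨r, hr⟩ := taylor_sub PowerSeries.X E' (arc f p 0)
  refine lead_eq hh hq hF hf hG g hp (r + lieD E' (MvPolynomial.map (algebraMap ℂ _) p))
    (hr.trans ?_)
  have h1 : lieD E' (arc f p 0) = MvPolynomial.map (algebraMap ℂ _) (lieD E f) +
      C PowerSeries.X * lieD E' (MvPolynomial.map (algebraMap ℂ _) p) := by
    simp only [lieD, arc, mul_zero, add_zero, map_add, pderiv_C_mul, map_sum, map_mul, map_C,
      map_X, pderiv_map, Finset.mul_sum, ← Finset.sum_add_distrib, E', Matrix.map_apply]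
    exact Finset.sum_congr rfl fun l _ => Finset.sum_congr rfl fun k _ => by ring
  rw [h1, arc, arc, map_add]
  ring

lemma lead_sub (g : GL σ ℂ) (hg : sub g.val f = f) {p : MvPolynomial σ ℂ}
    (hp : p.IsHomogeneous (e + 1)) :
    aeval (crd e (grad (sub g.val p))) q = aeval (crd e (grad p)) q := by
  refine lead_eq hh hq hF hf hG (Matrix.GeneralLinearGroup.map (algebraMap ℂ _) g) hp 0 ?_
  show sub (g.val.map (algebraMap ℂ (PowerSeries ℂ))) _ = _
  simp only [arc, mul_zero, add_zero, map_add, map_mul, sub_C, ← map_sub_eq, hg]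

end

end Pool.Agent.P.MP_f4e0a3_ag
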