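import Mathlib
import Pool.Agent.P.MP_f4e0a3_ag.Stab

/-!
The orbit of a gradient point is closed, and the invariants of the diagonal group are integral
over the invariants of the big group.
-/

open MvPolynomial Matrix

set_option linter.unusedSectionVars false

namespace Pool.Agent.P.MP_f4e0a3_ag

variable {σ : Type} [Fintype σ] [DecidableEq σ] {e : ℕ} [Nonempty σ] [Fact (2 ≤ e)]

lemma limit_mem {k : Type} [Field k] [Algebra ℂ k] (z z₀ : Option (σ × Mon σ e) → k) (n : σ → ℕ)
    (h0 : z₀ none = z none)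
    (h1 : ∀ i (β : Mon σ e), z (some (i, β)) ≠ 0 → ∀ j, β.1 j ≠ 0 → n i ≤ n j)
    (h2 : ∀ i (β : Mon σ e), (∀ j, β.1 j ≠ 0 → n j = n i) → z₀ (some (i, β)) = z (some (i, β)))
    (h3 : ∀ i (β : Mon σ e) j, β.1 j ≠ 0 → n j ≠ n i → z₀ (some (i, β)) = 0)
    (P : MvPolynomial (Option (σ × Mon σ e)) ℂ)
    (hP : ∀ γ : Gr Bool σ k, aeval ((rep1 σ e).pt z γ) P = 0) (η : Gr Bool σ k) :
    aeval ((rep1 σ e).pt z₀ η) P = 0 := by
  let m : σ × Mon σ e → ℕ := fun p => (∑ j, n j * p.2.1 j) - n p.1 * e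
  have hm : ∀ i (β : Mon σ e), n i * e = ∑ j, n i * β.1 j := by
    intro i β
    rw [← Finset.mul_sum, β.sum_eq]
  have hle : ∀ i (β : Mon σ e), z (some (i, β)) ≠ 0 → ∀ j, n i * β.1 j ≤ n j * β.1 j := by
    intro i β h j
    by_cases hj : β.1 j = 0
    · simp [hj]
    · exact Nat.mul_le_mul_right _ (h1 i β h j hj)
  let Z : Option (σ × Mon σ e) → Polynomial k :=
    ext (Polynomial.C (z none)) fun p => Polynomial.X ^ m p * Polynomial.C (z (some p))
  let ev : k → Polynomial k →ₐ[ℂ] k := fun s => (Polynomial.aeval s).restrictScalars ℂ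
  have hZ1 : ∀ s : kˣ, (fun o => ev s (Z o)) = (rep1 σ e).pt z (tor e fun i => s ^ n i) := by
    intro s
    funext o
    cases o with
    | none => rw [pt_tor_none]; simp [ev, Z]
    | some p =>
      obtain ⟨i, β⟩ := p
      rw [pt_tor_some]
      by_cases h : z (some (i, β)) = 0
      · simp [ev, Z, h]
      have h4 : n i * e ≤ ∑ j, n j * β.1 j := by
        rw [hm i β]
        exact Finset.sum_le_sum fun j _ => hle i β h j
      have h5 : (s ^ n i)⁻¹ ^ e * ∏ j, (s ^ n j) ^ β.1 j = s ^ m (i, β) := by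
        simp only [← pow_mul, Finset.prod_pow_eq_pow_sum, inv_pow, m]
        rw [pow_sub _ h4, mul_comm]
      rw [h5, mul_comm]
      simp [ev, Z]
  have hZ0 : (fun o => ev 0 (Z o)) = z₀ := by
    funext o
    cases o with
    | none => simp [ev, Z, h0]
    | some p =>
      obtain ⟨i, β⟩ := p
      by_cases h : ∀ j, β.1 j ≠ 0 → n j = n i
      · have h4 : m (i, β) = 0 := by
          apply Nat.sub_eq_zero_of_le
          rw [hm i β]
          refine Finset.sum_le_sum fun j _ => ?_
          by_cases hj : β.1 j = 0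
          · simp [hj]
          · rw [h j hj]
        simp [ev, Z, h4, h2 i β h]
      · push Not at h
        obtain ⟨j, hj, hj'⟩ := h
        rw [h3 i β j hj hj']
        by_cases h : z (some (i, β)) = 0
        · simp [ev, Z, h]
        have h4 : m (i, β) ≠ 0 := by
          apply Nat.sub_ne_zero_of_lt
          rw [hm i β]
          refine Finset.sum_lt_sum (fun l _ => hle i β h l) ⟨j, Finset.mem_univ j, ?_⟩
          exact Nat.mul_lt_mul_of_pos_right (lt_of_le_of_ne (h1 i β h j hj) hj'.symm)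
            (Nat.pos_of_ne_zero hj)
        simp [ev, Z, h4]
  let Q : Polynomial k := aeval ((rep1 σ e).pt Z (mapG (Polynomial.C : k →+* Polynomial k) η)) P
  have hQ : ∀ s : k, Q.eval s = aeval ((rep1 σ e).pt (fun o => ev s (Z o)) η) P := by
    intro s
    have h4 : mapG (ev s : Polynomial k →+* k) (mapG (Polynomial.C : k →+* Polynomial k) η) = η := by
      rw [mapG_mapG]
      convert mapG_id η
      ext x
      simp [ev]
    have h5 : ev s Q = aeval ((rep1 σ e).pt (fun o => ev s (Z o)) η) P := by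
      rw [← AlgHom.comp_apply, comp_aeval, Rep.map_pt, h4]
    rw [← h5]
    simp [ev]
  have : CharZero k := charZero_of_injective_algebraMap (algebraMap ℂ k).injective
  have hQ0 : Q = 0 := by
    apply Polynomial.eq_zero_of_infinite_isRoot
    refine ((Set.finite_singleton (0 : k)).infinite_compl).mono fun s hs => ?_
    have h4 := hZ1 (Units.mk0 s hs)
    show Q.eval s = 0
    rw [hQ, show (fun o => ev s (Z o)) = _ from h4, ← Rep.pt_mul]
    exact hP _
  have h4 := hQ 0
  rw [hZ0, hQ0] at h4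
  simpa using h4.symm

theorem closedOrb_of_isX {h : Option (σ × Mon σ e) → ℂ} (hh : IsX h) : (rep1 σ e).ClosedOrb h := by
  classical
  intro w hw
  obtain ⟨Ω, _, _, _, O, γ, hC, hv⟩ := (rep1 σ e).exists_valuation_closure h w hw
  have : OverC O := ⟨hC⟩
  let k := IsLocalRing.ResidueField O
  have hΩ : IsX fun o => algebraMap ℂ Ω (h o) := hh.map (Algebra.ofId ℂ Ω)
  have h1 : ∀ o, (rep1 σ e).pt (fun o => algebraMap ℂ Ω (h o)) γ o ∈ O := by
    intro o
    have := O.add_mem _ _ ((O.valuation_le_one_iff _).1 (hv o).le) (hC (w o))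
    rwa [sub_add_cancel] at this
  obtain ⟨z₁, hz₁⟩ := exists_lift O h1
  have h2 : (fun o => resO O (z₁ o)) = fun o => algebraMap ℂ k (w o) := by
    funext o
    rw [← (resO O).commutes, ← sub_eq_zero, ← map_sub, resO_eq_zero]
    have := hv o
    rw [← hz₁] at this
    exact this
  obtain ⟨δ, u, g, hu, hg⟩ := cartan (e := e) O γ
  let z₂ := (rep1 σ e).pt z₁ δ
  have h3 : (rep1 σ e).pt (fun o => incO O (z₂ o)) (tor e u) =
      (rep1 σ e).pt (fun o => algebraMap ℂ Ω (h o)) (dg g) := by
    rw [← hg, Rep.pt_mul, Rep.pt_mul, ← hz₁, Rep.map_pt]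
  have hX : IsX ((rep1 σ e).pt (fun o => incO O (z₂ o)) (tor e u)) := h3 ▸ hΩ.dg g
  have hO : ∀ o, incO O (z₂ o) ∈ O := fun o => (z₂ o).2
  obtain ⟨g', rfl⟩ := stab_lift O hΩ.1 (fun o => hC _) g (h3 ▸ repl_mem O hO u hX)
  let z₃ := (rep1 σ e).pt (fun o => algebraMap ℂ O (h o)) (dg g')
  have h4 : ∀ o, (z₃ o : Ω) = (rep1 σ e).pt (fun o => incO O (z₂ o)) (tor e u) o := by
    intro o
    rw [h3]
    exact congrFun ((rep1 σ e).map_pt (incO O) _ (dg g')) o
  let n : σ → ℕ := fun i => (Finset.univ.filter fun j => O.valuation (u i) < O.valuation (u j)).card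
  have hn1 : ∀ i j, O.valuation (u j) ≤ O.valuation (u i) → n i ≤ n j := by
    intro i j hij
    refine Finset.card_le_card fun l hl => ?_
    simp only [Finset.mem_filter, Finset.mem_univ, true_and] at hl ⊢
    exact hij.trans_lt hl
  have hn2 : ∀ i j, O.valuation (u j) < O.valuation (u i) → n i < n j := by
    intro i j hij
    refine Finset.card_lt_card ⟨fun l hl => ?_, fun hl => ?_⟩
    · simp only [Finset.mem_filter, Finset.mem_univ, true_and] at hl ⊢
      exact hij.trans hl
    · have := hl (show i ∈ _ by simpa using hij)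
      simp at this
  have hn3 : ∀ i j, n j = n i → u j = u i := by
    intro i j hij
    apply hu
    rcases lt_trichotomy (O.valuation (u j)) (O.valuation (u i)) with h | h | h
    · exact absurd hij (hn2 i j h).ne'
    · exact h
    · exact absurd hij (hn2 j i h).ne
  have key := limit_mem (fun o => resO O (z₂ o)) (fun o => resO O (z₃ o)) n
    (by
      congr 1
      apply Subtype.ext
      rw [h4, pt_tor_none]; rfl)
    (fun i β hβ j hj => hn1 i j (repl_le O hO u hX i β ((resO_ne_zero O _).1 hβ) j hj))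
    (by
      intro i β hβ
      congr 1
      apply Subtype.ext
      have h5 : ∏ j, u j ^ β.1 j = u i ^ e := by
        rw [← congrArg (u i ^ ·) β.sum_eq, ← Finset.prod_pow_eq_pow_sum]
        refine Finset.prod_congr rfl fun j _ => ?_
        by_cases hj : β.1 j = 0
        · simp [hj]
        · rw [hn3 i j (hβ j hj)]
      rw [h4, pt_tor_some, h5, ← mul_pow]
      simp)
    (by
      intro i β j hj hj'
      by_contra h5
      have h6 := (resO_ne_zero O _).1 h5
      rw [h4] at h6
      have h7 := repl_eq O hO u hX i β h6 j hj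
      exact hj' (le_antisymm (hn1 j i h7.ge) (hn1 i j h7.le)))
  apply (rep1 σ e).same_orbit_of_orbI_eq
  apply le_antisymm
  · intro P hP
    rw [Rep.mem_orbI]
    intro η
    rw [← Rep.aeval_act]
    exact hw _ ((rep1 σ e).gact_mem_orbI hP η)
  · intro P hP
    rw [Rep.mem_orbI] at hP ⊢
    intro η
    have h5 := key P (fun η' => by
      rw [Rep.map_pt, h2, ← Rep.pt_mul]
      exact (rep1 σ e).aeval_pt_eq_zero P w hP _)
      ((mapG (resO O : O →+* k) (dg g'))⁻¹ * mapG (algebraMap ℂ k) η)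
    rw [Rep.map_pt, Rep.pt_mul, Rep.pt_inv_pt] at h5
    apply (algebraMap ℂ k).injective
    rw [map_zero, ← h5]
    have h6 := (rep1 σ e).map_pt (Algebra.ofId ℂ k) h η
    have h7 : (fun i => resO O (algebraMap ℂ O (h i))) = fun i => Algebra.ofId ℂ k (h i) := by
      funext i; exact (resO O).commutes _
    rw [h7]
    erw [← h6]
    rw [← comp_aeval]; rfl

variable (σ e) in
/-- restrictions of the invariants of the big group -/
noncomputable def AA : Subalgebra ℂ (OX σ e) := (rep1 σ e).inv.map (θ σ e)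

variable (σ e) in
/-- invariants of the diagonal group -/
noncomputable def BB : Subalgebra ℂ (OX σ e) := (repG σ e).inv.map (θ σ e)

lemma AA_le_BB : AA σ e ≤ BB σ e := Subalgebra.map_mono inv_le_invG

theorem isIntegral_BB {x : OX σ e} (hx : x ∈ BB σ e) : IsIntegral (AA σ e) x := by
  obtain ⟨F, hF, rfl⟩ := hx
  let K := FractionRing (OX σ e)
  let j₀ : OX σ e →ₐ[ℂ] K := IsScalarTower.toAlgHom ℂ (OX σ e) K
  have hj₀ : Function.Injective j₀ := IsFractionRing.injective (OX σ e) K
  let T : Subring K := ((AA σ e).map j₀).toSubring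
  have h1 : IsIntegral T (j₀ (θ σ e F)) := by
    apply isIntegral_of_forall_valuation
    intro O₁ hO₁
    obtain ⟨Ω, _, _, _, O, j, γ, hC, h2, h3⟩ := (rep1 σ e).exists_valuation_integral O₁
      (fun o => j₀ (genX σ e o)) (fun P hP => by
        rw [← map_θ]
        exact hO₁ _ ⟨_, ⟨P, hP, rfl⟩, rfl⟩)
    have : OverC O := ⟨hC⟩
    obtain ⟨g, hg⟩ := replacement O ((isX_genX.map j₀).map j) γ h3
    apply h2
    obtain ⟨z, hz⟩ := exists_lift O hg
    have h4 := (repG σ e).aeval_pt_of_invariant F hF (fun o => j (j₀ (genX σ e o))) (fun _ => g)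
    rw [pt_repG, ← hz, ← comp_aeval] at h4
    rw [map_θ, ← AlgHom.comp_apply, comp_aeval, ← h4]
    exact (aeval z F).2
  let φ : AA σ e →+* T := ((j₀ : OX σ e →+* K).comp (AA σ e).val.toRingHom).codRestrict T
    fun a => ⟨a, a.2, rfl⟩
  have hφ : Function.Surjective φ := by
    rintro ⟨_, a, ha, rfl⟩
    exact ⟨⟨a, ha⟩, rfl⟩
  obtain ⟨p, hp, hp0⟩ := h1
  obtain ⟨q, hq, -, hq'⟩ := Polynomial.lifts_and_degree_eq_and_monic
    (Polynomial.mem_lifts_of_surjective (f := φ) hφ p) hp
  refine ⟨q, hq', hj₀ ?_⟩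
  rw [map_zero, ← hp0, ← hq, Polynomial.eval₂_map]
  exact Polynomial.hom_eval₂ q _ (j₀ : OX σ e →+* K) _

end Pool.Agent.P.MP_f4e0a3_ag
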