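import Mathlib
import Pool.Agent.P.MP_f4e0a3_ag.Arc
import Pool.Agent.P.MP_f4e0a3_ag.Closed

/-!
The local step: lifting leading forms of invariants.
-/

open MvPolynomial Matrix
open scoped DualNumber

set_option linter.unusedSectionVars false

namespace Pool.Agent.P.MP_f4e0a3_ag

lemma prod_sub_prod_mem {T S : Type} [CommRing T] (I : Ideal T) (s : Finset S) (a b : S → T)
    (ha : ∀ i, a i ∈ I) (hb : ∀ i, b i ∈ I) (h : ∀ i, a i - b i ∈ I ^ 2) :
    ∏ i ∈ s, a i - ∏ i ∈ s, b i ∈ I ^ (s.card + 1) := by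
  classical
  induction s using Finset.induction_on with
  | empty => simp
  | insert j s hj ih =>
    rw [Finset.prod_insert hj, Finset.prod_insert hj, Finset.card_insert_of_notMem hj]
    have h1 : a j * ∏ i ∈ s, a i - b j * ∏ i ∈ s, b i =
        a j * (∏ i ∈ s, a i - ∏ i ∈ s, b i) + (∏ i ∈ s, b i) * (a j - b j) := by ring
    rw [h1]
    refine Ideal.add_mem _ ?_ ?_
    · rw [pow_succ' I]
      exact Ideal.mul_mem_mul (ha j) ih
    · rw [add_assoc, pow_add, ← Finset.prod_const]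
      exact Ideal.mul_mem_mul (Ideal.prod_mem_prod fun i _ => hb i) (h j)

lemma Rep.exists_average {τ σ ι : Type} [Fintype σ] [DecidableEq σ] [Fintype ι] [DecidableEq ι]
    (r : Rep τ σ ι) (h : ι → ℂ) (Q : MvPolynomial ι ℂ)
    (hfin : ((fun γ => r.gact γ Q) '' {γ : Gr τ σ ℂ | r.pt h γ = h}).Finite) :
    ∃ Q', (∀ γ : Gr τ σ ℂ, r.pt h γ = h → r.gact γ Q' = Q') ∧
      ∀ (M : Ideal (MvPolynomial ι ℂ)) (F : MvPolynomial ι ℂ),
        (∀ γ : Gr τ σ ℂ, r.pt h γ = h → r.gact γ Q - F ∈ M) → Q' - F ∈ M := by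
  let s := hfin.toFinset
  have hs : ∀ x, x ∈ s ↔ ∃ γ : Gr τ σ ℂ, r.pt h γ = h ∧ r.gact γ Q = x := fun x => by
    simp [s]
  have hc : (s.card : ℂ) ≠ 0 := by
    have : s.Nonempty := ⟨Q, (hs Q).2 ⟨1, r.pt_one h, r.act_one Q⟩⟩
    exact_mod_cast this.card_pos.ne'
  have hmem : ∀ γ : Gr τ σ ℂ, r.pt h γ = h → ∀ x ∈ s, r.gact γ x ∈ s := by
    intro γ hγ x hx
    obtain ⟨δ, hδ, rfl⟩ := (hs x).1 hx
    exact (hs _).2 ⟨γ * δ, by rw [r.pt_mul, hγ, hδ], r.act_mul γ δ Q⟩
  refine ⟨C (s.card : ℂ)⁻¹ * ∑ x ∈ s, x, fun γ hγ => ?_, fun M F hM => ?_⟩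
  · rw [map_mul, map_sum, ← algebraMap_eq, AlgHom.commutes]
    congr 1
    have hγ' : r.pt h γ⁻¹ = h := by
      conv_lhs => rw [← hγ]
      rw [r.pt_inv_pt]
    exact Finset.sum_nbij' (r.gact γ) (r.gact γ⁻¹) (hmem γ hγ) (hmem γ⁻¹ hγ')
      (fun x _ => r.act_inv_act γ x) (fun x _ => r.act_act_inv γ x) (fun _ _ => rfl)
  · have h1 : C (s.card : ℂ)⁻¹ * ∑ x ∈ s, x - F = C (s.card : ℂ)⁻¹ * ∑ x ∈ s, (x - F) := by
      rw [Finset.sum_sub_distrib, mul_sub, Finset.sum_const, nsmul_eq_mul, ← mul_assoc,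
        ← map_natCast (C : ℂ →+* MvPolynomial ι ℂ), ← map_mul, inv_mul_cancel₀ hc, map_one, one_mul]
    rw [h1]
    refine M.mul_mem_left _ (M.sum_mem fun x hx => ?_)
    obtain ⟨δ, hδ, rfl⟩ := (hs x).1 hx
    exact hM δ hδ

variable {σ : Type} [Fintype σ] [DecidableEq σ] {e : ℕ} [Nonempty σ] [Fact (2 ≤ e)]
variable {κ : Type} [Fintype κ] [DecidableEq κ]

lemma snd_lin0 {L : Type} [CommRing L] [Algebra ℂ L] (f : MvPolynomial σ ℂ)
    (hf : f.IsHomogeneous (e + 1)) (a g : Matrix σ σ L[ε]) (ha : a.map TrivSqZeroExt.fst = 1)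
    (hg : g.map TrivSqZeroExt.fst = 1) (p : σ × Mon σ e) :
    (lin0 a g (fun p => algebraMap ℂ L[ε] (crd e (grad f) p)) p).snd =
      ∑ i, (a i p.1).snd * algebraMap ℂ L (coeff p.2.1 (pderiv i f)) +
      ∑ l, ∑ k, (g l k).snd * algebraMap ℂ L (coeff p.2.1 (X k * pderiv l (pderiv p.1 f))) := by
  have h1 : ∀ m : Matrix σ σ L[ε], m.map TrivSqZeroExt.fst = 1 →
      m = 1 + (DualNumber.eps : L[ε]) • m.map fun x => algebraMap L L[ε] x.snd := by
    intro m hm
    ext i j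
    · have := congrFun (congrFun hm i) j
      rw [Matrix.map_apply] at this
      rw [this]
      by_cases hij : i = j
      · subst hij; simp
      · simp [hij]
    · simp [Matrix.one_apply, apply_ite, TrivSqZeroExt.algebraMap_eq_inl]
  obtain ⟨j, β⟩ := p
  let φ := algebraMap ℂ L[ε]
  rw [map_crd_grad φ, lin0_crd_grad (hf.map _), crd, act2]
  have h2 : ∀ i, sub g (grad (MvPolynomial.map φ f) i) = MvPolynomial.map φ (pderiv i f) +
      C DualNumber.eps * ∑ l, ∑ k, C (algebraMap L L[ε] (g l k).snd) *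
        MvPolynomial.map φ (X k * pderiv l (pderiv i f)) := by
    intro i
    obtain ⟨r, hr⟩ := taylor_sub (DualNumber.eps : L[ε])
      (g.map fun x => algebraMap L L[ε] x.snd) (grad (MvPolynomial.map φ f) i)
    rw [← h1 g hg, ← C_pow, pow_two, DualNumber.eps_mul_eps, map_zero, zero_mul, add_zero] at hr
    rw [hr]
    simp [lieD, grad, pderiv_map]
  have h3 : ∀ i, (a i j).fst = if i = j then 1 else 0 := fun i => by
    have := congrFun (congrFun ha i) j
    rwa [Matrix.map_apply, Matrix.one_apply] at this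
  simp only [h2, coeff_sum, coeff_C_mul, coeff_add, coeff_map, TrivSqZeroExt.snd_sum,
    DualNumber.snd_mul, h3, TrivSqZeroExt.snd_add, TrivSqZeroExt.fst_add, TrivSqZeroExt.fst_mul,
    TrivSqZeroExt.fst_sum, DualNumber.fst_eps, DualNumber.snd_eps, φ,
    TrivSqZeroExt.algebraMap_eq_inl', TrivSqZeroExt.fst_inl,
    TrivSqZeroExt.snd_inl, Finset.sum_add_distrib]
  simp [add_comm]

lemma exists_conormal {f : MvPolynomial σ ℂ} (hf : f.IsHomogeneous (e + 1)) (s : ℂ)
    (v : σ × Mon σ e → ℂ) (h1 : ∀ i j, ∑ β : Mon σ e, v (j, β) * coeff β.1 (pderiv i f) = 0)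
    (h2 : ∀ l k, ∑ p : σ × Mon σ e, v p * coeff p.2.1 (X k * pderiv l (pderiv p.1 f)) = 0) :
    ∃ P ∈ (rep1 σ e).orbI (ptX e f s),
      P - ∑ p, C (v p) * yv (ptX e f s) p ∈ mI (ptX e f s) ^ 2 := by
  obtain ⟨P, hP, h3⟩ := (rep1 σ e).beta (ptX e f s) (ext 0 v) (by
    intro L _ _ δ hδ
    have h4 : ∀ b, (δ b).val.map TrivSqZeroExt.fst = 1 := fun b =>
      congrArg Units.val (congrFun hδ b)
    rw [ptX, map_ext, pt_rep1, Fintype.sum_option]
    simp only [ext_none, ext_some, map_zero, zero_mul, zero_add, snd_lin0 f hf _ _ (h4 _) (h4 _),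
      mul_add, Finset.sum_add_distrib, Finset.mul_sum]
    have h5 : ∑ p : σ × Mon σ e, ∑ i, algebraMap ℂ L (v p) *
        (((δ false).val i p.1).snd * algebraMap ℂ L (coeff p.2.1 (pderiv i f))) = 0 := by
      rw [Fintype.sum_prod_type]
      refine Finset.sum_eq_zero fun j _ => ?_
      rw [Finset.sum_comm]
      refine Finset.sum_eq_zero fun i _ => ?_
      have := congrArg (fun x => ((δ false).val i j).snd * algebraMap ℂ L x) (h1 i j)
      simpa [Finset.mul_sum, mul_left_comm] using this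
    have h6 : ∑ p : σ × Mon σ e, ∑ l, ∑ k, algebraMap ℂ L (v p) * (((δ true).val l k).snd *
        algebraMap ℂ L (coeff p.2.1 (X k * pderiv l (pderiv p.1 f)))) = 0 := by
      rw [Finset.sum_comm]
      refine Finset.sum_eq_zero fun l _ => ?_
      rw [Finset.sum_comm]
      refine Finset.sum_eq_zero fun k _ => ?_
      have := congrArg (fun x => ((δ true).val l k).snd * algebraMap ℂ L x) (h2 l k)
      simpa [Finset.mul_sum, mul_left_comm] using this
    rw [h5, h6, add_zero])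
  refine ⟨P, hP, ?_⟩
  rw [Fintype.sum_option] at h3
  simpa [yv] using h3

section Blocks

variable {f : MvPolynomial σ ℂ} (hf : f.IsHomogeneous (e + 1)) {b : σ → κ} (hb : Blocks f b)
  (s : ℂ)

include hb in
lemma Blocks.pt_tor (u : κ → ℂˣ) :
    (rep1 σ e).pt (ptX e f s) (tor e fun i => u (b i)) = ptX e f s := by
  funext o
  cases o with
  | none => rw [pt_tor_none]
  | some p =>
    obtain ⟨i, β⟩ := p
    rw [pt_tor_some]
    by_cases h : ptX e f s (some (i, β)) = 0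
    · simp [h]
    have h5 : ∏ j, u (b j) ^ β.1 j = u (b i) ^ e := by
      rw [← congrArg (u (b i) ^ ·) β.sum_eq, ← Finset.prod_pow_eq_pow_sum]
      refine Finset.prod_congr rfl fun j _ => ?_
      by_cases hj : β.1 j = 0
      · simp [hj]
      · rw [hb.eq_of_pderiv h hj]
    rw [h5, ← mul_pow]
    simp

include hf hb in
lemma Blocks.eq_tor_mul (γ : Gr Bool σ ℂ) (hγ : IsX ((rep1 σ e).pt (ptX e f s) γ)) :
    ∃ (u : κ → ℂˣ) (g : GL σ ℂ), γ = (tor e fun i => u (b i)) * dg g := by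
  obtain ⟨-, f', hf', h1⟩ := hγ.dg (γ true)⁻¹
  have h2 : act2 (γ false * (γ true)⁻¹).val 1 (grad f) = grad f' := by
    rw [← Rep.pt_mul, ptX, pt_rep1, lin0_crd_grad hf, ptX] at h1
    have h3 : crd e (act2 ((γ * dg (γ true)⁻¹) false).val ((γ * dg (γ true)⁻¹) true).val
      (grad f)) = crd e (grad f') := funext fun p => congrFun h1 (some p)
    have h4 := congrArg tup h3
    rw [tup_crd (act2_isHomogeneous _ _ (grad_isHomogeneous hf)), tup_crd_grad hf'] at h4
    simpa using h4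
  obtain ⟨c, hc⟩ := hb.cen _ (mem_cen_of_grad h2)
  have hc0 : ∀ i, c (b i) ≠ 0 := by
    have h3 := (γ false * (γ true)⁻¹).det_ne_zero
    rw [hc, det_diagonal] at h3
    exact fun i => Finset.prod_ne_zero_iff.1 h3 i (Finset.mem_univ i)
  have h3 : ∀ x : ℂ, ∃ y : ℂˣ, x ≠ 0 → (y⁻¹ ^ (e + 1) : ℂˣ) = x := by
    intro x
    by_cases hx : x = 0
    · exact ⟨1, fun h => absurd hx h⟩
    obtain ⟨y, hy⟩ := IsAlgClosed.exists_pow_nat_eq x (Nat.succ_pos e)
    have hy0 : y ≠ 0 := by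
      rintro rfl
      exact hx (by simpa using hy.symm)
    exact ⟨(Units.mk0 y hy0)⁻¹, fun _ => by simpa using hy⟩
  choose r hr using h3
  refine ⟨fun k => r (c k), (diagU fun i => r (c (b i)))⁻¹ * γ true, ?_⟩
  funext t
  cases t
  · have h4 : γ false * (γ true)⁻¹ * diagU (fun i => r (c (b i))) =
        diagU fun i => (r (c (b i)))⁻¹ ^ e := by
      apply Units.ext
      rw [Units.val_mul, hc, diagU_val, diagU_val, diagonal_mul_diagonal]
      congr 1
      funext i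
      have h5 := hr _ (hc0 i)
      generalize r (c (b i)) = y at h5
      rw [← h5, ← Units.val_mul, pow_succ, inv_mul_cancel_right]
    show γ false = diagU _ * _
    rw [← h4]
    simp
  · show γ true = diagU _ * _
    simp

include hf hb in
lemma Blocks.fibre (hh : InU (ptX e f s)) {z : Option (σ × Mon σ e) → ℂ} (hz : IsX z)
    (h : ∀ P ∈ (rep1 σ e).inv, aeval (ptX e f s) P = aeval z P) :
    ∃ g : GL σ ℂ, z = (rep1 σ e).pt (ptX e f s) (dg g) := by
  obtain ⟨γ, rfl⟩ := (rep1 σ e).separate (closedOrb_of_isX (isX_ptX hf hh)) (closedOrb_of_isX hz) h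
  obtain ⟨u, g, rfl⟩ := hb.eq_tor_mul hf s γ hz
  exact ⟨g, by rw [Rep.pt_mul, hb.pt_tor]⟩

include hf hb in
lemma Blocks.stab (hh : InU (ptX e f s)) (γ : Gr Bool σ ℂ)
    (hγ : (rep1 σ e).pt (ptX e f s) γ = ptX e f s) : ∃ (u : κ → ℂˣ) (g : GL σ ℂ),
      (rep1 σ e).pt (ptX e f s) (dg g) = ptX e f s ∧ γ = dg g * tor e fun i => u (b i) := by
  have h1 : (rep1 σ e).pt (ptX e f s) γ⁻¹ = ptX e f s := by
    conv_lhs => rw [← hγ]
    rw [Rep.pt_inv_pt]
  obtain ⟨u, g, h2⟩ := hb.eq_tor_mul hf s γ⁻¹ (h1.symm ▸ isX_ptX hf hh)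
  rw [h2, Rep.pt_mul, hb.pt_tor] at h1
  refine ⟨u⁻¹, g⁻¹, ?_, ?_⟩
  · conv_lhs => rw [← h1]
    rw [dg_inv, Rep.pt_inv_pt]
  · rw [← inv_inv γ, h2, _root_.mul_inv_rev, ← tor_inv]; rfl

include hb in
lemma Blocks.gact_tor (u : κ → ℂˣ) (v : σ × Mon σ e → ℂ) (a : κ) (ω : κ → ℕ)
    (hv : ∀ p, v p ≠ 0 → b p.1 = a ∧ md b p.2.1 + Pi.single a 1 = ω) :
    (rep1 σ e).gact (tor e fun i => u (b i)) (∑ p, C (v p) * yv (ptX e f s) p) =
      C (((∏ c, u c ^ ω c) * (u a)⁻¹ ^ (e + 1) : ℂˣ) : ℂ) * ∑ p, C (v p) * yv (ptX e f s) p := by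
  apply MvPolynomial.funext
  intro z
  have h1 := (rep1 σ e).aeval_act (tor e fun i => u (b i)) z (∑ p, C (v p) * yv (ptX e f s) p)
  refine h1.trans ?_
  conv_lhs => rw [← hb.pt_tor s u]
  simp only [map_sum, map_mul, yv, map_sub, aeval_X, aeval_C, eval_C, eval_X, pt_tor_some,
    Finset.mul_sum]
  refine Finset.sum_congr rfl fun p _ => ?_
  by_cases h : v p = 0
  · simp [h]
  obtain ⟨h2, h3⟩ := hv p h
  have h4 : (u (b p.1))⁻¹ ^ e * ∏ j, u (b j) ^ p.2.1 j = (∏ c, u c ^ ω c) * (u a)⁻¹ ^ (e + 1) := by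
    rw [prod_md, ← h3, h2]
    simp only [Pi.add_apply, pow_add, Finset.prod_mul_distrib]
    rw [Finset.prod_eq_single a (f := fun c => u c ^ (Pi.single a 1 : κ → ℕ) c)]
    · rw [Pi.single_eq_same, pow_one, pow_one, mul_assoc, mul_left_comm (u a), mul_inv_cancel,
        mul_one, mul_comm]
    · intro c _ hc
      simp [hc]
    · simp
  rw [h4]
  simp only [Algebra.algebraMap_self, RingHom.id_apply]
  ring

include hf hb in
lemma Blocks.dvd_md {β : σ →₀ ℕ} (h : coeff β f ≠ 0) (c : κ) : e + 1 ∣ md b β c := by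
  have h1 : β.degree = e + 1 := by
    by_contra h'
    exact h (hf.coeff_eq_zero h')
  by_cases hc : ∃ j, β j ≠ 0 ∧ b j = c
  · obtain ⟨j, hj, rfl⟩ := hc
    have : md b β (b j) = e + 1 := by
      rw [md_apply, ← h1, Finsupp.degree_eq_sum]
      refine Finset.sum_congr rfl fun i _ => ?_
      by_cases hi : β i = 0
      · simp [hi]
      · rw [if_pos (hb.eq_of_coeff h hi hj)]
    rw [this]
  · push Not at hc
    have : md b β c = 0 := by
      rw [md_apply]
      refine Finset.sum_eq_zero fun i _ => ?_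
      by_cases hi : β i = 0
      · simp [hi]
      · rw [if_neg (hc i hi)]
    simp [this]

include hf hb in
lemma Blocks.mono_lift (u : Mon σ (e + 1) → (MvPolynomial σ ℂ →ₗ[ℂ] ℂ))
    (hu1 : ∀ m, ∀ j ∈ JJ f, u m j = 0)
    (hu2 : ∀ m p, u m (weightedHomogeneousComponent (bw b) (md b m.1) p) = u m p)
    (α : Mon σ (e + 1) →₀ ℕ) (hα : ∀ c, e + 1 ∣ ∑ m, α m * md b m.1 c) :
    ∃ Q Λ : MvPolynomial (Option (σ × Mon σ e)) ℂ,
      Q ∈ (rep1 σ e).orbI (ptX e f s) ^ α.degree ∧ Q - Λ ∈ mI (ptX e f s) ^ (α.degree + 1) ∧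
      (∀ t : κ → ℂˣ, (rep1 σ e).gact (tor e fun i => t (b i)) Λ = Λ) ∧
      ∀ (f' : MvPolynomial σ ℂ) (s' : ℂ), f'.IsHomogeneous (e + 1) →
        aeval (ptX e f' s') Λ = ∏ m, u m (f' - f) ^ α m := by
  let S := Σ m : Mon σ (e + 1), Fin (α m)
  have hS : Fintype.card S = α.degree := by
    simp [S, Finsupp.degree_eq_sum]
  obtain ⟨a, ha1, ha2⟩ := hall_assign (S := S) (e + 1) (Nat.succ_pos e) (fun x => md b x.1.1)
    (fun x => by rw [sum_md, x.1.2]) (fun c => by
      rw [Fintype.sum_sigma]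
      simpa using hα c)
  choose v hv1 hv2 using fun x : S =>
    exists_lift_functional (e := e) b (u x.1) (md b x.1.1) (hu2 x.1) (a x)
  have hP : ∀ x : S, ∃ P ∈ (rep1 σ e).orbI (ptX e f s),
      P - ∑ p, C (v x p) * yv (ptX e f s) p ∈ mI (ptX e f s) ^ 2 := by
    intro x
    refine exists_conormal hf s (v x) (fun i j => ?_) (fun l k => ?_)
    · have h1 := hv2 x (Pi.single j (pderiv i f)) (fun k => by
        by_cases hk : k = j
        · rw [hk, Pi.single_eq_same]; exact grad_isHomogeneous hf i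
        · rw [Pi.single_eq_of_ne hk]; exact isHomogeneous_zero _ _ _)
      rw [hu1, mul_zero, Fintype.sum_prod_type, Finset.sum_eq_single j] at h1
      · simpa [crd] using h1
      · intro k _ hk
        simp [crd, hk]
      · simp
      · refine Submodule.sum_mem _ fun k _ => ?_
        split_ifs
        · by_cases hk : k = j
          · rw [hk, Pi.single_eq_same]; exact X_mul_mem_JJ f _ _
          · simp [hk]
        · exact Submodule.zero_mem _
    · have h1 := hv2 x (fun j => X k * pderiv l (pderiv j f)) (fun j => by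
        have h2 := (isHomogeneous_X ℂ k).mul ((grad_isHomogeneous hf j).pderiv (i := l))
        have h3 : 2 ≤ e := Fact.out
        rwa [show 1 + (e - 1) = e by omega] at h2)
      rw [hu1, mul_zero] at h1
      · exact h1
      · have h2 : (∑ i, if b i = a x then X i * (X k * pderiv l (pderiv i f)) else 0) =
            X k * ∑ i, if b i = a x then X i * pderiv i (pderiv l f) else 0 := by
          rw [Finset.mul_sum]
          refine Finset.sum_congr rfl fun i _ => ?_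
          split_ifs
          · rw [pderiv_comm l i]; ring
          · simp
        rw [h2, hb.euler_pderiv hf]
        split_ifs
        · rw [mul_smul_comm]
          exact nsmul_mem (X_mul_mem_JJ f _ _) _
        · simp
  choose P hP1 hP2 using hP
  refine ⟨∏ x, P x, ∏ x, ∑ p, C (v x p) * yv (ptX e f s) p, ?_, ?_, fun t => ?_,
    fun f' s' hf' => ?_⟩
  · rw [← hS, ← Finset.card_univ, ← Finset.prod_const]
    exact Ideal.prod_mem_prod fun x _ => hP1 x
  · rw [← hS, ← Finset.card_univ]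
    exact prod_sub_prod_mem _ _ _ _ (fun x => (rep1 σ e).orbI_le_mI _ (hP1 x))
      (fun x => Ideal.sum_mem _ fun p _ => Ideal.mul_mem_left _ _ (yv_mem _ p)) hP2
  · rw [map_prod]
    simp only [hb.gact_tor s t _ _ _ (hv1 _)]
    rw [Finset.prod_mul_distrib, ← map_prod, ← Units.coe_prod]
    have h1 : ∏ x : S, ((∏ c, t c ^ md b x.1.1 c) * (t (a x))⁻¹ ^ (e + 1)) = 1 := by
      rw [Finset.prod_mul_distrib, Finset.prod_comm,
        ← Finset.prod_fiberwise Finset.univ a (fun x => (t (a x))⁻¹ ^ (e + 1)),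
        ← Finset.prod_mul_distrib]
      refine Finset.prod_eq_one fun c _ => ?_
      rw [Finset.prod_pow_eq_pow_sum, ha2, Finset.prod_congr rfl
        (g := fun _ => (t c)⁻¹ ^ (e + 1)) (fun x hx => by rw [(Finset.mem_filter.1 hx).2]),
        Finset.prod_const, ← pow_mul, ← mul_pow]
      simp
    rw [h1]
    simp
  · rw [map_prod, Fintype.prod_sigma]
    refine Finset.prod_congr rfl fun m _ => ?_
    rw [← Fin.prod_const]
    refine Finset.prod_congr rfl fun i _ => ?_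
    have h1 := hv2 ⟨m, i⟩ (grad (f' - f)) (grad_isHomogeneous (hf'.sub hf))
    have h2 : (md b m.1 (a ⟨m, i⟩) : ℂ) ≠ 0 := by exact_mod_cast ha1 ⟨m, i⟩
    rw [← hu2, show (∑ j, if b j = a ⟨m, i⟩ then X j * grad (f' - f) j else 0) =
      ∑ j, if b j = a ⟨m, i⟩ then X j * pderiv j (f' - f) else 0 from rfl, comp_euler, map_smul,
      hu2, smul_eq_mul, inv_mul_cancel_left₀ h2] at h1
    rw [← h1]
    simp [yv, ptX, crd, grad]

include hf hb in
theorem Blocks.step (hh : InU (ptX e f s)) (N : ℕ) (F : MvPolynomial (Option (σ × Mon σ e)) ℂ)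
    (hG : F ∈ (repG σ e).inv) (hF : F ∈ IX σ e ⊔ mI (ptX e f s) ^ N) :
    ∃ P ∈ (rep1 σ e).inv, F - P ∈ IX σ e ⊔ mI (ptX e f s) ^ (N + 1) := by
  obtain ⟨q, hq, hFq⟩ := lead hh N hF
  let q' : MvPolynomial (Mon σ (e + 1)) ℂ :=
    aeval (crd e (grad (frm (X : Mon σ (e + 1) → MvPolynomial (Mon σ (e + 1)) ℂ)))) q
  have hq1 : ∀ c : Mon σ (e + 1) → ℂ, aeval c q' = aeval (crd e (grad (frm c))) q := by
    intro c
    rw [← AlgHom.comp_apply, comp_aeval]
    congr 2
    refine (map_crd_grad ((aeval c : MvPolynomial (Mon σ (e + 1)) ℂ →ₐ[ℂ] ℂ) :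
      MvPolynomial (Mon σ (e + 1)) ℂ →+* ℂ) _).trans ?_
    rw [map_frm]
    simp
  have hq2 : q'.IsHomogeneous N := by
    have := hq.aeval (crd e (grad (frm (X : Mon σ (e + 1) → MvPolynomial (Mon σ (e + 1)) ℂ))))
      (n := 1) (fun p => by
        rw [crd_grad_apply, show p.2.1 + Finsupp.single p.1 1 = (p.2.add p.1).1 from rfl, coeff_frm,
          ← Nat.cast_succ, ← map_natCast (C : ℂ →+* MvPolynomial (Mon σ (e + 1)) ℂ), mul_comm]
        exact isHomogeneous_C_mul_X _ _)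
    rwa [one_mul] at this
  have hq3 : ∀ α ∈ q'.support, ∀ c, e + 1 ∣ ∑ m, α m * md b m.1 c := by
    intro α hα c
    have hζ := Complex.isPrimitiveRoot_exp (e + 1) (Nat.succ_ne_zero e)
    set ζ := Complex.exp (2 * Real.pi * Complex.I / (e + 1 : ℕ))
    let t : κ → ℂˣ := fun c' => if c' = c then Units.mk0 ζ (Complex.exp_ne_zero _) else 1
    have ht : ∀ β : σ →₀ ℕ, ∏ j, (t (b j) : ℂ) ^ β j = ζ ^ md b β c := by
      intro β
      rw [prod_md b (fun c => (t c : ℂ)), Finset.prod_eq_single c]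
      · simp [t]
      · intro c' _ hc'
        simp [t, hc']
      · simp
    have h1 : sub (diagU fun i => t (b i)).val f = f := by
      ext β
      rw [diagU_val, coeff_sub_diagonal, ht]
      by_cases h : coeff β f = 0
      · simp [h]
      · rw [(hζ.pow_eq_one_iff_dvd _).2 (hb.dvd_md hf h c), one_mul]
    have h2 : sub (diagonal fun m : Mon σ (e + 1) => ζ ^ md b m.1 c) q' = q' := by
      apply MvPolynomial.funext
      intro y
      have h3 := lead_sub hh hq hFq hf hG _ h1 (frm_isHomogeneous y)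
      have h4 : sub (diagU fun i => t (b i)).val (frm y) =
          frm ((diagonal fun m : Mon σ (e + 1) => ζ ^ md b m.1 c) *ᵥ y) := by
        simp only [frm, map_sum, diagU_val, sub_diagonal_monomial, ht, mulVec_diagonal]
      rw [h4, ← hq1, ← hq1] at h3
      rw [eval_sub]
      exact h3
    have h3 := congrArg (coeff α) h2
    rw [coeff_sub_diagonal, mul_eq_right₀ (mem_support_iff.1 hα)] at h3
    simp only [← pow_mul, Finset.prod_pow_eq_pow_sum] at h3
    simpa only [mul_comm] using (hζ.pow_eq_one_iff_dvd _).1 h3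
  obtain ⟨u, hu1, hu2, hu3⟩ := hb.exists_proj hf
  choose! Q Λ h1 h2 h3 h4 using fun α (hα : α ∈ q'.support) =>
    hb.mono_lift hf s u hu1 hu2 α (hq3 α hα)
  have hN : ∀ α ∈ q'.support, α.degree = N := fun α hα =>
    (hq2.degree_eq_sum_deg_support hα).symm
  let Q₀ := ∑ α ∈ q'.support, C (coeff α q') * Q α
  let Λ₀ := ∑ α ∈ q'.support, C (coeff α q') * Λ α
  have hQ₀ : Q₀ ∈ (rep1 σ e).orbI (ptX e f s) ^ N :=
    Ideal.sum_mem _ fun α hα => Ideal.mul_mem_left _ _ (hN α hα ▸ h1 α hα)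
  have hQΛ : Q₀ - Λ₀ ∈ mI (ptX e f s) ^ (N + 1) := by
    rw [← Finset.sum_sub_distrib]
    refine Ideal.sum_mem _ fun α hα => ?_
    rw [← mul_sub]
    exact Ideal.mul_mem_left _ _ (hN α hα ▸ h2 α hα)
  have hΛ1 : ∀ t : κ → ℂˣ, (rep1 σ e).gact (tor e fun i => t (b i)) Λ₀ = Λ₀ := by
    intro t
    rw [map_sum]
    refine Finset.sum_congr rfl fun α hα => ?_
    rw [map_mul, h3 α hα, ← algebraMap_eq, AlgHom.commutes]
  have hΛ2 : Λ₀ - aeval (yv (ptX e f s)) q ∈ IX σ e := by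
    apply mem_IX
    rintro z ⟨-, f', hf', hz⟩
    rw [hz, map_sub, sub_eq_zero, ← AlgHom.comp_apply (aeval _) (aeval _), comp_aeval]
    have h5 : (fun p => aeval (ptX e f' (z none)) (yv (ptX e f s) p)) = crd e (grad (f' - f)) := by
      funext p
      simp [yv, ptX, crd, grad]
    have h6 := lead_add hh hq hFq hf hG (frm_isHomogeneous fun m => u m (f' - f))
      (hu3 _ (hf'.sub hf))
    rw [add_sub_cancel, ← hq1] at h6
    rw [h5, h6, map_sum]
    conv_rhs => rw [q'.as_sum, map_sum]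
    refine Finset.sum_congr rfl fun α hα => ?_
    rw [map_mul, aeval_C, h4 α hα _ _ hf', aeval_monomial, Finsupp.prod_fintype _ _ (by simp)]
  have hm : ∀ γ, (rep1 σ e).pt (ptX e f s) γ = ptX e f s → ∀ P ∈ mI (ptX e f s) ^ (N + 1),
      (rep1 σ e).gact γ P ∈ mI (ptX e f s) ^ (N + 1) := fun γ hγ P hP =>
    (rep1 σ e).gact_mem_pow γ (fun P hP => (rep1 σ e).gact_mem_mI γ (by rwa [hγ])) _ hP
  have ho : ∀ γ, ∀ P ∈ (rep1 σ e).orbI (ptX e f s) ^ N,
      (rep1 σ e).gact γ P ∈ (rep1 σ e).orbI (ptX e f s) ^ N := fun γ P hP =>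
    (rep1 σ e).gact_mem_pow γ (fun P hP => (rep1 σ e).gact_mem_orbI hP γ) _ hP
  let Q₁ := (repT e b).reyn Q₀
  have hQ₁ : Q₁ ∈ (rep1 σ e).orbI (ptX e f s) ^ N :=
    (repT e b).reyn_mem (((rep1 σ e).orbI (ptX e f s) ^ N).restrictScalars ℂ) Q₀ fun t => by
      rw [gact_repT]; exact ho _ _ hQ₀
  have hQ₁' : Q₁ - Λ₀ ∈ mI (ptX e f s) ^ (N + 1) :=
    (repT e b).reyn_sub_mem ((mI (ptX e f s) ^ (N + 1)).restrictScalars ℂ) Q₀ Λ₀ fun t => by
      rw [gact_repT, ← hΛ1 fun c => Matrix.GeneralLinearGroup.det (t c), ← map_sub]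
      exact hm _ (hb.pt_tor s fun c => Matrix.GeneralLinearGroup.det (t c)) _ hQΛ
  have hQ₁'' : ∀ t : κ → ℂˣ, (rep1 σ e).gact (tor e fun i => t (b i)) Q₁ = Q₁ := by
    intro t
    have h5 := (repT e b).gact_reyn (fun c => diagU fun _ => t c) Q₀
    rw [gact_repT] at h5
    convert h5 using 4
    ext
    simp [diagU_val]
  have hQF : Q₁ - F ∈ IX σ e ⊔ mI (ptX e f s) ^ (N + 1) := by
    convert Ideal.sub_mem _ (Ideal.add_mem _ (Ideal.mem_sup_right hQ₁') (Ideal.mem_sup_left hΛ2))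
      hFq using 1
    ring
  obtain ⟨Q₂, h5, h6⟩ := (rep1 σ e).exists_average (ptX e f s) Q₁ (by
    refine ((finite_stab hh).image fun g => (rep1 σ e).gact (dg g) Q₁).subset ?_
    rintro _ ⟨γ, hγ, rfl⟩
    obtain ⟨t, g, hg, rfl⟩ := hb.stab hf s hh γ hγ
    exact ⟨g, hg, by simp only [Rep.act_mul, hQ₁'']⟩)
  have h7 := h6 _ 0 fun γ _ => by rw [sub_zero]; exact ho γ _ hQ₁
  rw [sub_zero] at h7
  have h8 := h6 (IX σ e ⊔ mI (ptX e f s) ^ (N + 1)) F fun γ hγ => by
    obtain ⟨t, g, hg, rfl⟩ := hb.stab hf s hh γ hγ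
    obtain ⟨x, hx, y, hy, hxy⟩ := Submodule.mem_sup.1 hQF
    rw [Rep.act_mul, hQ₁'', ← mem_invG.1 hG g, ← map_sub, ← hxy, map_add]
    exact Ideal.add_mem _ (Ideal.mem_sup_left (gact_mem_IX g hx))
      (Ideal.mem_sup_right (hm _ hg _ hy))
  obtain ⟨P, hP1, hP2⟩ := (rep1 σ e).luna (closedOrb_of_isX (isX_ptX hf hh)) N Q₂ h7 h5
  refine ⟨P, hP1, ?_⟩
  convert Submodule.neg_mem _ (Ideal.add_mem _ (Ideal.mem_sup_right hP2) h8) using 1
  ring

end Blocks

end Pool.Agent.P.MP_f4e0a3_ag
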