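import Mathlib
import Pool.Agent.P.MP_f4e0a3_ag.Local

/-!
Every invariant function on the smooth locus is the restriction of an invariant function on the
space of tuples, and the ring of these functions is normal.
-/

open MvPolynomial Matrix

set_option linter.unusedSectionVars false

namespace Pool.Agent.P.MP_f4e0a3_ag

lemma isIntegrallyClosed_of_saturated {S : Type} [CommRing S] [IsDomain S] [IsIntegrallyClosed S]
    [Algebra ℂ S] (T : Subalgebra ℂ S) (h : ∀ x : S, ∀ b ∈ T, b ≠ 0 → x * b ∈ T → x ∈ T) :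
    IsIntegrallyClosed T := by
  let K := FractionRing T
  let L := FractionRing S
  have hi : Function.Injective ((algebraMap S L).comp (algebraMap T S)) :=
    (IsFractionRing.injective S L).comp Subtype.val_injective
  let j : K →+* L := IsFractionRing.lift hi
  have hj : ∀ t : T, j (algebraMap T K t) = algebraMap S L t := fun t =>
    IsFractionRing.lift_algebraMap hi t
  rw [isIntegrallyClosed_iff K]
  intro x hx
  have h1 : IsIntegral S (j x) :=
    hx.map_of_comp_eq (algebraMap T S) j (RingHom.ext fun t => (hj t).symm)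
  obtain ⟨y, hy⟩ := (isIntegrallyClosed_iff L).1 inferInstance h1
  obtain ⟨a, b, hb, rfl⟩ := IsFractionRing.div_surjective (A := T) x
  have hb0 : (b : S) ≠ 0 := fun h0 => nonZeroDivisors.ne_zero hb (Subtype.ext h0)
  have hb1 : algebraMap S L b ≠ 0 := (map_ne_zero_iff _ (IsFractionRing.injective S L)).2 hb0
  have h2 : y * b = a := by
    apply IsFractionRing.injective S L
    rw [map_mul, hy, map_div₀, hj, hj, div_mul_cancel₀ _ hb1]
  refine ⟨⟨y, h y b b.2 hb0 (h2 ▸ a.2)⟩, j.injective ?_⟩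
  rw [hj, ← hy]

variable {σ : Type} [Fintype σ] [DecidableEq σ] {e : ℕ} [Nonempty σ] [Fact (2 ≤ e)]

lemma smooth_of_inU {f : MvPolynomial σ ℂ} (hf : f.IsHomogeneous (e + 1)) {s : ℂ}
    (hh : InU (ptX e f s)) (x : σ → ℂ) (hx : ∀ i, eval x (pderiv i f) = 0) : x = 0 := by
  by_contra h
  have h1 : HasZero (crd e (grad f)) := ⟨x, h, fun i => by rw [tup_crd_grad hf]; exact hx i⟩
  have h2 : s * aeval (crd e (grad f)) (Res σ e) = 1 := hh
  rw [h1.res] at h2
  simp at h2

/-- invariants vanishing at a point -/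
def mA (z : Option (σ × Mon σ e) → ℂ) : Set (MvPolynomial (Option (σ × Mon σ e)) ℂ) :=
  {P | P ∈ (rep1 σ e).inv ∧ aeval z P = 0}

lemma Blocks.local_mem {κ : Type} [Fintype κ] [DecidableEq κ] {f : MvPolynomial σ ℂ}
    (hf : f.IsHomogeneous (e + 1)) {b : σ → κ} (hb : Blocks f b) {s : ℂ} (hh : InU (ptX e f s))
    (F : MvPolynomial (Option (σ × Mon σ e)) ℂ) (hG : F ∈ (repG σ e).inv) :
    F - C (aeval (ptX e f s) F) ∈ IX σ e ⊔ Ideal.span (mA (ptX e f s)) := by
  have h1 : ∀ N, ∃ P ∈ (rep1 σ e).inv, F - P ∈ IX σ e ⊔ mI (ptX e f s) ^ N := by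
    intro N
    induction N with
    | zero => exact ⟨0, zero_mem _, by simp⟩
    | succ N ih =>
      obtain ⟨P, hP, h2⟩ := ih
      obtain ⟨P', hP', h3⟩ := hb.step hf s hh N (F - P) (sub_mem hG (inv_le_invG hP)) h2
      exact ⟨P + P', add_mem hP hP', by rwa [← _root_.sub_sub]⟩
  refine (repG σ e).krull _ (fun γ P hP => ?_) (ptX e f s) (fun w hw => ?_) _
    (sub_mem hG ((repG σ e).inv.algebraMap_mem _)) fun N => ?_
  · obtain ⟨x, hx, y, hy, rfl⟩ := Submodule.mem_sup.1 hP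
    rw [gact_repG, map_add]
    refine Ideal.add_mem _ (Ideal.mem_sup_left (gact_mem_IX _ hx)) (Ideal.mem_sup_right ?_)
    have h2 := Ideal.mem_map_of_mem ((rep1 σ e).gact (dg (γ ()))) hy
    rw [Ideal.map_span] at h2
    refine Ideal.span_mono ?_ h2
    rintro _ ⟨P, hP, rfl⟩
    rw [hP.1]
    exact hP
  · obtain ⟨g, hg⟩ := hb.fibre hf s hh (isX_of_IX fun P hP => hw P (Ideal.mem_sup_left hP))
      (fun P hP => by
        have h2 := hw (P - C (aeval (ptX e f s) P)) (Ideal.mem_sup_right (Ideal.subset_span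
          ⟨sub_mem hP ((rep1 σ e).inv.algebraMap_mem _), by simp⟩))
        rw [map_sub, aeval_C, sub_eq_zero] at h2
        exact h2.symm)
    exact ⟨fun _ => g, hg⟩
  · obtain ⟨P, hP, h2⟩ := h1 (N + 1)
    have h3 : aeval (ptX e f s) (F - P) = 0 := by
      refine (sup_le (fun x hx => (isX_ptX hf hh).aeval_eq_zero hx)
        (Ideal.pow_le_self (Nat.succ_ne_zero N)) : _ ≤ mI (ptX e f s)) h2
    have h4 : P - C (aeval (ptX e f s) F) ∈ Ideal.span (mA (ptX e f s)) :=
      Ideal.subset_span ⟨sub_mem hP ((rep1 σ e).inv.algebraMap_mem _), by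
        rw [map_sub, sub_eq_zero] at h3
        simp [h3]⟩
    have h5 : F - P ∈ IX σ e ⊔ Ideal.span (mA (ptX e f s)) ⊔ mI (ptX e f s) ^ N :=
      (show IX σ e ⊔ mI (ptX e f s) ^ (N + 1) ≤ _ from
        sup_le_sup le_sup_left (Ideal.pow_le_pow_right (Nat.le_succ N))) h2
    convert Ideal.add_mem _ h5 (Ideal.mem_sup_left (Ideal.mem_sup_right h4)) using 1
    ring

lemma local_mem {z : Option (σ × Mon σ e) → ℂ} (hz : IsX z)
    (F : MvPolynomial (Option (σ × Mon σ e)) ℂ) (hG : F ∈ (repG σ e).inv) :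
    F - C (aeval z F) ∈ IX σ e ⊔ Ideal.span (mA z) := by
  obtain ⟨h1, f, hf, h2⟩ := hz
  obtain ⟨g, b, hb⟩ := exists_blocks hf (smooth_of_inU hf (h2 ▸ h1))
  have h3 : (rep1 σ e).pt z (dg g) = ptX e (sub g.val f) (chi e (dg g)⁻¹ * z none) := by
    conv_lhs => rw [h2]
    rw [pt_ptX_dg hf]
  have h4 := hb.local_mem (sub_isHomogeneous _ hf) (h3 ▸ h1.pt (dg g)) F hG
  rw [← h3, ← Rep.aeval_act, mem_invG.1 hG] at h4
  convert h4 using 3
  ext P
  refine and_congr_right fun hP => ?_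
  rw [← Rep.aeval_act, hP]

lemma θ_mem_BB {P : MvPolynomial (Option (σ × Mon σ e)) ℂ}
    (h : ∀ g : GL σ ℂ, (rep1 σ e).gact (dg g) P - P ∈ IX σ e) : θ σ e P ∈ BB σ e := by
  have h1 := (repG σ e).reyn_sub_mem ((IX σ e).restrictScalars ℂ) P P fun γ => by
    rw [gact_repG]; exact h _
  refine ⟨_, (repG σ e).reyn_mem_inv P, ?_⟩
  have h2 : θ σ e ((repG σ e).reyn P - P) = 0 := h1
  rw [map_sub, sub_eq_zero] at h2
  exact h2

lemma exists_sum_of_mem {F : MvPolynomial (Option (σ × Mon σ e)) ℂ} (hG : F ∈ (repG σ e).inv)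
    {S : Set (MvPolynomial (Option (σ × Mon σ e)) ℂ)} (hS : S ⊆ (rep1 σ e).inv)
    (h : F ∈ IX σ e ⊔ Ideal.span S) : ∃ (n : ℕ) (a : Fin n → BB σ e) (p : Fin n → S),
      θ σ e F = ∑ i, θ σ e (p i) * a i := by
  obtain ⟨x, hx, y, hy, rfl⟩ := Submodule.mem_sup.1 h
  obtain ⟨n, a, p, rfl⟩ := Submodule.mem_span_set'.1 hy
  have h1 := (repG σ e).sub_sum_reyn_mem Finset.univ ((IX σ e).restrictScalars ℂ)
    (fun γ P hP => by rw [gact_repG]; exact gact_mem_IX _ hP) _ hG a (fun i => p i)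
    (fun i _ => inv_le_invG (hS (p i).2)) (by simpa using hx)
  refine ⟨n, fun i => ⟨_, _, (repG σ e).reyn_mem_inv (a i), rfl⟩, p, ?_⟩
  have h2 : θ σ e _ = 0 := h1
  rw [map_sub, sub_eq_zero] at h2
  rw [h2, map_sum]
  exact Finset.sum_congr rfl fun i _ => by rw [map_mul, mul_comm]; rfl

lemma BB_fg : (BB σ e).FG := (repG σ e).inv_fg.map _

theorem BB_le_AA : BB σ e ≤ AA σ e := by
  obtain ⟨s, hs⟩ := BB_fg (σ := σ) (e := e)
  let B' : Submodule (AA σ e) (OX σ e) := (Algebra.adjoin (AA σ e) (s : Set (OX σ e))).toSubmodule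
  have hB' : B'.FG := fg_adjoin_of_finite s.finite_toSet fun x hx =>
    isIntegral_BB (hs ▸ Algebra.subset_adjoin hx)
  have hB : ∀ x, x ∈ B' ↔ x ∈ BB σ e := by
    intro x
    constructor
    · intro hx
      induction hx using Algebra.adjoin_induction with
      | mem x hx => exact hs ▸ Algebra.subset_adjoin hx
      | algebraMap r => exact AA_le_BB r.2
      | add x y _ _ hx hy => exact add_mem hx hy
      | mul x y _ _ hx hy => exact mul_mem hx hy
    · intro hx
      rw [← hs] at hx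
      exact (Algebra.adjoin_le (S := (Algebra.adjoin (AA σ e) (s : Set (OX σ e))).restrictScalars ℂ)
        Algebra.subset_adjoin :) hx
  let c : Ideal (AA σ e) := (1 : Submodule (AA σ e) (OX σ e)).colon B'
  suffices hc : c = ⊤ by
    intro x hx
    have h1 := Submodule.mem_colon.1 (hc ▸ Submodule.mem_top : (1 : AA σ e) ∈ c) x ((hB x).2 hx)
    rw [one_smul, Submodule.mem_one] at h1
    obtain ⟨y, rfl⟩ := h1
    exact y.2
  by_contra hc
  obtain ⟨m, hm, hcm⟩ := Ideal.exists_le_maximal c hc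
  let S : Set (MvPolynomial (Option (σ × Mon σ e)) ℂ) :=
    {P | ∃ hP : P ∈ (rep1 σ e).inv, (⟨θ σ e P, P, hP, rfl⟩ : AA σ e) ∈ m}
  have hS : ∀ F ∈ (repG σ e).inv, F ∈ IX σ e ⊔ Ideal.span S → θ σ e F ∈ m • B' := by
    intro F hF h
    obtain ⟨n, a, p, h1⟩ := exists_sum_of_mem hF (fun P hP => hP.1) h
    rw [h1]
    exact Submodule.sum_mem _ fun i _ => Submodule.smul_mem_smul (p i).2.2 ((hB _).2 (a i).2)
  have h1 : B' ≤ 1 ⊔ m • B' := by
    intro x hx
    obtain ⟨F, hF, rfl⟩ := (hB x).1 hx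
    by_cases hT : IX σ e ⊔ Ideal.span S = ⊤
    · exact Submodule.mem_sup_right (hS F hF (hT ▸ Submodule.mem_top))
    obtain ⟨z, hz⟩ := Rep.exists_pt_of_ne_top _ hT
    have hzX : IsX z := isX_of_IX fun P hP => hz P (Ideal.mem_sup_left hP)
    obtain ⟨ψ, hψ⟩ := hzX.exists_hom
    have h2 : m = RingHom.ker (ψ.comp (AA σ e).val) := by
      refine hm.eq_of_le (RingHom.ker_ne_top _) ?_
      rintro ⟨_, P, hP, rfl⟩ h2
      show ψ (θ σ e P) = 0
      rw [map_θ, hψ]
      exact hz P (Ideal.mem_sup_right (Ideal.subset_span ⟨hP, h2⟩))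
    have h3 : mA z ⊆ S := by
      intro P hP
      refine ⟨hP.1, ?_⟩
      rw [h2]
      show ψ (θ σ e P) = 0
      rw [map_θ, hψ]
      exact hP.2
    have h4 := hS _ (sub_mem hF ((repG σ e).inv.algebraMap_mem (aeval z F)))
      ((sup_le_sup_left (Ideal.span_mono h3) _ :) (local_mem hzX F hF))
    rw [map_sub, AlgHom.commutes] at h4
    have h5 : algebraMap ℂ (OX σ e) (aeval z F) ∈ (1 : Submodule (AA σ e) (OX σ e)) :=
      Submodule.mem_one.2 ⟨algebraMap ℂ _ (aeval z F), rfl⟩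
    have h6 := Submodule.add_mem _ (Submodule.mem_sup_right h4) (Submodule.mem_sup_left h5)
    rwa [sub_add_cancel] at h6
  obtain ⟨r, hr1, hr2⟩ := Submodule.exists_sub_one_mem_and_smul_le_of_fg_of_le_sup hB' le_rfl h1
  have h2 : r ∈ m := hcm (Submodule.mem_colon.2 fun x hx =>
    hr2 (Submodule.smul_mem_pointwise_smul x r B' hx))
  have h3 := m.sub_mem h2 hr1
  rw [sub_sub_cancel] at h3
  exact hm.ne_top ((Ideal.eq_top_iff_one _).2 h3)

instance : IsIntegrallyClosed (BB σ e) := by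
  apply isIntegrallyClosed_of_saturated
  rintro x _ ⟨Q, hQ, rfl⟩ hb ⟨P', hP', h⟩
  obtain ⟨P, rfl⟩ := θ_surjective x
  refine θ_mem_BB fun g => ?_
  have h1 : P * Q - P' ∈ IX σ e := by
    show θ σ e _ = 0
    rw [map_sub, map_mul, sub_eq_zero]
    exact h.symm
  have h2 := (IX σ e).sub_mem (gact_mem_IX g h1) h1
  rw [map_sub, map_mul, mem_invG.1 hQ, mem_invG.1 hP', sub_sub_sub_cancel_right, ← sub_mul] at h2
  have h3 : θ σ e _ = 0 := h2
  rw [map_mul] at h3
  exact (mul_eq_zero.1 h3).resolve_right hb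

end Pool.Agent.P.MP_f4e0a3_ag
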