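import Mathlib

open MvPolynomial

namespace Pool.Agent.P.MP_f4e0a3_ag

/-- lines spanned by a form of degree `d` whose partial derivatives have no common zero `≠ 0` -/
def PX (n d : ℕ) : Set (Submodule ℂ (MvPolynomial (Fin n) ℂ)) :=
  {L | ∃ f : MvPolynomial (Fin n) ℂ, f.IsHomogeneous d ∧
    (∀ x : Fin n → ℂ, (∀ i, eval x (pderiv i f) = 0) → x = 0) ∧ L = Submodule.span ℂ {f}}

/-- `n`-dimensional spaces of forms of degree `e` with a basis without common zero `≠ 0` -/
def Z (n e : ℕ) : Set (Submodule ℂ (MvPolynomial (Fin n) ℂ)) :=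
  {L | ∃ h : Fin n → MvPolynomial (Fin n) ℂ, (∀ i, (h i).IsHomogeneous e) ∧
    LinearIndependent ℂ h ∧ (∀ x : Fin n → ℂ, (∀ i, eval x (h i) = 0) → x = 0) ∧
    L = Submodule.span ℂ (Set.range h)}

/-- Plücker coordinates of a `k`-tuple of polynomials: the `k × k` minors of its coefficients -/
noncomputable def plucker {n k : ℕ} (h : Fin k → MvPolynomial (Fin n) ℂ)
    (I : Fin k → (Fin n →₀ ℕ)) : ℂ :=
  (Matrix.of fun i j => coeff (I j) (h i)).det

/-- regular functions on a set `Y` of `k`-dimensional subspaces: near each point, a quotient of two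
homogeneous polynomials of the same degree in the Plücker coordinates -/
def IsRegular {n : ℕ} (k : ℕ) (Y : Set (Submodule ℂ (MvPolynomial (Fin n) ℂ))) (φ : Y → ℂ) :
    Prop :=
  ∀ h₀ : Fin k → MvPolynomial (Fin n) ℂ, Submodule.span ℂ (Set.range h₀) ∈ Y →
    ∃ (m : ℕ) (P Q : MvPolynomial (Fin k → (Fin n →₀ ℕ)) ℂ),
      P.IsHomogeneous m ∧ Q.IsHomogeneous m ∧ eval (plucker h₀) Q ≠ 0 ∧
      ∀ (h : Fin k → MvPolynomial (Fin n) ℂ) (hY : Submodule.span ℂ (Set.range h) ∈ Y),
        eval (plucker h) Q ≠ 0 → φ ⟨_, hY⟩ = eval (plucker h) P / eval (plucker h) Q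

/-- invariance under linear changes of variables of determinant one -/
def IsInvariant {n : ℕ} (Y : Set (Submodule ℂ (MvPolynomial (Fin n) ℂ))) (φ : Y → ℂ) : Prop :=
  ∀ (g : Matrix.SpecialLinearGroup (Fin n) ℂ) (L L' : Y),
    L'.1 = L.1.map (aeval fun i => ∑ j, C (g i j) * X j :
      MvPolynomial (Fin n) ℂ →ₐ[ℂ] MvPolynomial (Fin n) ℂ).toLinearMap → φ L' = φ L

/-- the image of `Spec B → Spec A` is closed and, with its reduced structure, integral and normal -/
def HasNormalImage {A B : Type} [CommRing A] [CommRing B] (Φ : A →+* B) : Prop :=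
  IsClosed (Set.range (PrimeSpectrum.comap Φ)) ∧
  IsDomain (A ⧸ PrimeSpectrum.vanishingIdeal (Set.range (PrimeSpectrum.comap Φ))) ∧
  IsIntegrallyClosed (A ⧸ PrimeSpectrum.vanishingIdeal (Set.range (PrimeSpectrum.comap Φ)))

/-- `SA`, `SB` are subalgebras, `SA` is finitely generated, and `π` restricts to a homomorphism
`SA → SB` with normal image -/
def InducesNormalImage {R S : Type} [CommRing R] [Algebra ℂ R] [CommRing S] [Algebra ℂ S]
    (SA : Set R) (SB : Set S) (π : R → S) : Prop :=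
  ∃ (A : Subalgebra ℂ R) (B : Subalgebra ℂ S) (Φ : A →ₐ[ℂ] B),
    (A : Set R) = SA ∧ (B : Set S) = SB ∧ (∀ φ : A, (Φ φ : S) = π φ) ∧
    Algebra.FiniteType ℂ A ∧ HasNormalImage (Φ : A →+* B)

end Pool.Agent.P.MP_f4e0a3_ag
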