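import Mathlib
import Pool.Agent.P.MP_f4e0a3_ag.Defs
import Pool.Agent.P.MP_f4e0a3_ag.Main

/-!
Regular functions on the spaces of subspaces.
-/

open MvPolynomial Matrix

set_option linter.unusedSectionVars false

namespace Pool.Agent.P.MP_f4e0a3_ag

lemma global_of_local {S : Type} [CommRing S] [Algebra ℂ S] [Algebra.FiniteType ℂ S] (G : S)
    (Fn : (S →ₐ[ℂ] ℂ) → ℂ) (h : ∀ χ₀ : S →ₐ[ℂ] ℂ, χ₀ G = 0 → ∃ p q : S, χ₀ q ≠ 0 ∧
      ∀ χ : S →ₐ[ℂ] ℂ, χ G = 0 → χ q ≠ 0 → Fn χ = χ p / χ q) :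
    ∃ x : S, ∀ χ : S →ₐ[ℂ] ℂ, χ G = 0 → Fn χ = χ x := by
  let J : Ideal S :=
    { carrier := {q | ∃ p, ∀ χ : S →ₐ[ℂ] ℂ, χ G = 0 → χ q * Fn χ = χ p}
      add_mem' := by
        rintro a b ⟨p, hp⟩ ⟨p', hp'⟩
        exact ⟨p + p', fun χ hχ => by rw [map_add, map_add, add_mul, hp χ hχ, hp' χ hχ]⟩
      zero_mem' := ⟨0, fun χ _ => by simp⟩
      smul_mem' := by
        rintro a b ⟨p, hp⟩
        exact ⟨a * p, fun χ hχ => by rw [smul_eq_mul, map_mul, map_mul, mul_assoc, hp χ hχ]⟩ }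
  have hJ : J = ⊤ := by
    by_contra hJ
    obtain ⟨χ₀, h0⟩ := exists_point_of_ne_top J hJ
    obtain ⟨p, q, h1, h2⟩ := h χ₀ (h0 G ⟨0, fun χ hχ => by simp [hχ]⟩)
    have h3 := h0 (q * q) ⟨p * q, fun χ hχ => by
      by_cases hq : χ q = 0
      · simp [hq]
      · rw [h2 χ hχ hq, map_mul, map_mul]
        field_simp⟩
    simp [h1] at h3
  obtain ⟨p, hp⟩ : (1 : S) ∈ J := hJ ▸ Submodule.mem_top
  exact ⟨p, fun χ hχ => by simpa using hp χ hχ⟩

lemma exists_homog {ι T : Type} (p : MvPolynomial ι ℂ) (y : ι → T) (D : T) (K : ℕ)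
    (hK : p.totalDegree ≤ K) : ∃ p' : MvPolynomial T ℂ, p'.IsHomogeneous K ∧
      ∀ x : T → ℂ, x D ≠ 0 → eval x p' = x D ^ K * aeval (fun i => (x D)⁻¹ * x (y i)) p := by
  refine ⟨∑ k ∈ Finset.range (p.totalDegree + 1),
    X D ^ (K - k) * rename y (homogeneousComponent k p), IsHomogeneous.sum _ _ _ fun k hk => ?_,
    fun x hx => ?_⟩
  · have := (isHomogeneous_X_pow D (K - k)).mul
      ((homogeneousComponent_isHomogeneous k p).rename_isHomogeneous (f := y))
    rw [Finset.mem_range] at hk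
    rwa [show K - k + k = K by omega] at this
  · conv_rhs => rw [← p.sum_homogeneousComponent]
    rw [map_sum, map_sum, Finset.mul_sum]
    refine Finset.sum_congr rfl fun k hk => ?_
    rw [Finset.mem_range] at hk
    rw [aeval_mul_left (homogeneousComponent_isHomogeneous k p), map_mul, map_pow, eval_X,
      eval_rename, ← mul_assoc, inv_pow, ← pow_sub₀ _ hx (by omega)]
    rfl

lemma exists_scalar {σ : Type} [Fintype σ] [DecidableEq σ] [Nonempty σ] (g : GL σ ℂ) :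
    ∃ (t : ℂ) (g₀ : Matrix.SpecialLinearGroup σ ℂ), t ≠ 0 ∧ g.val = t • g₀.val := by
  obtain ⟨t, ht⟩ := IsAlgClosed.exists_pow_nat_eq g.val.det (Fintype.card_pos (α := σ))
  have ht0 : t ≠ 0 := by
    rintro rfl
    rw [zero_pow Fintype.card_pos.ne'] at ht
    exact g.det_ne_zero ht.symm
  refine ⟨t, ⟨t⁻¹ • g.val, ?_⟩, ht0, ?_⟩
  · rw [det_smul, ← ht, ← mul_pow, inv_mul_cancel₀ ht0, one_pow]
  · simp [smul_smul, ht0]

lemma sub_scalar {σ : Type} [Fintype σ] [DecidableEq σ] (t : ℂ) {p : MvPolynomial σ ℂ} {m : ℕ}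
    (hp : p.IsHomogeneous m) : sub (t • (1 : Matrix σ σ ℂ)) p = t ^ m • p := by
  apply MvPolynomial.funext
  intro x
  rw [eval_sub, smul_eval, smul_mulVec, one_mulVec]
  exact aeval_mul_left hp t x

variable {n : ℕ}

/-- the algebra of invariant regular functions -/
def RI (k : ℕ) (Y : Set (Submodule ℂ (MvPolynomial (Fin n) ℂ))) : Subalgebra ℂ (Y → ℂ) where
  carrier := {φ | IsRegular k Y φ ∧ IsInvariant Y φ}
  mul_mem' := by
    rintro φ ψ ⟨h1, h2⟩ ⟨h3, h4⟩
    refine ⟨fun h₀ hh₀ => ?_, fun g L L' h => by rw [Pi.mul_apply, Pi.mul_apply, h2 g L L' h,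
      h4 g L L' h]⟩
    obtain ⟨m, P, Q, hP, hQ, h5, h6⟩ := h1 h₀ hh₀
    obtain ⟨m', P', Q', hP', hQ', h7, h8⟩ := h3 h₀ hh₀
    refine ⟨m + m', P * P', Q * Q', hP.mul hP', hQ.mul hQ', by simp [h5, h7], fun h hh h9 => ?_⟩
    rw [map_mul, mul_ne_zero_iff] at h9
    rw [Pi.mul_apply, h6 h hh h9.1, h8 h hh h9.2, map_mul, map_mul, div_mul_div_comm]
  add_mem' := by
    rintro φ ψ ⟨h1, h2⟩ ⟨h3, h4⟩
    refine ⟨fun h₀ hh₀ => ?_, fun g L L' h => by rw [Pi.add_apply, Pi.add_apply, h2 g L L' h,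
      h4 g L L' h]⟩
    obtain ⟨m, P, Q, hP, hQ, h5, h6⟩ := h1 h₀ hh₀
    obtain ⟨m', P', Q', hP', hQ', h7, h8⟩ := h3 h₀ hh₀
    refine ⟨m + m', P * Q' + Q * P', Q * Q', (hP.mul hQ').add (hQ.mul hP'), hQ.mul hQ',
      by simp [h5, h7], fun h hh h9 => ?_⟩
    rw [map_mul, mul_ne_zero_iff] at h9
    rw [Pi.add_apply, h6 h hh h9.1, h8 h hh h9.2, map_add, map_mul, map_mul, map_mul,
      div_add_div _ _ h9.1 h9.2]
  algebraMap_mem' c := ⟨fun h₀ _ => ⟨0, C c, 1, isHomogeneous_C _ _, isHomogeneous_one _ _,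
    by simp, fun h hh _ => by simp⟩, fun _ _ _ _ => rfl⟩

section Span

variable {σ : Type} [Fintype σ] [DecidableEq σ]

lemma act2_one_right (a : Matrix σ σ ℂ) (h : σ → MvPolynomial σ ℂ) (j : σ) :
    act2 a 1 h j = ∑ i, a i j • h i := by
  simp [act2, smul_eq_C_mul]

lemma span_act2_le (a : Matrix σ σ ℂ) (h : σ → MvPolynomial σ ℂ) :
    Submodule.span ℂ (Set.range (act2 a 1 h)) ≤ Submodule.span ℂ (Set.range h) := by
  rw [Submodule.span_le]
  rintro _ ⟨j, rfl⟩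
  rw [act2_one_right]
  exact Submodule.sum_mem _ fun i _ => Submodule.smul_mem _ _ (Submodule.subset_span ⟨i, rfl⟩)

lemma span_act2_left (a : GL σ ℂ) (h : σ → MvPolynomial σ ℂ) :
    Submodule.span ℂ (Set.range (act2 a.val 1 h)) = Submodule.span ℂ (Set.range h) := by
  refine le_antisymm (span_act2_le _ _) ?_
  have := span_act2_le (a⁻¹).val (act2 a.val 1 h)
  rwa [act2_act2, Units.mul_inv, Matrix.mul_one, act2_one] at this

lemma span_act2 (a : GL σ ℂ) (g : Matrix σ σ ℂ) (h : σ → MvPolynomial σ ℂ) :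
    Submodule.span ℂ (Set.range (act2 a.val g h)) =
      (Submodule.span ℂ (Set.range h)).map (sub g).toLinearMap := by
  have h1 : act2 a.val g h = act2 a.val 1 (act2 1 g h) := by rw [act2_act2]; simp
  rw [h1, span_act2_left, Submodule.map_span, ← Set.range_comp]
  congr 2
  funext j
  exact act2_one_left g h j

lemma exists_act2_of_le {h h' : σ → MvPolynomial σ ℂ}
    (H : Submodule.span ℂ (Set.range h') ≤ Submodule.span ℂ (Set.range h)) :
    ∃ a : Matrix σ σ ℂ, h' = act2 a 1 h := by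
  choose c hc using fun j => (Submodule.mem_span_range_iff_exists_fun ℂ).1
    (H (Submodule.subset_span ⟨j, rfl⟩))
  exact ⟨Matrix.of fun i j => c j i, funext fun j => by rw [act2_one_right, ← hc j]; rfl⟩

lemma exists_GL_of_span_eq {h h' : σ → MvPolynomial σ ℂ} (hh : LinearIndependent ℂ h)
    (H : Submodule.span ℂ (Set.range h') = Submodule.span ℂ (Set.range h)) :
    ∃ a : GL σ ℂ, h' = act2 a.val 1 h := by
  obtain ⟨a, ha⟩ := exists_act2_of_le H.le
  obtain ⟨a', ha'⟩ := exists_act2_of_le H.ge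
  have h1 : a * a' = 1 := by
    have h2 : act2 (a * a') 1 h = act2 1 1 h := by
      rw [← Matrix.mul_one (1 : Matrix σ σ ℂ), ← act2_act2, ← ha, ← ha']
      simp
    ext i j
    have h3 := congrFun h2 j
    rw [act2_one_right, act2_one_right] at h3
    exact Fintype.linearIndependent_iffₛ.1 hh _ _ h3 i
  exact ⟨⟨a, a', h1, mul_eq_one_comm.1 h1⟩, ha⟩

lemma map_sub_of_GL (g : GL σ ℂ) {L : Submodule ℂ (MvPolynomial σ ℂ)} {m : ℕ} [Nonempty σ]
    (hL : L ≤ homogeneousSubmodule σ ℂ m) : ∃ g₀ : Matrix.SpecialLinearGroup σ ℂ,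
      L.map (sub g.val).toLinearMap = L.map (sub g₀.val).toLinearMap := by
  obtain ⟨t, g₀, ht, hg⟩ := exists_scalar g
  refine ⟨g₀, ?_⟩
  have h1 : ∀ p ∈ L, sub g.val p = t ^ m • sub g₀.val p := by
    intro p hp
    rw [hg, ← Matrix.one_mul g₀.val, ← Matrix.smul_mul, ← sub_sub, sub_scalar t (hL hp), map_smul,
      Matrix.one_mul]
  apply le_antisymm
  · rintro _ ⟨p, hp, rfl⟩
    exact ⟨t ^ m • p, L.smul_mem _ hp, by simp [h1 p hp]⟩
  · rintro _ ⟨p, hp, rfl⟩
    refine ⟨(t ^ m)⁻¹ • p, L.smul_mem _ hp, ?_⟩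
    simp [h1 p hp, smul_smul, ht]

end Span

variable {e : ℕ}

lemma of_mem_Z {h : Fin n → MvPolynomial (Fin n) ℂ}
    (hh : Submodule.span ℂ (Set.range h) ∈ Z n e) : (∀ i, (h i).IsHomogeneous e) ∧
    LinearIndependent ℂ h ∧ ∀ x : Fin n → ℂ, (∀ i, eval x (h i) = 0) → x = 0 := by
  obtain ⟨h', h1, h2, h3, h4⟩ := hh
  obtain ⟨a, rfl⟩ := exists_GL_of_span_eq h2 h4
  refine ⟨act2_isHomogeneous _ _ h1, ?_, fun x hx => h3 x fun i => ?_⟩
  · rw [linearIndependent_iff_card_eq_finrank_span] at h2 ⊢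
    rw [h2, Set.finrank, Set.finrank, h4]
  · have h5 : h' = act2 (a⁻¹).val 1 (act2 a.val 1 h') := by
      rw [act2_act2, Units.mul_inv, Matrix.mul_one, act2_one]
    rw [h5, eval_act2]
    simp [hx]

lemma of_mem_PX {d : ℕ} {f : MvPolynomial (Fin n) ℂ} (hf : Submodule.span ℂ {f} ∈ PX n d) :
    f.IsHomogeneous d ∧ ∀ x : Fin n → ℂ, (∀ i, eval x (pderiv i f) = 0) → x = 0 := by
  obtain ⟨f', h1, h2, h3⟩ := hf
  obtain ⟨c, rfl⟩ := Submodule.span_singleton_eq_span_singleton.1 h3.symm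
  refine ⟨(homogeneousSubmodule _ ℂ d).smul_mem (c : ℂ) h1, fun x hx => h2 x fun i => ?_⟩
  have := hx i
  simpa [Units.smul_def] using this

lemma iSup_map_span (f : MvPolynomial (Fin n) ℂ) :
    (⨆ i, (Submodule.span ℂ {f}).map
      (pderiv i : Derivation ℂ (MvPolynomial (Fin n) ℂ) (MvPolynomial (Fin n) ℂ)).toLinearMap) =
      Submodule.span ℂ (Set.range (grad f)) := by
  rw [Submodule.span_range_eq_iSup]
  congr 1
  funext i
  rw [Submodule.map_span, Set.image_singleton]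
  rfl

variable [Fact (2 ≤ e)]

lemma grad_mem_Z {f : MvPolynomial (Fin n) ℂ} (hf : Submodule.span ℂ {f} ∈ PX n (e + 1)) :
    Submodule.span ℂ (Set.range (grad f)) ∈ Z n e := by
  obtain ⟨h1, h2⟩ := of_mem_PX hf
  refine ⟨grad f, grad_isHomogeneous h1, Fintype.linearIndependent_iff.2 fun y hy => ?_, h2, rfl⟩
  have h3 : dd y f = 0 := by rw [dd_apply]; exact hy
  exact congrFun (eq_zero_of_dd_dd h1 h2 (by rw [h3, map_zero]))

variable (n e) in
/-- the gradient morphism -/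
noncomputable def gradMap (L : PX n (e + 1)) : Z n e :=
  ⟨⨆ i, L.1.map
      (pderiv i : Derivation ℂ (MvPolynomial (Fin n) ℂ) (MvPolynomial (Fin n) ℂ)).toLinearMap, by
    obtain ⟨L, hL⟩ := L
    obtain ⟨f, -, -, rfl⟩ := id hL
    rw [iSup_map_span]
    exact grad_mem_Z hL⟩

lemma gradMap_span {f : MvPolynomial (Fin n) ℂ} (hf : Submodule.span ℂ {f} ∈ PX n (e + 1)) :
    gradMap n e ⟨_, hf⟩ = ⟨_, grad_mem_Z hf⟩ := Subtype.ext (iSup_map_span f)

lemma range_one (h : Fin 1 → MvPolynomial (Fin n) ℂ) : Set.range h = {h 0} := Set.range_unique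

lemma plucker_one (h : Fin 1 → MvPolynomial (Fin n) ℂ) (I : Fin 1 → (Fin n →₀ ℕ)) :
    plucker h I = coeff (I 0) (h 0) := by
  simp [plucker]

lemma comp_mem_RI {φ : Z n e → ℂ} (hφ : φ ∈ RI n (Z n e)) :
    (fun L => φ (gradMap n e L)) ∈ RI 1 (PX n (e + 1)) := by
  refine ⟨fun h₀ hh₀ => ?_, ?_⟩
  · let T : (Fin n → (Fin n →₀ ℕ)) → MvPolynomial (Fin 1 → (Fin n →₀ ℕ)) ℂ := fun I =>
      (Matrix.of fun i j => C (I j i + 1 : ℂ) * X fun _ => I j + Finsupp.single i 1).det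
    have hT : ∀ I, (T I).IsHomogeneous n := by
      intro I
      simp only [T, det_apply']
      refine IsHomogeneous.sum _ _ _ fun s _ => ?_
      rw [← map_intCast (C : ℂ →+* MvPolynomial (Fin 1 → (Fin n →₀ ℕ)) ℂ)]
      have := IsHomogeneous.prod Finset.univ (fun j => (C (I j (s j) + 1 : ℂ) *
        X fun _ => I j + Finsupp.single (s j) 1 : MvPolynomial (Fin 1 → (Fin n →₀ ℕ)) ℂ))
        (fun _ => 1) (fun j _ => isHomogeneous_C_mul_X _ _)
      rw [Finset.sum_const, Finset.card_univ, Fintype.card_fin, smul_eq_mul, mul_one] at this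
      exact this.C_mul _
    have hT' : ∀ (h : Fin 1 → MvPolynomial (Fin n) ℂ) (P : MvPolynomial _ ℂ),
        eval (plucker h) (aeval T P) = eval (plucker (grad (h 0))) P := by
      intro h P
      have h1 : (fun I => aeval (plucker h) (T I)) = plucker (grad (h 0)) := by
        funext I
        rw [AlgHom.map_det, plucker]
        congr 1
        ext i j
        simp [plucker_one, grad, coeff_pderiv, mul_comm]
      rw [← h1]
      exact DFunLike.congr_fun (comp_aeval T (aeval (plucker h))) P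
    rw [range_one] at hh₀
    obtain ⟨m, P, Q, hP, hQ, h1, h2⟩ := hφ.1 _ (grad_mem_Z hh₀)
    refine ⟨n * m, aeval T P, aeval T Q, hP.aeval T hT, hQ.aeval T hT, by rwa [hT'],
      fun h hh h3 => ?_⟩
    have hh' : Submodule.span ℂ {h 0} ∈ PX n (e + 1) := range_one h ▸ hh
    rw [hT'] at h3
    rw [hT', hT', ← h2 _ (grad_mem_Z hh') h3, ← gradMap_span hh']
    simp only [range_one]
  · rintro g ⟨L, hL⟩ ⟨L', hL'⟩ h
    obtain ⟨f, -, -, rfl⟩ := id hL
    have h1 : L' = Submodule.span ℂ {sub g.val f} := by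
      rw [show L' = _ from h, Submodule.map_span, Set.image_singleton]; rfl
    subst h1
    apply hφ.2 g
    rw [gradMap_span, gradMap_span]
    show Submodule.span ℂ (Set.range (grad (sub g.val f))) = _
    rw [grad_sub]
    exact span_act2 (Matrix.SpecialLinearGroup.toGL g) g.val (grad f)

variable (n e) in
/-- pullback along the gradient morphism -/
noncomputable def Φ : RI n (Z n e) →ₐ[ℂ] RI 1 (PX n (e + 1)) where
  toFun φ := ⟨fun L => φ.1 (gradMap n e L), comp_mem_RI φ.2⟩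
  map_one' := rfl
  map_mul' _ _ := rfl
  map_zero' := rfl
  map_add' _ _ := rfl
  commutes' _ := rfl

variable [Nonempty (Fin n)]

/-- the point of the extended space attached to a tuple -/
noncomputable def zU (e : ℕ) [Fact (2 ≤ e)] (h : Fin n → MvPolynomial (Fin n) ℂ) :
    Option (Fin n × Mon (Fin n) e) → ℂ := ext (aeval (crd e h) (Res (Fin n) e))⁻¹ (crd e h)

lemma inU_zU {h : Fin n → MvPolynomial (Fin n) ℂ} (hh : Submodule.span ℂ (Set.range h) ∈ Z n e) :
    InU (zU e h) := by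
  obtain ⟨h1, -, h2⟩ := of_mem_Z hh
  refine inv_mul_cancel₀ fun h3 => ?_
  obtain ⟨x, hx, h4⟩ := hasZero_of_res h3
  exact hx (h2 x fun i => by have := h4 i; rwa [show tup _ = h from tup_crd h1] at this)

lemma zU_act2 {h : Fin n → MvPolynomial (Fin n) ℂ} (hh : Submodule.span ℂ (Set.range h) ∈ Z n e)
    (γ : Gr Bool (Fin n) ℂ) :
    zU e (act2 (γ false).val (γ true).val h) = (rep1 (Fin n) e).pt (zU e h) γ := by
  have h1 := (inU_zU hh).pt γ
  rw [zU, pt_rep1, lin0_apply, tup_crd (of_mem_Z hh).1] at h1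
  rw [zU, zU, pt_rep1, lin0_apply, tup_crd (of_mem_Z hh).1]
  congr 1
  exact (eq_inv_of_mul_eq_one_left h1).symm

lemma mem_Z_of_inU {z : Option (Fin n × Mon (Fin n) e) → ℂ} (hz : InU z) :
    Submodule.span ℂ (Set.range (tup fun p => z (some p))) ∈ Z n e := by
  have h1 : ¬ HasZero fun p => z (some p) := by
    intro h
    have h2 : z none * aeval (fun p => z (some p)) (Res (Fin n) e) = 1 := hz
    rw [h.res] at h2
    simp at h2
  refine ⟨_, tup_isHomogeneous _, Fintype.linearIndependent_iff.2 fun y hy i => ?_,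
    fun x hx => by_contra fun h => h1 ⟨x, h, hx⟩, rfl⟩
  by_contra hi
  obtain ⟨x, hx, h2⟩ := exists_zero_except (fun p => z (some p)) i
  refine h1 ⟨x, hx, fun j => ?_⟩
  by_cases hj : j = i
  · have h3 := congrArg (eval x) hy
    rw [map_sum, Finset.sum_eq_single i] at h3
    · rw [hj]
      simpa [hi] using h3
    · intro k _ hk
      simp [h2 k hk]
    · simp
  · exact h2 j hj

lemma zU_tup {z : Option (Fin n × Mon (Fin n) e) → ℂ} (hz : InU z) :
    zU e (tup fun p => z (some p)) = z :=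
  InU.ext' (inU_zU (mem_Z_of_inU hz)) hz fun p => by simp [zU]

variable (n e) in
/-- the function on the space of subspaces attached to a polynomial -/
noncomputable def evZ : MvPolynomial (Option (Fin n × Mon (Fin n) e)) ℂ →ₐ[ℂ] (Z n e → ℂ) :=
  AlgHom.pi fun L => aeval (zU e L.2.choose)

lemma evZ_span {P : MvPolynomial (Option (Fin n × Mon (Fin n) e)) ℂ}
    (hP : P ∈ (rep1 (Fin n) e).inv) {h : Fin n → MvPolynomial (Fin n) ℂ}
    (hh : Submodule.span ℂ (Set.range h) ∈ Z n e) : evZ n e P ⟨_, hh⟩ = aeval (zU e h) P := by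
  obtain ⟨a, ha⟩ := exists_GL_of_span_eq (of_mem_Z hh).2.1 hh.choose_spec.2.2.2.symm
  show aeval (zU e hh.choose) P = _
  rw [ha, show act2 a.val 1 h = act2 (pairG a 1 false).val (pairG a 1 true).val h from rfl,
    zU_act2 hh, ← Rep.aeval_act, hP]

lemma exists_minor {h : Fin n → MvPolynomial (Fin n) ℂ}
    (h2 : LinearIndependent ℂ h) : ∃ I, plucker h I ≠ 0 := by
  obtain ⟨g, hg⟩ := exists_GL_of_span (Set.range fun β : Fin n →₀ ℕ => fun i => coeff β (h i)) (by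
    by_contra h3
    obtain ⟨φ, hφ1, hφ2⟩ := Submodule.exists_le_ker_of_lt_top _
      (lt_top_iff_ne_top.2 fun h4 => h3 h4.ge)
    apply hφ1
    have hw : ∀ x : Fin n → ℂ, φ x = ∑ i, φ (Pi.single i 1) * x i := by
      intro x
      conv_lhs => rw [pi_eq_sum_univ' x]
      simp [mul_comm]
    have h4 := Fintype.linearIndependent_iff.1 h2 (fun i => φ (Pi.single i 1)) (by
      ext β
      have h5 : φ (fun i => coeff β (h i)) = 0 := hφ2 (Submodule.subset_span ⟨β, rfl⟩)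
      rw [hw] at h5
      simpa [coeff_sum] using h5)
    ext i
    simpa using h4 i)
  choose I hI using hg
  refine ⟨I, ?_⟩
  have h3 : (Matrix.of fun i j => coeff (I j) (h i)) = g.val := by
    ext i j
    have := congrFun (hI j) i
    simpa using this
  rw [plucker, h3]
  exact g.det_ne_zero

lemma exists_away (P : MvPolynomial (Option (Fin n × Mon (Fin n) e)) ℂ) :
    ∃ (m : ℕ) (P₁ : MvPolynomial (Fin n × Mon (Fin n) e) ℂ), ∀ w : Fin n × Mon (Fin n) e → ℂ,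
      aeval w (Res (Fin n) e) ≠ 0 →
      aeval (ext (aeval w (Res (Fin n) e))⁻¹ w) P = aeval w P₁ / aeval w (Res (Fin n) e ^ m) := by
  induction P using MvPolynomial.induction_on with
  | C a => exact ⟨0, C a, fun w _ => by simp⟩
  | add p q hp hq =>
    obtain ⟨m, p₁, hp⟩ := hp
    obtain ⟨m', q₁, hq⟩ := hq
    refine ⟨m + m', p₁ * Res (Fin n) e ^ m' + Res (Fin n) e ^ m * q₁, fun w hw => ?_⟩
    rw [map_add, hp w hw, hq w hw]
    simp only [map_add, map_mul, map_pow]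
    field_simp
    ring
  | mul_X p o hp =>
    obtain ⟨m, p₁, hp⟩ := hp
    cases o with
    | none =>
      refine ⟨m + 1, p₁, fun w hw => ?_⟩
      rw [map_mul, hp w hw]
      simp only [map_pow, aeval_X, ext_none]
      field_simp
      ring
    | some x =>
      refine ⟨m, p₁ * X x, fun w hw => ?_⟩
      rw [map_mul, hp w hw]
      simp only [map_pow, aeval_X, ext_some, map_mul]
      field_simp

lemma evZ_mem {P : MvPolynomial (Option (Fin n × Mon (Fin n) e)) ℂ}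
    (hP : P ∈ (rep1 (Fin n) e).inv) : evZ n e P ∈ RI n (Z n e) := by
  refine ⟨fun h₀ hh₀ => ?_, ?_⟩
  · obtain ⟨I, hI⟩ := exists_minor (of_mem_Z hh₀).2.1
    obtain ⟨m, P₁, hP₁⟩ := exists_away P
    let y : Fin n × Mon (Fin n) e → (Fin n → (Fin n →₀ ℕ)) := fun p => Function.update I p.1 p.2.1
    have key : ∀ h : Fin n → MvPolynomial (Fin n) ℂ, Submodule.span ℂ (Set.range h) ∈ Z n e →
        plucker h I ≠ 0 → ∃ a : GL (Fin n) ℂ,
        crd e (act2 a.val 1 h) = fun p => (plucker h I)⁻¹ * plucker h (y p) := by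
      intro h _ hD
      let M : Matrix (Fin n) (Fin n) ℂ := Matrix.of fun i j => coeff (I j) (h i)
      have hM : M.det ≠ 0 := hD
      refine ⟨(Matrix.GeneralLinearGroup.mkOfDetNeZero Mᵀ (by rwa [det_transpose]))⁻¹, ?_⟩
      funext p
      have h1 : plucker h (y p) = cramer M (fun i => coeff p.2.1 (h i)) p.1 := by
        rw [cramer_apply, plucker]
        congr 1
        ext i j
        by_cases hj : j = p.1
        · simp [y, hj]
        · simp [y, hj, M]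
      have h2 := det_smul_inv_mulVec_eq_cramer M (fun i => coeff p.2.1 (h i)) (Ne.isUnit hM)
      rw [h1, ← h2, crd, act2_one_right, Pi.smul_apply, smul_eq_mul,
        show plucker h I = M.det from rfl, inv_mul_cancel_left₀ hM]
      simp [coeff_sum, mulVec, dotProduct, ← transpose_nonsing_inv]
    obtain ⟨P', hP', hP''⟩ := exists_homog P₁ y I
      (P₁.totalDegree + (Res (Fin n) e ^ m).totalDegree) (by omega)
    obtain ⟨Q', hQ', hQ''⟩ := exists_homog (Res (Fin n) e ^ m) y I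
      (P₁.totalDegree + (Res (Fin n) e ^ m).totalDegree) (by omega)
    have hne : ∀ (h : Fin n → MvPolynomial (Fin n) ℂ), Submodule.span ℂ (Set.range h) ∈ Z n e →
        aeval (crd e h) (Res (Fin n) e) ≠ 0 := fun h hh => right_ne_zero_of_mul_eq_one (inU_zU hh)
    refine ⟨_, X I * P', X I * Q', (isHomogeneous_X _ _).mul hP', (isHomogeneous_X _ _).mul hQ',
      ?_, fun h hh h1 => ?_⟩
    · obtain ⟨a, ha⟩ := key h₀ hh₀ hI
      rw [map_mul, eval_X, hQ'' _ hI, ← ha, map_pow]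
      exact mul_ne_zero hI (mul_ne_zero (pow_ne_zero _ hI)
        (pow_ne_zero _ (hne _ (by rwa [span_act2_left]))))
    · rw [map_mul, eval_X] at h1
      have hD := left_ne_zero_of_mul h1
      obtain ⟨a, ha⟩ := key h hh hD
      have hh' : Submodule.span ℂ (Set.range (act2 a.val 1 h)) ∈ Z n e := by rwa [span_act2_left]
      have h2 : evZ n e P ⟨_, hh⟩ = evZ n e P ⟨_, hh'⟩ := by simp only [span_act2_left]
      rw [h2, evZ_span hP, zU, hP₁ _ (hne _ hh'), map_mul, map_mul, eval_X, hP'' _ hD, hQ'' _ hD,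
        ← ha, mul_div_mul_left _ _ hD, mul_div_mul_left _ _ (pow_ne_zero _ hD)]
  · rintro g ⟨L, hL⟩ ⟨L', hL'⟩ h
    obtain ⟨w, -, -, -, rfl⟩ := id hL
    have h1 : L' = Submodule.span ℂ (Set.range (act2 (1 : GL (Fin n) ℂ).val g.val w)) := by
      rw [span_act2]; exact h
    subst h1
    rw [evZ_span hP, evZ_span hP]
    have h2 : zU e (act2 (1 : GL (Fin n) ℂ).val g.val w) = _ :=
      zU_act2 hL (pairG 1 (Matrix.SpecialLinearGroup.toGL g))
    rw [h2, ← Rep.aeval_act, hP]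

lemma inv_GL {k : ℕ} {Y : Set (Submodule ℂ (MvPolynomial (Fin n) ℂ))} {φ : Y → ℂ}
    (hφ : φ ∈ RI k Y) (g : GL (Fin n) ℂ) (L L' : Y) {m : ℕ}
    (hL : L.1 ≤ homogeneousSubmodule _ ℂ m) (h : L'.1 = L.1.map (sub g.val).toLinearMap) :
    φ L' = φ L := by
  obtain ⟨g₀, hg⟩ := map_sub_of_GL g hL
  exact hφ.2 g₀ L L' (h.trans hg)

lemma exists_evZ {φ : Z n e → ℂ} (hφ : φ ∈ RI n (Z n e)) :
    ∃ P ∈ (rep1 (Fin n) e).inv, evZ n e P = φ := by
  classical
  let S := MvPolynomial (Option (Fin n × Mon (Fin n) e)) ℂ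
  let G : S := X none * rename some (Res (Fin n) e) - 1
  have hG : ∀ χ : S →ₐ[ℂ] ℂ, χ G = 0 ↔ InU fun o => χ (X o) := by
    intro χ
    conv_lhs => rw [aeval_unique χ]
    rw [map_sub, map_mul, aeval_X, aeval_rename, map_one, sub_eq_zero]
    exact Iff.rfl
  let T : (Fin n → (Fin n →₀ ℕ)) → S := fun I =>
    (Matrix.of fun i j => coeff (I j) (tup (fun p => (X (some p) : S)) i)).det
  have hT : ∀ (χ : S →ₐ[ℂ] ℂ) (P : MvPolynomial _ ℂ),
      χ (aeval T P) = eval (plucker (tup fun p => χ (X (some p)))) P := by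
    intro χ P
    have h1 : (fun I => χ (T I)) = plucker (tup fun p => χ (X (some p))) := by
      funext I
      rw [AlgHom.map_det, plucker]
      congr 1
      ext i j
      have := congrArg (coeff (I j)) (map_tup (χ : S →+* ℂ) (fun p => (X (some p) : S)) i)
      rw [coeff_map] at this
      exact this
    rw [← h1]
    exact DFunLike.congr_fun (comp_aeval T χ) P
  obtain ⟨F, hF⟩ := global_of_local G (fun χ =>
    if h : Submodule.span ℂ (Set.range (tup fun p => χ (X (some p)))) ∈ Z n e then φ ⟨_, h⟩ else 0)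
    (by
      intro χ₀ h0
      obtain ⟨m, P, Q, -, -, h1, h2⟩ := hφ.1 _ (mem_Z_of_inU ((hG χ₀).1 h0))
      refine ⟨aeval T P, aeval T Q, by rwa [hT], fun χ h3 h4 => ?_⟩
      rw [hT] at h4
      rw [hT, hT, dif_pos (mem_Z_of_inU ((hG χ).1 h3))]
      exact h2 _ _ h4)
  have hF' : ∀ (z : Option (Fin n × Mon (Fin n) e) → ℂ) (hz : InU z),
      aeval z F = φ ⟨_, mem_Z_of_inU hz⟩ := by
    intro z hz
    obtain ⟨χ, rfl⟩ : ∃ χ : S →ₐ[ℂ] ℂ, z = fun o => χ (X o) :=
      ⟨aeval z, funext fun o => (aeval_X z o).symm⟩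
    have h1 := hF χ ((hG _).2 hz)
    rw [dif_pos (mem_Z_of_inU hz)] at h1
    rw [h1]
    exact DFunLike.congr_fun (aeval_unique χ).symm F
  refine ⟨_, (rep1 (Fin n) e).reyn_mem_inv F, ?_⟩
  funext L
  obtain ⟨L, hL⟩ := L
  obtain ⟨h, h1, -, -, rfl⟩ := id hL
  rw [evZ_span ((rep1 (Fin n) e).reyn_mem_inv F)]
  refine (rep1 (Fin n) e).map_reyn (aeval (zU e h) : S →ₐ[ℂ] ℂ).toLinearMap F _ fun γ => ?_
  rw [AlgHom.toLinearMap_apply, Rep.aeval_act, hF' _ ((inU_zU hL).pt γ)]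
  refine inv_GL hφ (γ true) _ _ (m := e) (Submodule.span_le.2 ?_) ?_
  · rintro _ ⟨i, rfl⟩
    exact h1 i
  · show Submodule.span ℂ _ = Submodule.map _ (Submodule.span ℂ _)
    rw [← zU_act2 hL, ← span_act2 (γ false)]
    simp only [zU, ext_some]
    rw [tup_crd (act2_isHomogeneous _ _ h1)]

instance : Algebra.FiniteType ℂ (RI n (Z n e)) := by
  have h : (rep1 (Fin n) e).inv.map (evZ n e) = RI n (Z n e) := by
    apply le_antisymm
    · rintro _ ⟨P, hP, rfl⟩
      exact evZ_mem hP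
    · exact fun φ hφ => exists_evZ hφ
  rw [← h]
  exact (Subalgebra.fg_iff_finiteType _).1 ((rep1 (Fin n) e).inv_fg.map _)

lemma isX_zU {f : MvPolynomial (Fin n) ℂ} (hf : Submodule.span ℂ {f} ∈ PX n (e + 1)) :
    IsX (zU e (grad f)) := isX_ptX (of_mem_PX hf).1 (inU_zU (grad_mem_Z hf))

lemma exists_eq_zU {z : Option (Fin n × Mon (Fin n) e) → ℂ} (hz : IsX z) :
    ∃ f : MvPolynomial (Fin n) ℂ, Submodule.span ℂ {f} ∈ PX n (e + 1) ∧ z = zU e (grad f) := by
  obtain ⟨h1, f, hf, h2⟩ := hz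
  have h3 : Submodule.span ℂ {f} ∈ PX n (e + 1) := ⟨f, hf, smooth_of_inU hf (h2 ▸ h1), rfl⟩
  exact ⟨f, h3, InU.ext' h1 (isX_zU h3).1 fun p => by rw [h2]; rfl⟩

lemma Φ_evZ {P : MvPolynomial (Option (Fin n × Mon (Fin n) e)) ℂ}
    (hP : P ∈ (rep1 (Fin n) e).inv) {f : MvPolynomial (Fin n) ℂ}
    (hf : Submodule.span ℂ {f} ∈ PX n (e + 1)) :
    (Φ n e ⟨_, evZ_mem hP⟩).1 ⟨_, hf⟩ = aeval (zU e (grad f)) P := by
  show evZ n e P (gradMap n e ⟨_, hf⟩) = _
  rw [gradMap_span, evZ_span hP]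

theorem Φ_surjective : Function.Surjective (Φ n e) := by
  classical
  rintro ⟨ψ, hψ⟩
  let S := OX (Fin n) e
  let f₀ : MvPolynomial (Fin n) S := frm fun β : Mon (Fin n) (e + 1) =>
    algebraMap (MvPolynomial (Mon (Fin n) (e + 1)) ℂ) S (X β)
  let fχ : (S →ₐ[ℂ] ℂ) → MvPolynomial (Fin n) ℂ := fun χ => MvPolynomial.map (χ : S →+* ℂ) f₀
  have h1 : ∀ χ : S →ₐ[ℂ] ℂ, (fun o => χ (genX (Fin n) e o)) = ptX e (fχ χ) _ := fun χ =>
    map_ptX (χ : S →+* ℂ) f₀ _
  have h2 : ∀ χ, (fχ χ).IsHomogeneous (e + 1) := fun χ => (frm_isHomogeneous _).map _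
  have h3 : ∀ χ, Submodule.span ℂ {fχ χ} ∈ PX n (e + 1) := fun χ =>
    ⟨_, h2 χ, smooth_of_inU (h2 χ) (h1 χ ▸ isX_genX.1.map χ), rfl⟩
  have h3' : ∀ χ, Submodule.span ℂ (Set.range fun _ : Fin 1 => fχ χ) ∈ PX n (e + 1) := fun χ => by
    rw [range_one]; exact h3 χ
  have hT : ∀ (χ : S →ₐ[ℂ] ℂ) (P : MvPolynomial (Fin 1 → (Fin n →₀ ℕ)) ℂ),
      χ (aeval (fun I => coeff (I 0) f₀) P) = eval (plucker fun _ : Fin 1 => fχ χ) P := by
    intro χ P
    have h4 : (fun I : Fin 1 → (Fin n →₀ ℕ) => χ (coeff (I 0) f₀)) =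
        plucker fun _ : Fin 1 => fχ χ := by
      funext I
      rw [plucker_one, coeff_map]; rfl
    rw [← h4]
    exact DFunLike.congr_fun (comp_aeval _ χ) P
  obtain ⟨x, hx⟩ := global_of_local (0 : S) (fun χ => ψ ⟨_, h3 χ⟩) (by
    intro χ₀ _
    obtain ⟨m, P, Q, -, -, h4, h5⟩ := hψ.1 _ (h3' χ₀)
    refine ⟨aeval (fun I => coeff (I 0) f₀) P, aeval (fun I => coeff (I 0) f₀) Q, by rwa [hT],
      fun χ _ h6 => ?_⟩
    rw [hT] at h6
    rw [hT, hT, ← h5 _ (h3' χ) h6]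
    simp only [range_one])
  obtain ⟨F, rfl⟩ := θ_surjective x
  have hF : ∀ (f : MvPolynomial (Fin n) ℂ) (hf : Submodule.span ℂ {f} ∈ PX n (e + 1)),
      aeval (zU e (grad f)) F = ψ ⟨_, hf⟩ := by
    intro f hf
    obtain ⟨χ, hχ⟩ := (isX_zU hf).exists_hom
    have h4 : fχ χ = f := by
      have h5 : crd e (grad (fχ χ)) = crd e (grad f) := by
        funext p
        have h7 := congrFun ((h1 χ).symm.trans hχ) (some p)
        rwa [ptX, zU, ext_some, ext_some] at h7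
      have h6 := congrArg tup h5
      rw [tup_crd_grad (h2 χ), tup_crd_grad (of_mem_PX hf).1] at h6
      rw [← sub_eq_zero]
      refine eq_zero_of_dd ((h2 χ).sub (of_mem_PX hf).1) fun y => ?_
      rw [dd_apply]
      refine Finset.sum_eq_zero fun i _ => ?_
      rw [map_sub, show pderiv i (fχ χ) = pderiv i f from congrFun h6 i, sub_self, smul_zero]
    have h5 := hx χ (map_zero χ)
    rw [map_θ, hχ] at h5
    rw [← h5]
    simp only [h4]
  obtain ⟨P, hP, hPF⟩ := BB_le_AA (θ_mem_BB (P := F) fun g => mem_IX fun z hz => by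
    obtain ⟨f, hf, rfl⟩ := exists_eq_zU hz
    obtain ⟨f', hf', h4⟩ := exists_eq_zU (hz.dg g)
    rw [map_sub, Rep.aeval_act, h4, hF _ hf, hF _ hf', sub_eq_zero]
    have h5 : Submodule.span ℂ {sub g.val f} ∈ PX n (e + 1) := by
      refine ⟨_, sub_isHomogeneous _ (of_mem_PX hf).1, ?_, rfl⟩
      have h6 := (hz.dg g).1
      rw [zU, ← ptX, pt_ptX_dg (of_mem_PX hf).1] at h6
      exact smooth_of_inU (sub_isHomogeneous _ (of_mem_PX hf).1) h6
    have h6 : zU e (grad (sub g.val f)) = zU e (grad f') := by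
      rw [← h4, grad_sub]
      exact zU_act2 (grad_mem_Z hf) (dg g)
    rw [← hF _ hf', ← h6, hF _ h5]
    refine inv_GL hψ g _ _ (m := e + 1) (Submodule.span_le.2 ?_) ?_
    · rintro _ rfl
      exact (of_mem_PX hf).1
    · rw [Submodule.map_span, Set.image_singleton]; rfl)
  refine ⟨⟨_, evZ_mem hP⟩, Subtype.ext (funext ?_)⟩
  rintro ⟨L, hL⟩
  obtain ⟨f, -, -, rfl⟩ := id hL
  rw [Φ_evZ hP]
  refine Eq.trans ?_ (hF _ hL)
  rw [← sub_eq_zero, ← map_sub]
  apply (isX_zU hL).aeval_eq_zero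
  show θ _ _ _ = 0
  rw [map_sub, sub_eq_zero]
  exact hPF

theorem exists_equiv : Nonempty (BB (Fin n) e ≃+* RI 1 (PX n (e + 1))) := by
  let φ₁ : (rep1 (Fin n) e).inv →ₐ[ℂ] BB (Fin n) e :=
    ((θ (Fin n) e).comp (rep1 (Fin n) e).inv.val).codRestrict _ fun P => AA_le_BB ⟨P, P.2, rfl⟩
  let φ₂ : (rep1 (Fin n) e).inv →ₐ[ℂ] RI 1 (PX n (e + 1)) := (Φ n e).comp
    (((evZ n e).comp (rep1 (Fin n) e).inv.val).codRestrict _ fun P => evZ_mem P.2)
  have h1 : Function.Surjective φ₁ := by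
    rintro ⟨x, hx⟩
    obtain ⟨P, hP, rfl⟩ := BB_le_AA hx
    exact ⟨⟨P, hP⟩, rfl⟩
  have h2 : Function.Surjective φ₂ := by
    intro ψ
    obtain ⟨⟨φ, hφ⟩, rfl⟩ := Φ_surjective ψ
    obtain ⟨P, hP, rfl⟩ := exists_evZ hφ
    exact ⟨⟨P, hP⟩, rfl⟩
  have h3 : RingHom.ker φ₁ = RingHom.ker φ₂ := by
    ext P
    rw [RingHom.mem_ker, RingHom.mem_ker, Subtype.ext_iff, Subtype.ext_iff]
    constructor
    · intro h
      funext L
      obtain ⟨L, hL⟩ := L
      obtain ⟨f, -, -, rfl⟩ := id hL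
      exact (Φ_evZ P.2 hL).trans ((isX_zU hL).aeval_eq_zero h)
    · intro h
      refine mem_IX fun z hz => ?_
      obtain ⟨f, hf, rfl⟩ := exists_eq_zU hz
      exact (Φ_evZ P.2 hf).symm.trans (congrFun h _)
  exact ⟨(((Ideal.quotientKerAlgEquivOfSurjective h1).symm.trans
    (Ideal.quotientEquivAlgOfEq ℂ h3)).trans (Ideal.quotientKerAlgEquivOfSurjective h2)).toRingEquiv⟩

theorem normal_image :
    IsDomain (RI n (Z n e) ⧸ PrimeSpectrum.vanishingIdeal
      (Set.range (PrimeSpectrum.comap (Φ n e : RI n (Z n e) →+* RI 1 (PX n (e + 1)))))) ∧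
    IsIntegrallyClosed (RI n (Z n e) ⧸ PrimeSpectrum.vanishingIdeal
      (Set.range (PrimeSpectrum.comap (Φ n e : RI n (Z n e) →+* RI 1 (PX n (e + 1)))))) := by
  obtain ⟨i⟩ := exists_equiv (n := n) (e := e)
  have h1 : IsDomain (RI 1 (PX n (e + 1))) := i.symm.toMulEquiv.isDomain _
  have h2 : IsIntegrallyClosed (RI 1 (PX n (e + 1))) := IsIntegrallyClosed.of_equiv i
  have h3 := RingHom.ker_isPrime (Φ n e : RI n (Z n e) →+* RI 1 (PX n (e + 1)))
  have h4 : Function.Surjective (Φ n e : RI n (Z n e) →+* RI 1 (PX n (e + 1))) := Φ_surjective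
  rw [range_comap_of_surjective _ _ h4,
    PrimeSpectrum.vanishingIdeal_zeroLocus_eq_radical, h3.radical]
  exact ⟨inferInstance, IsIntegrallyClosed.of_equiv
    (RingHom.quotientKerEquivOfSurjective h4).symm⟩

end Pool.Agent.P.MP_f4e0a3_ag
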